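import Pool.Agent.T5h70.NH.T_A3

/-!
# Task A4 (helper78)
-/

set_option autoImplicit false

open Matrix MeasureTheory
open scoped BigOperators ComplexConjugate ComplexOrder

namespace Pool.Agent.T5h70.NH

open Pool.Agent.V11219.MomentOp

theorem ent_cont {d : ℕ} (i j : Fin d) :
    Continuous fun V : UU (Fin d) => (V : Matrix (Fin d) (Fin d) ℂ) i j :=
  (continuous_apply_apply i j).comp continuous_subtype_val

theorem gI_cont (d t : ℕ) : Continuous fun x : Fin d → ℂ => gI d t x := by
  unfold gI
  have h := _root_.continuous_parametric_integral_of_continuous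
    (X := Fin d → ℂ) (Y := UU (Fin d)) (E := ℂ) (μ := haarU (Fin d))
    (f := fun x V => (∑ i, x i * (V : Matrix (Fin d) (Fin d) ℂ) i i) ^ t *
      (conj (trace (V : Matrix (Fin d) (Fin d) ℂ))) ^ t) (s := Set.univ) ?_ isCompact_univ
  · simpa using h
  · have h1 : ∀ i j : Fin d, Continuous fun p : (Fin d → ℂ) × UU (Fin d) =>
        (p.2 : Matrix (Fin d) (Fin d) ℂ) i j := fun i j =>
      (ent_cont i j).comp continuous_snd
    have h2 : ∀ i : Fin d, Continuous fun p : (Fin d → ℂ) × UU (Fin d) => p.1 i := fun i =>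
      (continuous_apply i).comp continuous_fst
    show Continuous fun p : (Fin d → ℂ) × UU (Fin d) =>
      (∑ i, p.1 i * (p.2 : Matrix (Fin d) (Fin d) ℂ) i i) ^ t *
      (conj (trace (p.2 : Matrix (Fin d) (Fin d) ℂ))) ^ t
    refine Continuous.mul (Continuous.pow ?_ _) (Continuous.pow ?_ _)
    · exact continuous_finsetSum _ fun i _ => (h2 i).mul (h1 i i)
    · refine Complex.continuous_conj.comp ?_
      simp only [Matrix.trace, Matrix.diag_apply]
      exact continuous_finsetSum _ fun i _ => h1 i i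

theorem gI_smul (d t : ℕ) (s : ℂ) (x : Fin d → ℂ) :
    gI d t (fun i => s * x i) = s ^ t * gI d t x := by
  unfold gI
  rw [← integral_const_mul]
  congr 1
  funext V
  have h : ∑ i, s * x i * (V : Matrix (Fin d) (Fin d) ℂ) i i =
      s * ∑ i, x i * (V : Matrix (Fin d) (Fin d) ℂ) i i := by
    rw [Finset.mul_sum]
    exact Finset.sum_congr rfl fun i _ => by ring
  rw [h, mul_pow]
  ring

theorem hasDerivAt_PP (d t : ℕ) (x : Fin d → ℝ) (τ : ℝ) :
    HasDerivAt (fun τ : ℝ => PP d t (fun i => x i + τ)) (NP d t (fun i => x i + τ)) τ := by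
  unfold PP NP
  refine HasDerivAt.fun_sum fun l _ => ?_
  have h1 : ∀ i ∈ (Finset.univ : Finset (Fin d)),
      HasDerivAt (fun τ : ℝ => (x i + τ) ^ l i) ((l i : ℝ) * (x i + τ) ^ (l i - 1)) τ := by
    intro i _
    have h2 : HasDerivAt (fun τ : ℝ => x i + τ) 1 τ := by
      simpa using (hasDerivAt_id τ).const_add (x i)
    have h3 := h2.fun_pow (l i)
    simpa using h3
  have h4 := HasDerivAt.fun_finsetProd h1
  have h5 := h4.const_mul (vn ℝ l / (∏ i, ((l i).factorial : ℝ)) ^ 2)
  refine h5.congr_deriv ?_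
  unfold kap
  have h6 : ∀ i : Fin d, (l i : ℝ) * ∏ j, (x j + τ) ^ (Function.update l i (l i - 1) j) =
      (∏ j ∈ Finset.univ.erase i, (x j + τ) ^ l j) • ((l i : ℝ) * (x i + τ) ^ (l i - 1)) := by
    intro i
    rw [← Finset.mul_prod_erase Finset.univ _ (Finset.mem_univ i), Function.update_self]
    have h7 : ∏ j ∈ Finset.univ.erase i, (x j + τ) ^ (Function.update l i (l i - 1) j) =
        ∏ j ∈ Finset.univ.erase i, (x j + τ) ^ l j := by
      refine Finset.prod_congr rfl fun j hj => ?_
      rw [Function.update_of_ne (Finset.ne_of_mem_erase hj)]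
    rw [h7, smul_eq_mul]
    ring
  simp only [h6]
  ring

theorem vd_pos {d : ℕ} (x : Fin d → ℝ) (hx : StrictAnti x) : 0 < vd x := by
  unfold vd
  refine Finset.prod_pos fun i _ => Finset.prod_pos fun j hj => ?_
  have h := hx (Finset.mem_filter.1 hj).2
  linarith

theorem vd_shift {d : ℕ} (x : Fin d → ℝ) (τ : ℝ) : vd (fun i => x i + τ) = vd x := by
  unfold vd
  refine Finset.prod_congr rfl fun i _ => Finset.prod_congr rfl fun j hj => ?_
  ring

theorem t_A4 (d : ℕ) (h1 : FORM d) (h2 : A3 d) : A4 d := by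
  intro t x hx hpos hsum
  rcases Nat.eq_zero_or_pos d with hd | hd
  · subst hd
    have : (fun i => (x i : ℂ)) = 1 := Subsingleton.elim _ _
    rw [this]
  rcases Nat.eq_zero_or_pos t with ht | ht
  · subst ht
    unfold gI
    simp
  have hd' : (0 : ℝ) < d := by exact_mod_cast hd
  -- real form
  set F : (Fin d → ℝ) → ℝ := fun y => (gI d t (fun i => (y i : ℂ))).re with hF
  have hFcont : Continuous F := by
    refine Complex.continuous_re.comp ((gI_cont d t).comp ?_)
    exact continuous_pi fun i => Complex.continuous_ofReal.comp (continuous_apply i)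
  have hFs : ∀ (s : ℝ) (y : Fin d → ℝ), F (fun i => s * y i) = s ^ t * F y := by
    intro s y
    simp only [hF]
    push_cast
    rw [gI_smul]
    rw [← Complex.ofReal_pow, Complex.re_ofReal_mul]
  set c : ℝ := (t.factorial : ℝ) ^ 2 * (∏ j : Fin d, ((j : ℕ).factorial : ℝ)) with hc
  have hcpos : 0 < c := by
    have : (0 : ℝ) < ∏ j : Fin d, ((j : ℕ).factorial : ℝ) :=
      Finset.prod_pos fun j _ => by positivity
    positivity
  have hform : ∀ y : Fin d → ℝ, vd y * F y = c * PP d t y := by
    intro y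
    have h := congrArg Complex.re (h1 t y)
    rw [Complex.re_ofReal_mul, Complex.ofReal_re] at h
    exact h
  -- monotonicity
  have hmono : MonotoneOn (fun τ : ℝ => PP d t (fun i => x i + τ) / (1 + τ) ^ t)
      (Set.Ici 0) := by
    have hder : ∀ τ : ℝ, 0 ≤ τ → HasDerivAt (fun τ : ℝ => PP d t (fun i => x i + τ) / (1 + τ) ^ t)
        ((NP d t (fun i => x i + τ) * (1 + τ) ^ t -
          PP d t (fun i => x i + τ) * ((t : ℝ) * (1 + τ) ^ (t - 1))) / ((1 + τ) ^ t) ^ 2) τ := by
      intro τ hτ
      have e1 : HasDerivAt (fun τ : ℝ => (1 + τ) ^ t) ((t : ℝ) * (1 + τ) ^ (t - 1)) τ := by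
        have h2 : HasDerivAt (fun τ : ℝ => 1 + τ) 1 τ := by
          simpa using (hasDerivAt_id τ).const_add 1
        simpa using h2.fun_pow t
      exact (hasDerivAt_PP d t x τ).div e1 (by positivity)
    refine monotoneOn_of_deriv_nonneg (convex_Ici 0) ?_ ?_ ?_
    · intro τ hτ
      exact (hder τ hτ).continuousAt.continuousWithinAt
    · intro τ hτ
      rw [interior_Ici] at hτ
      exact (hder τ (le_of_lt hτ)).differentiableAt.differentiableWithinAt
    · intro τ hτ
      rw [interior_Ici] at hτ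
      have hτ0 : 0 < τ := hτ
      rw [(hder τ hτ0.le).deriv]
      apply div_nonneg _ (by positivity)
      have e2 := h2 t (fun i => x i + τ) ht (fun a b hab => by
        have := hx hab
        show x b + τ < x a + τ
        linarith) (fun a => by have := hpos a; linarith)
      rw [Finset.sum_add_distrib, hsum, Finset.sum_const, Finset.card_univ, Fintype.card_fin,
        nsmul_eq_mul] at e2
      have e3 : (t : ℝ) * PP d t (fun i => x i + τ) ≤ (1 + τ) * NP d t (fun i => x i + τ) := by
        have e4 : (d : ℝ) * ((t : ℝ) * PP d t (fun i => x i + τ)) ≤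
            (d : ℝ) * ((1 + τ) * NP d t (fun i => x i + τ)) := by
          nlinarith [e2]
        exact le_of_mul_le_mul_left e4 hd'
      obtain ⟨s, rfl⟩ : ∃ s, t = s + 1 := ⟨t - 1, by omega⟩
      have e5 : (0 : ℝ) ≤ (1 + τ) ^ s := by positivity
      have e6 := mul_le_mul_of_nonneg_left e3 e5
      rw [Nat.add_sub_cancel, pow_succ]
      nlinarith [e6]
  -- comparison
  have hcomp : ∀ n : ℕ, F x ≤ F (fun i => 1 + (1 / ((n : ℝ) + 1)) * (x i - 1)) := by
    intro n
    have hn : (0 : ℝ) ≤ n := n.cast_nonneg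
    have e1 := hmono (Set.mem_Ici.2 le_rfl) (Set.mem_Ici.2 hn) hn
    simp only [add_zero, one_pow, div_one] at e1
    have e2 := hform x
    have e3 := hform (fun i => x i + n)
    rw [vd_shift] at e3
    have hv := vd_pos x hx
    have e4 : (fun i => x i + (n : ℝ)) =
        fun i => (1 + (n : ℝ)) * (1 + (1 / ((n : ℝ) + 1)) * (x i - 1)) := by
      funext i
      have : (n : ℝ) + 1 ≠ 0 := by positivity
      field_simp
      ring
    have e5 : F (fun i => x i + (n : ℝ)) =
        (1 + (n : ℝ)) ^ t * F (fun i => 1 + (1 / ((n : ℝ) + 1)) * (x i - 1)) := by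
      rw [e4, hFs]
    have e6 : (0 : ℝ) < (1 + (n : ℝ)) ^ t := by positivity
    have e7 : vd x * F x ≤ vd x * F (fun i => 1 + (1 / ((n : ℝ) + 1)) * (x i - 1)) := by
      rw [e2]
      have e8 : vd x * F (fun i => 1 + (1 / ((n : ℝ) + 1)) * (x i - 1)) =
          c * (PP d t (fun i => x i + n) / (1 + (n : ℝ)) ^ t) := by
        rw [e5] at e3
        rw [← mul_div_assoc, eq_div_iff e6.ne']
        linarith
      rw [e8]
      exact mul_le_mul_of_nonneg_left e1 hcpos.le
    exact le_of_mul_le_mul_left e7 hv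
  have hlim : Filter.Tendsto (fun n : ℕ => F (fun i => 1 + (1 / ((n : ℝ) + 1)) * (x i - 1)))
      Filter.atTop (nhds (F (fun _ => 1))) := by
    refine (hFcont.tendsto (fun _ => 1)).comp ?_
    rw [tendsto_pi_nhds]
    intro i
    have h0 : Filter.Tendsto (fun n : ℕ => 1 / ((n : ℝ) + 1)) Filter.atTop (nhds 0) :=
      tendsto_one_div_add_atTop_nhds_zero_nat
    have h3 := (h0.mul_const (x i - 1)).const_add 1
    simpa using h3
  have hfin : F x ≤ F (fun _ => 1) := ge_of_tendsto' hlim hcomp
  simp only [hF] at hfin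
  have h9 : (fun _ : Fin d => ((1 : ℝ) : ℂ)) = 1 := by
    funext i; simp
  rw [h9] at hfin
  exact hfin

end Pool.Agent.T5h70.NH
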