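import Pool.Agent.T5h70.NH.Stm

/-!
# Task AE of the project NH (helper22)
-/

set_option autoImplicit false

open Matrix MeasureTheory
open scoped BigOperators

namespace Pool.Agent.T5h70.NH

namespace AE22

/-- splitting off the last variable of the Vandermonde product -/
theorem vd_last {n : ℕ} (x : Fin (n + 1) → ℝ) :
    vd x = vd (fun j : Fin n => x j.castSucc) * ∏ j : Fin n, (x j.castSucc - x (Fin.last n)) := by
  unfold vd
  rw [Fin.prod_univ_castSucc]
  have h1 : ∏ j ∈ Finset.univ.filter (fun j => Fin.last n < j), (x (Fin.last n) - x j) = 1 := by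
    rw [Finset.filter_false_of_mem (fun j _ => not_lt.2 (Fin.le_last j)), Finset.prod_empty]
  rw [h1, mul_one, ← Finset.prod_mul_distrib]
  refine Finset.prod_congr rfl fun i _ => ?_
  rw [Finset.prod_filter, Fin.prod_univ_castSucc, if_pos (Fin.castSucc_lt_last i),
    Finset.prod_filter]
  congr 1

theorem vd_sub {n : ℕ} (x : Fin n → ℝ) (p : ℝ) : vd (fun j => x j - p) = vd x := by
  unfold vd
  refine Finset.prod_congr rfl fun i _ => Finset.prod_congr rfl fun j _ => by ring

/-- the exponents -/
noncomputable def ex {n : ℕ} (m : Fin (n + 2) → ℤ) (e : Fin (n + 2)) (j : Fin (n + 2)) : ℝ :=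
  ((Function.update m e (m e + 1) j : ℤ) : ℝ)

/-- the determinant -/
noncomputable def dt {n : ℕ} (z x : Fin n → ℝ) : ℝ := (Matrix.of fun i j => Real.exp (z i * x j)).det

theorem dt_cont {n : ℕ} (x : Fin n → ℝ) : Continuous fun z : Fin n → ℝ => dt z x := by
  unfold dt
  refine Continuous.matrix_det ?_
  refine continuous_matrix fun i j => ?_
  simp only [Matrix.of_apply]
  fun_prop

end AE22

open AE22

theorem t_AE (h1 : BR) (h2 : AE0) : AE := by
  intro n
  induction n with
  | zero =>
    intro z m hz hm
    have h := h2 (z 0) (z 1) (m 0) (m 1) (hz (by decide)) hm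
    have e1 : ∀ x : Fin 2 → ℝ, vd x = x 0 - x 1 := by
      intro x
      unfold vd
      rw [Fin.prod_univ_two, Finset.prod_filter, Finset.prod_filter, Fin.prod_univ_two,
        Fin.prod_univ_two]
      simp
    rw [Matrix.det_fin_two, Matrix.det_fin_two, e1, e1]
    simp only [Matrix.of_apply, ← Real.exp_add]
    have u1 : Function.update m 1 (m 1 + 1) 0 = m 0 := Function.update_of_ne (by decide) _ _
    have u2 : Function.update m 1 (m 1 + 1) 1 = m 1 + 1 := Function.update_self _ _ _
    have u3 : Function.update m 0 (m 0 + 1) 0 = m 0 + 1 := Function.update_self _ _ _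
    have u4 : Function.update m 0 (m 0 + 1) 1 = m 1 := Function.update_of_ne (by decide) _ _
    simp only [Nat.reduceAdd, u1, u2, u3, u4, Int.cast_add, Int.cast_one]
    have e2 : (m 0 : ℝ) - (m 1 + 1) = m 0 - m 1 - 1 := by ring
    rw [e2]
    exact h
  | succ n ih =>
    intro z m hz hm
    set p : ℤ := m (Fin.last (n + 2)) with hp
    set m' : Fin (n + 2) → ℤ := fun j => m j.castSucc - p with hm'
    have hl0 : (Fin.last (n + 2)) ≠ 0 := (Fin.last_pos).ne'
    have hl1 : (Fin.last (n + 2)) ≠ 1 := by
      intro h
      have := congrArg Fin.val h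
      simp at this
    -- the exponents of the two determinants
    have key : ∀ e : Fin (n + 2), (∀ j : Fin (n + 2),
        ex (n := n + 1) m e.castSucc j.castSucc - (p : ℝ) = ex m' e j) ∧
        ex (n := n + 1) m e.castSucc (Fin.last (n + 2)) = p := by
      intro e
      constructor
      · intro j
        unfold ex
        by_cases h : j = e
        · subst h
          rw [Function.update_self, Function.update_self, hm']
          push_cast
          ring
        · rw [Function.update_of_ne h, Function.update_of_ne (fun h' => h (Fin.castSucc_injective _ h')),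
            hm']
          push_cast
          ring
      · unfold ex
        rw [Function.update_of_ne (Fin.castSucc_lt_last e).ne', hp]
    have hBR : ∀ e : Fin (n + 2), dt z (ex (n := n + 1) m e.castSucc) =
        Real.exp (p * ∑ i, z i) * (∏ j, ex m' e j) *
          ∫ ζ in Set.pi Set.univ (fun i : Fin (n + 2) => Set.Ioc (z i.succ) (z i.castSucc)),
            dt ζ (ex m' e) := by
      intro e
      have h := h1 (n + 2) z (ex (n := n + 1) m e.castSucc) hz.antitone
      rw [(key e).2] at h
      simp only [(key e).1] at h
      exact h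
    have hVD : ∀ e : Fin (n + 2), vd (ex (n := n + 1) m e.castSucc) =
        vd (ex m' e) * ∏ j, ex m' e j := by
      intro e
      rw [vd_last, (key e).2]
      simp only [(key e).1]
      congr 1
      rw [← vd_sub _ (p : ℝ)]
      congr 1
      funext j
      exact (key e).1 j
    have hm1 : m' 1 < m' 0 := by
      simp only [hm']
      have := hm
      rw [← Fin.castSucc_one, ← Fin.castSucc_zero] at this
      omega
    -- the sign of the product
    have hpos : 0 ≤ (∏ j, ex m' 0 j) * ∏ j, ex m' 1 j := by
      rw [← Finset.prod_mul_distrib]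
      refine Finset.prod_nonneg fun j _ => ?_
      unfold ex
      by_cases h0 : j = 0
      · subst h0
        rw [Function.update_self, Function.update_of_ne (by simp)]
        have : (0 : ℤ) ≤ (m' 0 + 1) * m' 0 := by
          rcases le_or_gt 0 (m' 0) with h | h
          · positivity
          · have : m' 0 + 1 ≤ 0 := h
            nlinarith
        exact_mod_cast this
      · by_cases h1 : j = 1
        · subst h1
          rw [Function.update_self, Function.update_of_ne (by simp)]
          have : (0 : ℤ) ≤ m' 1 * (m' 1 + 1) := by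
            rcases le_or_gt 0 (m' 1) with h | h
            · positivity
            · have : m' 1 + 1 ≤ 0 := h
              nlinarith
          exact_mod_cast this
        · rw [Function.update_of_ne h0, Function.update_of_ne h1]
          exact mul_self_nonneg _
    -- the inequality of the integrals
    set B : Set (Fin (n + 2) → ℝ) :=
      Set.pi Set.univ (fun i : Fin (n + 2) => Set.Ioc (z i.succ) (z i.castSucc)) with hB
    have hint : ∀ x : Fin (n + 2) → ℝ, IntegrableOn (fun ζ => dt ζ x) B := by
      intro x
      have hc : IsCompact (Set.pi Set.univ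
          (fun i : Fin (n + 2) => Set.Icc (z i.succ) (z i.castSucc))) :=
        isCompact_univ_pi fun i => isCompact_Icc
      exact ((dt_cont x).continuousOn.integrableOn_compact hc).mono_set
        (Set.pi_mono fun i _ => Set.Ioc_subset_Icc_self)
    have hI : (∫ ζ in B, dt ζ (ex m' 1)) * vd (ex m' 0) ≤
        (∫ ζ in B, dt ζ (ex m' 0)) * vd (ex m' 1) := by
      rw [← integral_mul_const, ← integral_mul_const]
      refine setIntegral_mono_on ((hint _).mul_const _) ((hint _).mul_const _)
        (MeasurableSet.univ_pi fun i => measurableSet_Ioc) ?_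
      intro ζ hζ
      refine ih ζ m' ?_ hm1
      rw [Fin.strictAnti_iff_succ_lt]
      intro i
      have a1 := (hζ i.succ (Set.mem_univ _)).2
      have a2 := (hζ i.castSucc (Set.mem_univ _)).1
      have a3 : i.succ.castSucc = i.castSucc.succ := rfl
      rw [a3] at a1
      exact lt_of_le_of_lt a1 a2
    have g0 : dt z (ex (n := n + 1) m 0) = _ := hBR 0
    have g1 : dt z (ex (n := n + 1) m 1) = _ := hBR 1
    have v0 : vd (ex (n := n + 1) m 0) = _ := hVD 0
    have v1 : vd (ex (n := n + 1) m 1) = _ := hVD 1
    change dt z (ex (n := n + 1) m 1) * vd (ex (n := n + 1) m 0) ≤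
      dt z (ex (n := n + 1) m 0) * vd (ex (n := n + 1) m 1)
    rw [g0, g1, v0, v1]
    have hE : 0 < Real.exp (p * ∑ i, z i) := Real.exp_pos _
    have h := mul_le_mul_of_nonneg_left hI (mul_nonneg hE.le hpos)
    calc _ = (Real.exp (p * ∑ i, z i) * ((∏ j, ex m' 0 j) * ∏ j, ex m' 1 j)) *
          ((∫ ζ in B, dt ζ (ex m' 1)) * vd (ex m' 0)) := by ring
      _ ≤ _ := h
      _ = _ := by ring

end Pool.Agent.T5h70.NH
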