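import Pool.Agent.T5h70.NH.Stm

/-! Task AE0 (helper39). -/

open Matrix MeasureTheory
open scoped BigOperators ComplexConjugate ComplexOrder

namespace Pool.Agent.T5h70.NH.AE0

theorem convexOn_sinh : ConvexOn ℝ (Set.Ici 0) Real.sinh := by
  apply convexOn_of_deriv2_nonneg (convex_Ici 0) Real.continuous_sinh.continuousOn
    Real.differentiable_sinh.differentiableOn
  · rw [Real.deriv_sinh]
    exact Real.differentiable_cosh.differentiableOn
  · intro x hx
    rw [interior_Ici] at hx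
    have : deriv^[2] Real.sinh = Real.sinh := by
      simp [Function.iterate_succ, Real.deriv_sinh, Real.deriv_cosh]
    rw [this]
    exact Real.sinh_nonneg_iff.2 (le_of_lt hx)

/-- `sinh (a w) b ≤ sinh (b w) a` for `0 ≤ a ≤ b` -/
theorem sinh_le {a b w : ℝ} (ha : 0 ≤ a) (hab : a ≤ b) (hb : 0 < b) (hw : 0 ≤ w) :
    Real.sinh (a * w) * b ≤ Real.sinh (b * w) * a := by
  have hx1 : b * w ∈ Set.Ici (0 : ℝ) := Set.mem_Ici.2 (by positivity)
  have hx2 : (0 : ℝ) ∈ Set.Ici (0 : ℝ) := Set.mem_Ici.2 le_rfl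
  have ha1 : 0 ≤ a / b := by positivity
  have ha2 : 0 ≤ 1 - a / b := by rw [sub_nonneg, div_le_one hb]; exact hab
  have h := convexOn_sinh.2 hx1 hx2 ha1 ha2 (by ring)
  have e : (a / b) • (b * w) + (1 - a / b) • (0 : ℝ) = a * w := by
    rw [smul_eq_mul, smul_eq_mul, mul_zero, add_zero]
    field_simp
  rw [e, Real.sinh_zero, smul_zero, add_zero, smul_eq_mul] at h
  have h2 := mul_le_mul_of_nonneg_right h hb.le
  calc Real.sinh (a * w) * b ≤ a / b * Real.sinh (b * w) * b := h2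
    _ = Real.sinh (b * w) * a := by field_simp

theorem t_AE0 : AE0 := by
  intro u v p q huv hqp
  have hn : (1 : ℝ) ≤ (p : ℝ) - q := by
    have : q + 1 ≤ p := hqp
    have h2 : ((q + 1 : ℤ) : ℝ) ≤ (p : ℝ) := Int.cast_le.2 this
    push_cast at h2
    linarith
  set n : ℝ := (p : ℝ) - q with hnd
  set S : ℝ := (u + v) * (p + q + 1) / 2 with hS
  set w : ℝ := (u - v) / 2 with hw
  have hw0 : 0 ≤ w := by rw [hw]; linarith
  have e1 : Real.exp (u * p + v * (q + 1)) = Real.exp S * Real.exp ((n - 1) * w) := by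
    rw [← Real.exp_add]; congr 1; rw [hS, hw, hnd]; ring
  have e2 : Real.exp (u * (q + 1) + v * p) = Real.exp S * Real.exp (-((n - 1) * w)) := by
    rw [← Real.exp_add]; congr 1; rw [hS, hw, hnd]; ring
  have e3 : Real.exp (u * (p + 1) + v * q) = Real.exp S * Real.exp ((n + 1) * w) := by
    rw [← Real.exp_add]; congr 1; rw [hS, hw, hnd]; ring
  have e4 : Real.exp (u * q + v * (p + 1)) = Real.exp S * Real.exp (-((n + 1) * w)) := by
    rw [← Real.exp_add]; congr 1; rw [hS, hw, hnd]; ring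
  rw [e1, e2, e3, e4]
  have h := sinh_le (a := n - 1) (b := n + 1) (w := w) (by linarith) (by linarith) (by linarith) hw0
  rw [Real.sinh_eq, Real.sinh_eq] at h
  have hS0 : 0 ≤ Real.exp S := (Real.exp_pos S).le
  have h3 := mul_le_mul_of_nonneg_left h hS0
  have r1 : (p : ℝ) + 1 - q = n + 1 := by rw [hnd]; ring
  have r2 : (p : ℝ) - q - 1 = n - 1 := by rw [hnd]
  rw [r1, r2]
  nlinarith [h3]

end Pool.Agent.T5h70.NH.AE0
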