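import Pool.Agent.T5h70.NH.Stm

/-! Task AN (helper39). -/

open Matrix MeasureTheory
open scoped BigOperators ComplexConjugate ComplexOrder

namespace Pool.Agent.T5h70.NH.AN

theorem vd_eq {R : Type*} [CommRing R] {d : ℕ} (x : Fin d → R) :
    vd x = (Matrix.vandermonde fun i => - x i).det := by
  rw [Matrix.det_vandermonde]
  unfold vd
  apply Finset.prod_congr rfl
  intro i _
  have : Finset.univ.filter (fun j => i < j) = Finset.Ioi i := by
    ext j; simp
  rw [this]
  apply Finset.prod_congr rfl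
  intro j _
  ring

theorem vd_perm {R : Type*} [CommRing R] {d : ℕ} (x : Fin d → R) (σ : Equiv.Perm (Fin d)) :
    vd (fun i => x (σ i)) = ((Equiv.Perm.sign σ : ℤ) : R) * vd x := by
  rw [vd_eq, vd_eq, ← Matrix.det_permute]
  rfl

theorem al_perm {d : ℕ} (x : Fin d → ℝ) (l : Fin d → ℕ) (σ : Equiv.Perm (Fin d)) :
    al x (fun i => l (σ i)) = ((Equiv.Perm.sign σ : ℤ) : ℝ) * al x l := by
  unfold al
  rw [← Matrix.det_permute']
  rfl

/-- a permutation which maps `0, 1` to `i, k` -/
theorem exists_perm {n : ℕ} {i k : Fin (n + 2)} (h : i ≠ k) :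
    ∃ σ : Equiv.Perm (Fin (n + 2)), σ 0 = i ∧ σ 1 = k := by
  have h01 : (0 : Fin (n + 2)) ≠ 1 := by simp
  set τ := Equiv.swap 0 i with hτ
  refine ⟨(Equiv.swap 1 (τ.symm k)).trans τ, ?_, ?_⟩
  · rw [Equiv.trans_apply, Equiv.swap_apply_of_ne_of_ne h01, hτ, Equiv.swap_apply_left]
    intro h0
    have : τ 0 = k := by rw [h0, Equiv.apply_symm_apply]
    rw [hτ, Equiv.swap_apply_left] at this
    exact h this
  · rw [Equiv.trans_apply, Equiv.swap_apply_left, Equiv.apply_symm_apply]

theorem t_AN (d : ℕ) (h : AE) : AN d := by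
  intro x m i k hx hpos hmk
  have hik : i ≠ k := by rintro rfl; exact lt_irrefl _ hmk
  -- d = n + 2
  obtain ⟨n, rfl⟩ : ∃ n, d = n + 2 := by
    have hi := i.2
    have hk := k.2
    have : (i : ℕ) ≠ k := fun h => hik (Fin.ext h)
    exact ⟨d - 2, by omega⟩
  obtain ⟨σ, h0, h1⟩ := exists_perm hik
  set z : Fin (n + 2) → ℝ := fun a => Real.log (x a) with hz
  have hz' : StrictAnti z := fun a b hab => Real.log_lt_log (hpos b) (hx hab)
  set M : Fin (n + 2) → ℤ := fun j => (m (σ j) : ℤ) with hM
  have hM10 : M 1 < M 0 := by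
    simp only [hM, h0, h1]
    exact_mod_cast hmk
  have key := h n z M hz' hM10
  -- translate
  have hup0 : ∀ j, Function.update M 0 (M 0 + 1) j =
      ((Function.update m i (m i + 1) (σ j) : ℕ) : ℤ) := by
    intro j
    by_cases hj : j = 0
    · subst hj
      rw [Function.update_self, h0, Function.update_self]
      simp only [hM, h0]
      push_cast
      rfl
    · rw [Function.update_of_ne hj, Function.update_of_ne]
      rw [← h0]
      exact fun hcon => hj (σ.injective hcon)
  have hup1 : ∀ j, Function.update M 1 (M 1 + 1) j =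
      ((Function.update m k (m k + 1) (σ j) : ℕ) : ℤ) := by
    intro j
    by_cases hj : j = 1
    · subst hj
      rw [Function.update_self, h1, Function.update_self]
      simp only [hM, h1]
      push_cast
      rfl
    · rw [Function.update_of_ne hj, Function.update_of_ne]
      rw [← h1]
      exact fun hcon => hj (σ.injective hcon)
  have hal : ∀ l : Fin (n + 2) → ℕ,
      (Matrix.of fun i j => Real.exp (z i * (((l (σ j) : ℕ) : ℤ) : ℝ))).det =
        ((Equiv.Perm.sign σ : ℤ) : ℝ) * al x l := by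
    intro l
    rw [← al_perm]
    unfold al
    congr 1
    ext a b
    simp only [Matrix.of_apply, hz]
    rw [Int.cast_natCast, mul_comm, Real.exp_nat_mul, Real.exp_log (hpos a)]
  have hvn : ∀ l : Fin (n + 2) → ℕ,
      vd (fun j => (((l (σ j) : ℕ) : ℤ) : ℝ)) = ((Equiv.Perm.sign σ : ℤ) : ℝ) * vn ℝ l := by
    intro l
    unfold vn
    rw [← vd_perm]
    simp only [Int.cast_natCast]
  simp only [hup0, hup1] at key
  rw [hal, hal, hvn, hvn] at key
  have hs : ((Equiv.Perm.sign σ : ℤ) : ℝ) * ((Equiv.Perm.sign σ : ℤ) : ℝ) = 1 := by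
    rcases Int.units_eq_one_or (Equiv.Perm.sign σ) with h2 | h2 <;> rw [h2] <;> norm_num
  calc al x (Function.update m k (m k + 1)) * vn ℝ (Function.update m i (m i + 1))
      = (((Equiv.Perm.sign σ : ℤ) : ℝ) * ((Equiv.Perm.sign σ : ℤ) : ℝ)) *
        (al x (Function.update m k (m k + 1)) * vn ℝ (Function.update m i (m i + 1))) := by
        rw [hs, one_mul]
    _ ≤ (((Equiv.Perm.sign σ : ℤ) : ℝ) * ((Equiv.Perm.sign σ : ℤ) : ℝ)) *
        (al x (Function.update m i (m i + 1)) * vn ℝ (Function.update m k (m k + 1))) := by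
        calc _ = ((Equiv.Perm.sign σ : ℤ) : ℝ) * al x (Function.update m k (m k + 1)) *
              (((Equiv.Perm.sign σ : ℤ) : ℝ) * vn ℝ (Function.update m i (m i + 1))) := by ring
          _ ≤ _ := key
          _ = _ := by ring
    _ = _ := by rw [hs, one_mul]

end Pool.Agent.T5h70.NH.AN
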