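import Pool.Agent.T5h70.NH.Stm

/-! Task BASE: the expansion of `Δ(X)`. -/

set_option autoImplicit false

open scoped BigOperators

namespace Pool.Agent.T5h70.NH.BASE

/-- the sign -/
def sg (R : Type*) [CommRing R] (d : ℕ) : R :=
  ∏ i : Fin d, ∏ _j ∈ Finset.univ.filter (fun j => i < j), (-1 : R)

theorem vd_eq {R : Type*} [CommRing R] {d : ℕ} (x : Fin d → R) :
    vd x = sg R d * (Matrix.vandermonde x).det := by
  rw [Matrix.det_vandermonde]
  unfold vd sg
  rw [← Finset.prod_mul_distrib]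
  refine Finset.prod_congr rfl fun i _ => ?_
  have h : Finset.Ioi i = Finset.univ.filter (fun j => i < j) := by
    ext j
    simp
  rw [h, ← Finset.prod_mul_distrib]
  exact Finset.prod_congr rfl fun j _ => by ring

theorem det_id (d : ℕ) : (Matrix.vandermonde fun i : Fin d => ((i : ℕ) : ℂ)).det =
    ∏ j : Fin d, ((j : ℕ).factorial : ℂ) := by
  cases d with
  | zero => simp
  | succ n =>
    rw [Matrix.det_vandermonde_id_eq_superFactorial, ← Nat.prod_range_succ_factorial,
      Fin.prod_univ_eq_prod_range (fun i => ((i.factorial : ℕ) : ℂ)) (n + 1)]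
    push_cast
    rfl

/-- the exponents of a permutation -/
def ph {d : ℕ} (σ : Equiv.Perm (Fin d)) : Fin d → ℕ := fun i => (σ i : ℕ)

theorem coeff_eq {d : ℕ} (σ : Equiv.Perm (Fin d)) :
    (∏ j : Fin d, ((j : ℕ).factorial : ℂ)) * vn ℂ (ph σ) / (∏ i, ((ph σ i).factorial : ℂ)) ^ 2 =
      sg ℂ d * ((Equiv.Perm.sign σ : ℤ) : ℂ) := by
  have h1 : vn ℂ (ph σ) = sg ℂ d * (((Equiv.Perm.sign σ : ℤ) : ℂ) *
      ∏ j : Fin d, ((j : ℕ).factorial : ℂ)) := by
    unfold vn
    rw [vd_eq]
    have h2 : (Matrix.vandermonde fun i => ((ph σ i : ℕ) : ℂ)) =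
        (Matrix.vandermonde fun i : Fin d => ((i : ℕ) : ℂ)).submatrix σ id := by
      ext i j
      rfl
    rw [h2, Matrix.det_permute, det_id]
  have h3 : ∏ i, ((ph σ i).factorial : ℂ) = ∏ j : Fin d, ((j : ℕ).factorial : ℂ) :=
    Equiv.prod_comp σ fun j : Fin d => ((j : ℕ).factorial : ℂ)
  rw [h1, h3]
  have h4 : ∏ j : Fin d, ((j : ℕ).factorial : ℂ) ≠ 0 :=
    Finset.prod_ne_zero_iff.2 fun j _ => Nat.cast_ne_zero.2 (Nat.factorial_ne_zero _)
  field_simp

theorem ph_inj {d : ℕ} : Function.Injective (ph : Equiv.Perm (Fin d) → Fin d → ℕ) := by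
  intro σ τ h
  ext i
  exact congrFun h i

theorem sum_ph {d : ℕ} (σ : Equiv.Perm (Fin d)) : ∑ i, ph σ i = d * (d - 1) / 2 := by
  have h1 : ∑ i, ph σ i = ∑ i : Fin d, (i : ℕ) := Equiv.sum_comp σ fun i : Fin d => (i : ℕ)
  rw [h1, Fin.sum_univ_eq_sum_range (fun i => i) d, Finset.sum_range_id]

theorem vn_zero {d : ℕ} {l : Fin d → ℕ} (hl : ¬ Function.Injective l) : vn ℂ l = 0 := by
  unfold vn
  rw [vd_eq]
  have h : (Matrix.vandermonde fun i => ((l i : ℕ) : ℂ)).det = 0 := by
    by_contra h0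
    have h1 := Matrix.det_vandermonde_ne_zero_iff.1 h0
    exact hl fun i j hij => h1 (by simp only [hij])
  rw [h, mul_zero]

theorem exists_ph {d : ℕ} {l : Fin d → ℕ} (hl : Function.Injective l)
    (hs : ∑ i, l i = d * (d - 1) / 2) : ∃ σ : Equiv.Perm (Fin d), ph σ = l := by
  classical
  let S : Finset ℕ := Finset.univ.image l
  have hSc : S.card = (Finset.range d).card := by
    rw [Finset.card_image_of_injective _ hl, Finset.card_univ, Fintype.card_fin,
      Finset.card_range]
  have hSs : ∑ s ∈ S, s = ∑ s ∈ Finset.range d, s := by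
    rw [Finset.sum_image (fun i _ j _ h => hl h), hs, Finset.sum_range_id]
  have h1 : (S \ Finset.range d).card = (Finset.range d \ S).card :=
    Finset.card_sdiff_comm hSc
  have h2 : ∑ s ∈ S \ Finset.range d, s = ∑ s ∈ Finset.range d \ S, s := by
    have h3 := Finset.sum_inter_add_sum_sdiff S (Finset.range d) (fun s => s)
    have h4 := Finset.sum_inter_add_sum_sdiff (Finset.range d) S (fun s => s)
    rw [Finset.inter_comm] at h4
    omega
  have h5 : (S \ Finset.range d).card * d ≤ ∑ s ∈ S \ Finset.range d, s := by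
    have := Finset.card_nsmul_le_sum (S \ Finset.range d) (fun s => s) d (by
      intro s hs
      rw [Finset.mem_sdiff, Finset.mem_range] at hs
      show d ≤ s
      omega)
    simpa using this
  have h6 : ∑ s ∈ Finset.range d \ S, s ≤ (Finset.range d \ S).card * (d - 1) := by
    have := Finset.sum_le_card_nsmul (Finset.range d \ S) (fun s => s) (d - 1) (by
      intro s hs
      rw [Finset.mem_sdiff, Finset.mem_range] at hs
      show s ≤ d - 1
      omega)
    simpa using this
  have h7 : (S \ Finset.range d).card = 0 := by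
    by_contra h0
    have h8 : 0 < (S \ Finset.range d).card := Nat.pos_of_ne_zero h0
    rcases Nat.eq_zero_or_pos d with hd | hd
    · have : S.card = 0 := by rw [hSc, Finset.card_range, hd]
      have h9 : (S \ Finset.range d).card ≤ S.card := Finset.card_le_card Finset.sdiff_subset
      omega
    · rw [← h1, ← h2] at h6
      have h10 := h5.trans h6
      have h11 : (S \ Finset.range d).card * (d - 1) < (S \ Finset.range d).card * d :=
        Nat.mul_lt_mul_of_pos_left (by omega) h8
      omega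
  have h12 : S ⊆ Finset.range d := by
    rw [← Finset.sdiff_eq_empty_iff_subset]
    exact Finset.card_eq_zero.1 h7
  have h13 : ∀ i, l i < d := fun i =>
    Finset.mem_range.1 (h12 (Finset.mem_image_of_mem l (Finset.mem_univ i)))
  let f : Fin d → Fin d := fun i => ⟨l i, h13 i⟩
  have hf : Function.Injective f := fun i j h => hl (congrArg Fin.val h)
  refine ⟨Equiv.ofBijective f (Finite.injective_iff_bijective.1 hf), ?_⟩
  funext i
  rfl

open MvPolynomial in
theorem t_BASE (d : ℕ) : BASE d := by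
  classical
  unfold BASE
  have hR : ∑ l ∈ Finset.piAntidiag Finset.univ (d * (d - 1) / 2),
      C ((∏ j : Fin d, ((j : ℕ).factorial : ℂ)) * vn ℂ l / (∏ i, ((l i).factorial : ℂ)) ^ 2) *
        ∏ i, (X i : MvPolynomial (Fin d) ℂ) ^ l i =
      ∑ l ∈ Finset.univ.image (ph : Equiv.Perm (Fin d) → Fin d → ℕ),
      C ((∏ j : Fin d, ((j : ℕ).factorial : ℂ)) * vn ℂ l / (∏ i, ((l i).factorial : ℂ)) ^ 2) *
        ∏ i, (X i : MvPolynomial (Fin d) ℂ) ^ l i := by
    symm
    refine Finset.sum_subset ?_ fun l hl hl' => ?_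
    · intro l hl
      obtain ⟨σ, -, rfl⟩ := Finset.mem_image.1 hl
      rw [Finset.mem_piAntidiag]
      exact ⟨sum_ph σ, fun i _ => Finset.mem_univ i⟩
    · have h1 : ¬ Function.Injective l := by
        intro hi
        rw [Finset.mem_piAntidiag] at hl
        obtain ⟨σ, hσ⟩ := exists_ph hi hl.1
        exact hl' (Finset.mem_image.2 ⟨σ, Finset.mem_univ _, hσ⟩)
      rw [vn_zero h1, mul_zero, zero_div, C_0, zero_mul]
  rw [hR, Finset.sum_image fun σ _ τ _ h => ph_inj h, vd_eq, ← Matrix.det_transpose,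
    Matrix.det_apply', Finset.mul_sum]
  refine Finset.sum_congr rfl fun σ _ => ?_
  rw [coeff_eq, C_mul]
  have h1 : (C (sg ℂ d) : MvPolynomial (Fin d) ℂ) = sg (MvPolynomial (Fin d) ℂ) d := by
    unfold sg
    simp only [map_prod, map_neg, map_one]
  have h2 : (C (((Equiv.Perm.sign σ : ℤ) : ℂ)) : MvPolynomial (Fin d) ℂ) =
      ((Equiv.Perm.sign σ : ℤ) : MvPolynomial (Fin d) ℂ) := by
    rw [map_intCast]
  rw [h1, h2, mul_assoc]
  rfl

end Pool.Agent.T5h70.NH.BASE
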