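import Pool.Agent.T5h70.NH.Stm

/-! Task BR: the branching formula. -/

set_option autoImplicit false

open Matrix MeasureTheory
open scoped BigOperators

namespace Pool.Agent.T5h70.NH.BR

theorem det_diff {n : ℕ} (A : Matrix (Fin (n + 1)) (Fin (n + 1)) ℝ)
    (hA : ∀ i, A i (Fin.last n) = 1) :
    A.det = (Matrix.of fun i j : Fin n =>
      A i.castSucc j.castSucc - A i.succ j.castSucc).det := by
  let B : Matrix (Fin (n + 1)) (Fin (n + 1)) ℝ := Matrix.of fun i j =>
    Fin.cases (A 0 j) (fun i : Fin n => A i.succ j - A i.castSucc j) i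
  have hB0 : ∀ j, B 0 j = A 0 j := fun j => rfl
  have hBs : ∀ (i : Fin n) j, B i.succ j = A i.succ j - A i.castSucc j := fun i j => rfl
  have h1 : A.det = B.det := by
    refine det_eq_of_forall_row_eq_smul_add_pred (fun _ => (1 : ℝ)) (fun j => (hB0 j).symm)
      fun i j => ?_
    rw [hBs]
    ring
  rw [h1, det_succ_column B (Fin.last n), Fin.sum_univ_succ]
  have h2 : ∑ i : Fin n, (-1 : ℝ) ^ ((i.succ : Fin (n + 1)) + (Fin.last n : Fin (n + 1)) : ℕ) *
      B i.succ (Fin.last n) * det (B.submatrix i.succ.succAbove (Fin.last n).succAbove) = 0 := by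
    refine Finset.sum_eq_zero fun i _ => ?_
    rw [hBs, hA, hA, sub_self, mul_zero, zero_mul]
  rw [h2, add_zero, hB0, hA, mul_one]
  have h3 : B.submatrix (Fin.succAbove 0) (Fin.last n).succAbove =
      -(Matrix.of fun i j : Fin n => A i.castSucc j.castSucc - A i.succ j.castSucc) := by
    ext i j
    rw [submatrix_apply, Fin.succAbove_zero, Fin.succAbove_last, hBs, neg_apply, of_apply]
    ring
  rw [h3, det_neg, Fintype.card_fin]
  have h4 : ((0 : Fin (n + 1)) : ℕ) + ((Fin.last n : Fin (n + 1)) : ℕ) = n := by simp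
  rw [h4, ← mul_assoc, ← mul_pow]
  norm_num

theorem exp_diff (q a b : ℝ) (hab : a ≤ b) :
    Real.exp (b * q) - Real.exp (a * q) = q * ∫ ζ in Set.Ioc a b, Real.exp (ζ * q) := by
  rw [← intervalIntegral.integral_of_le hab]
  have h1 : ∀ x ∈ Set.uIcc a b, HasDerivAt (fun ζ : ℝ => Real.exp (ζ * q))
      (q * Real.exp (x * q)) x := by
    intro x _
    have := ((hasDerivAt_id x).mul_const q).exp
    simpa [mul_comm] using this
  have h2 := intervalIntegral.integral_eq_sub_of_hasDerivAt h1
    (by fun_prop : Continuous fun x : ℝ => q * Real.exp (x * q)).continuousOn.intervalIntegrable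
  rw [← h2, intervalIntegral.integral_const_mul]

theorem int_det {n : ℕ} (a b q : Fin n → ℝ) :
    (∫ ζ in Set.pi Set.univ (fun i : Fin n => Set.Ioc (a i) (b i)),
      (Matrix.of fun i j : Fin n => Real.exp (ζ i * q j)).det) =
    (Matrix.of fun i j : Fin n => ∫ ζ in Set.Ioc (a i) (b i), Real.exp (ζ * q j)).det := by
  rw [volume_pi, Measure.restrict_pi_pi]
  have h1 : ∀ ζ : Fin n → ℝ, (Matrix.of fun i j : Fin n => Real.exp (ζ i * q j)).det =
      ∑ σ : Equiv.Perm (Fin n), ((Equiv.Perm.sign σ : ℤ) : ℝ) *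
        ∏ i, Real.exp (ζ i * q (σ i)) := by
    intro ζ
    rw [← det_transpose, det_apply']
    rfl
  have h2 : (Matrix.of fun i j : Fin n => ∫ ζ in Set.Ioc (a i) (b i), Real.exp (ζ * q j)).det =
      ∑ σ : Equiv.Perm (Fin n), ((Equiv.Perm.sign σ : ℤ) : ℝ) *
        ∏ i, ∫ ζ in Set.Ioc (a i) (b i), Real.exp (ζ * q (σ i)) := by
    rw [← det_transpose, det_apply']
    rfl
  simp only [h1]
  rw [h2, integral_finset_sum]
  · refine Finset.sum_congr rfl fun σ _ => ?_
    rw [integral_const_mul]
    congr 1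
    exact integral_fintype_prod_eq_prod (fun i (x : ℝ) => Real.exp (x * q (σ i)))
  · intro σ _
    refine Integrable.const_mul ?_ _
    refine Integrable.fintype_prod (f := fun i (x : ℝ) => Real.exp (x * q (σ i))) fun i => ?_
    exact ((by fun_prop : Continuous fun x : ℝ => Real.exp (x * q (σ i))).integrableOn_Ioc)

theorem t_BR : BR := by
  intro n z m hz
  set p := m (Fin.last n) with hp
  have h1 : (Matrix.of fun i j => Real.exp (z i * m j)).det =
      Real.exp (p * ∑ i, z i) * (Matrix.of fun i j => Real.exp (z i * (m j - p))).det := by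
    rw [Finset.mul_sum, Real.exp_sum, ← det_mul_column]
    congr 1
    ext i j
    rw [of_apply, of_apply, of_apply, ← Real.exp_add]
    congr 1
    ring
  have h2 : (Matrix.of fun i j : Fin (n + 1) => Real.exp (z i * (m j - p))).det =
      (Matrix.of fun i j : Fin n => (m j.castSucc - p) *
        (Matrix.of fun i j : Fin n => ∫ ζ in Set.Ioc (z i.succ) (z i.castSucc),
          Real.exp (ζ * (m j.castSucc - p))) i j).det := by
    rw [det_diff _ (fun i => by rw [of_apply, ← hp, sub_self, mul_zero, Real.exp_zero])]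
    congr 1
    ext i j
    simp only [of_apply]
    exact exp_diff _ _ _ (hz (Fin.castSucc_le_succ i))
  rw [h1, h2, det_mul_row, ← int_det, mul_assoc]

end Pool.Agent.T5h70.NH.BR
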