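import Pool.Agent.T5h70.NH.Stm

/-! Task CONJ (helper39). -/

set_option linter.style.haveILetI false

open Matrix MeasureTheory
open scoped BigOperators ComplexConjugate ComplexOrder

namespace Pool.Agent.T5h70.NH.CONJT

open MvPolynomial

variable {d : ℕ}

/-- the Euler derivations -/
noncomputable def D (i : Fin d) :
    Derivation ℂ (MvPolynomial (Fin d) ℂ) (MvPolynomial (Fin d) ℂ) :=
  (X i : MvPolynomial (Fin d) ℂ) • pderiv i

theorem D_apply (i : Fin d) (f : MvPolynomial (Fin d) ℂ) : D i f = X i * pderiv i f := rfl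

theorem D_mul (i : Fin d) (f g : MvPolynomial (Fin d) ℂ) :
    D i (f * g) = f * D i g + g * D i f := by
  have := (D i).leibniz f g
  simpa only [smul_eq_mul] using this

theorem D_X (i a : Fin d) : D i (X a) = if a = i then X a else 0 := by
  rw [D_apply, pderiv_X, Pi.single_apply]
  split_ifs with h
  · rw [h, mul_one]
  · rw [mul_zero]

/-- products of eigenvectors -/
theorem D_prod (i : Fin d) {ι : Type} (s : Finset ι) (f : ι → MvPolynomial (Fin d) ℂ) (c : ι → ℂ)
    (h : ∀ a ∈ s, D i (f a) = C (c a) * f a) :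
    D i (∏ a ∈ s, f a) = C (∑ a ∈ s, c a) * ∏ a ∈ s, f a := by
  classical
  induction s using Finset.induction_on with
  | empty => simp
  | insert a s ha ih =>
    rw [Finset.prod_insert ha, Finset.sum_insert ha, D_mul,
      ih (fun b hb => h b (Finset.mem_insert_of_mem hb)), h a (Finset.mem_insert_self a s), C_add]
    ring

/-- the derivative of a product -/
theorem D_prod' (i : Fin d) {ι : Type} [DecidableEq ι] (s : Finset ι)
    (f : ι → MvPolynomial (Fin d) ℂ) :
    D i (∏ a ∈ s, f a) = ∑ a ∈ s, (∏ b ∈ s.erase a, f b) * D i (f a) := by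
  induction s using Finset.induction_on with
  | empty => simp
  | insert a s ha ih =>
    rw [Finset.prod_insert ha, D_mul, ih, Finset.sum_insert ha, Finset.erase_insert ha, add_comm,
      Finset.mul_sum]
    congr 1
    apply Finset.sum_congr rfl
    intro b hb
    have hba : b ≠ a := fun h => ha (h ▸ hb)
    rw [Finset.erase_insert_of_ne hba.symm, Finset.prod_insert
      (fun h => ha (Finset.mem_of_mem_erase h))]
    ring

theorem D_pow (i a : Fin d) (n : ℕ) :
    D i ((-X a) ^ n) = C (if a = i then (n : ℂ) else 0) * (-X a) ^ n := by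
  have h := D_prod i (Finset.range n) (fun _ => (-X a : MvPolynomial (Fin d) ℂ))
    (fun _ => if a = i then (1 : ℂ) else 0) (by
      intro b _
      rw [map_neg, D_X]
      split_ifs with h
      · rw [C_1, one_mul]
      · rw [C_0, zero_mul, neg_zero])
  rw [Finset.prod_const, Finset.card_range] at h
  rw [h]
  congr 2
  rw [Finset.sum_const, Finset.card_range]
  split_ifs with h
  · simp
  · simp

theorem vd_eq {R : Type*} [CommRing R] (x : Fin d → R) :
    vd x = (Matrix.vandermonde fun i => - x i).det := by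
  rw [Matrix.det_vandermonde]
  unfold vd
  apply Finset.prod_congr rfl
  intro i _
  have : Finset.univ.filter (fun j => i < j) = Finset.Ioi i := by
    ext j; simp
  rw [this]
  apply Finset.prod_congr rfl
  intro j _
  ring

/-- the Vandermonde determinant in the variables -/
noncomputable def DX (d : ℕ) : MvPolynomial (Fin d) ℂ :=
  vd (fun i => (X i : MvPolynomial (Fin d) ℂ))

theorem DX_det : DX d = ∑ σ : Equiv.Perm (Fin d), ((Equiv.Perm.sign σ : ℤ) : MvPolynomial (Fin d) ℂ) *
    ∏ i, (-X (σ i)) ^ (i : ℕ) := by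
  rw [DX, vd_eq, Matrix.det_apply']
  simp only [Matrix.vandermonde_apply]

theorem D_int (i : Fin d) (n : ℤ) (f : MvPolynomial (Fin d) ℂ) :
    D i ((n : MvPolynomial (Fin d) ℂ) * f) = n * D i f := by
  rw [← zsmul_eq_mul, map_zsmul, zsmul_eq_mul]

theorem D_monom (k : Fin d) (σ : Equiv.Perm (Fin d)) :
    D k (∏ i, (-X (σ i)) ^ (i : ℕ)) = C (((σ.symm k : Fin d) : ℕ) : ℂ) *
      ∏ i : Fin d, (-X (σ i)) ^ (i : ℕ) := by
  rw [D_prod k Finset.univ _ (fun i => if σ i = k then ((i : ℕ) : ℂ) else 0)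
    (fun a _ => D_pow k (σ a) a)]
  congr 2
  have : ∀ i : Fin d, (if σ i = k then ((i : ℕ) : ℂ) else 0) =
      if i = σ.symm k then ((i : ℕ) : ℂ) else 0 := by
    intro i
    have : σ i = k ↔ i = σ.symm k := by
      rw [Equiv.eq_symm_apply]
    simp only [this]
  simp only [this]
  rw [Finset.sum_ite_eq' Finset.univ (σ.symm k) (fun i : Fin d => ((i : ℕ) : ℂ))]
  simp

theorem sum_DD : ∑ k, D k (D k (DX d)) = C (∑ j : Fin d, ((j : ℕ) : ℂ) ^ 2) * DX d := by
  rw [DX_det]
  simp only [map_sum, D_int, D_monom]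
  have h1 : ∀ (k : Fin d) (σ : Equiv.Perm (Fin d)),
      D k (C (((σ.symm k : Fin d) : ℕ) : ℂ) * ∏ i : Fin d, (-X (σ i)) ^ (i : ℕ)) =
        C ((((σ.symm k : Fin d) : ℕ) : ℂ) ^ 2) *
          ∏ i : Fin d, (-X (σ i) : MvPolynomial (Fin d) ℂ) ^ (i : ℕ) := by
    intro k σ
    rw [D_mul, D_monom, D_apply k (C _), pderiv_C, mul_zero, mul_zero, add_zero, ← mul_assoc,
      ← C_mul, sq]
  simp only [h1]
  rw [Finset.sum_comm, Finset.mul_sum]
  apply Finset.sum_congr rfl
  intro σ _
  rw [← Finset.mul_sum, ← Finset.sum_mul]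
  have h2 : ∑ k : Fin d, C ((((σ.symm k : Fin d) : ℕ) : ℂ) ^ 2) =
      (C (∑ j : Fin d, ((j : ℕ) : ℂ) ^ 2) : MvPolynomial (Fin d) ℂ) := by
    rw [map_sum]
    exact Equiv.sum_comp σ.symm (fun j : Fin d => (C (((j : ℕ) : ℂ) ^ 2) : MvPolynomial (Fin d) ℂ))
  rw [h2]
  simp only [map_sum]
  ring

/-- the pairs -/
def Pr (d : ℕ) : Finset (Fin d × Fin d) := Finset.univ.filter fun e => e.1 < e.2

theorem DX_prod : DX d = ∏ e ∈ Pr d, (X e.1 - X e.2) := by
  unfold DX vd Pr
  rw [Finset.prod_filter, Fintype.prod_prod_type]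
  apply Finset.prod_congr rfl
  intro i _
  rw [Finset.prod_filter]

theorem sum_two {M : Type*} [AddCommGroup M] (F : Fin d → Fin d → M) (hF : ∀ a b, F a b = F b a) :
    ∑ e ∈ Pr d, F e.1 e.2 + ∑ e ∈ Pr d, F e.1 e.2 = ∑ a, ∑ b, F a b - ∑ a, F a a := by
  have h1 : ∑ e ∈ Pr d, F e.1 e.2 = ∑ a, ∑ b, if a < b then F a b else 0 := by
    unfold Pr
    rw [Finset.sum_filter, Fintype.sum_prod_type]
  have h2 : ∑ a, ∑ b, (if a < b then F a b else 0) = ∑ a, ∑ b, if b < a then F a b else 0 := by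
    rw [Finset.sum_comm]
    apply Finset.sum_congr rfl
    intro b _
    apply Finset.sum_congr rfl
    intro a _
    rw [hF a b]
  have h3 : ∑ a, F a a = ∑ a, ∑ b, if a = b then F a b else 0 := by
    apply Finset.sum_congr rfl
    intro a _
    rw [Finset.sum_ite_eq]
    simp
  rw [h1]
  conv_lhs => rw [← h1, h1]
  nth_rewrite 2 [h2]
  rw [h3, ← Finset.sum_add_distrib, ← Finset.sum_sub_distrib]
  apply Finset.sum_congr rfl
  intro a _
  rw [← Finset.sum_add_distrib, ← Finset.sum_sub_distrib]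
  apply Finset.sum_congr rfl
  intro b _
  rcases lt_trichotomy a b with h | h | h
  · rw [if_pos h, if_neg (not_lt.2 h.le), if_neg h.ne]; simp
  · rw [if_neg (by rw [h]; exact lt_irrefl _), if_neg (by rw [h]; exact lt_irrefl _), if_pos h]; simp
  · rw [if_neg (not_lt.2 h.le), if_pos h, if_neg h.ne']; simp

theorem t_CONJ (d : ℕ) : CONJ d := by
  intro t G Q hG hQs hQ hQd
  change ∑ i, X i * pderiv i (X i * pderiv i (DX d * G)) = DX d * _
  have hE : ∑ i, D i G = (t : MvPolynomial (Fin d) ℂ) * G := by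
    have := hG.sum_X_mul_pderiv
    rw [nsmul_eq_mul] at this
    exact this
  have hDD : ∀ i, D i (D i G) = D i G + X i * X i * Q i i := by
    intro i
    rw [hQd, D_apply, D_apply, pderiv_mul, pderiv_X_self]
    ring
  have hexp : ∀ i, D i (D i (DX d * G)) =
      G * D i (D i (DX d)) + (D i (DX d) * D i G + D i (DX d) * D i G) + DX d * D i (D i G) := by
    intro i
    rw [D_mul, map_add, D_mul, D_mul]
    ring
  have hcross : ∑ i, D i (DX d) * D i G =
      ∑ e ∈ Pr d, DX d * (D e.1 G + D e.2 G + X e.1 * X e.2 * Q e.1 e.2) := by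
    have h1 : ∀ i, D i (DX d) * D i G = ∑ e ∈ Pr d, (∏ e' ∈ (Pr d).erase e, (X e'.1 - X e'.2)) *
        (D i (X e.1 - X e.2) * D i G) := by
      intro i
      rw [DX_prod, D_prod', Finset.sum_mul]
      apply Finset.sum_congr rfl
      intro e _
      ring
    simp only [h1]
    rw [Finset.sum_comm]
    apply Finset.sum_congr rfl
    intro e he
    rw [← Finset.mul_sum]
    have h2 : ∑ i, D i (X e.1 - X e.2) * D i G = X e.1 * D e.1 G - X e.2 * D e.2 G := by
      have h3 : ∀ i, D i (X e.1 - X e.2) * D i G =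
          (if e.1 = i then X e.1 * D i G else 0) - (if e.2 = i then X e.2 * D i G else 0) := by
        intro i
        rw [map_sub, D_X, D_X, sub_mul, ite_mul, ite_mul, zero_mul]
      simp only [h3]
      rw [Finset.sum_sub_distrib, Finset.sum_ite_eq, Finset.sum_ite_eq]
      simp
    rw [h2]
    have h4 : X e.1 * D e.1 G - X e.2 * D e.2 G =
        (X e.1 - X e.2) * (D e.1 G + D e.2 G + X e.1 * X e.2 * Q e.1 e.2) := by
      have := hQ e.1 e.2
      rw [D_apply, D_apply]
      linear_combination (-(X e.1 * X e.2 : MvPolynomial (Fin d) ℂ)) * this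
    rw [h4]
    have h5 : DX d = (X e.1 - X e.2) * ∏ e' ∈ (Pr d).erase e, (X e'.1 - X e'.2) := by
      rw [DX_prod, Finset.mul_prod_erase (Pr d)
        (fun e : Fin d × Fin d => (X e.1 - X e.2 : MvPolynomial (Fin d) ℂ)) he]
    rw [h5]
    ring
  have hF := sum_two (fun a b => DX d * (D a G + D b G + X a * X b * Q a b)) (by
    intro a b
    rw [hQs a b]
    ring)
  have hFsum : ∑ a, ∑ b, DX d * (D a G + D b G + X a * X b * Q a b) =
      DX d * ((d : MvPolynomial (Fin d) ℂ) * (t * G) + d * (t * G) +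
        ∑ a, ∑ b, X a * X b * Q a b) := by
    simp only [← Finset.mul_sum, Finset.sum_add_distrib, hE, Finset.sum_const, Finset.card_univ,
      Fintype.card_fin, nsmul_eq_mul]
    ring
  have hFdiag : ∑ a, DX d * (D a G + D a G + X a * X a * Q a a) =
      DX d * (t * G + t * G + ∑ a, X a * X a * Q a a) := by
    simp only [← Finset.mul_sum, Finset.sum_add_distrib, hE]
  rw [hFsum, hFdiag] at hF
  have hmain : ∑ i, D i (D i (DX d * G)) = DX d *
      (C (∑ j : Fin d, ((j : ℕ) : ℂ) ^ 2) * G) + (DX d * ((d : MvPolynomial (Fin d) ℂ) *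
        ((t : MvPolynomial (Fin d) ℂ) * G) +
        (d : MvPolynomial (Fin d) ℂ) * ((t : MvPolynomial (Fin d) ℂ) * G) +
        ∑ a, ∑ b, X a * X b * Q a b) -
        DX d * ((t : MvPolynomial (Fin d) ℂ) * G + (t : MvPolynomial (Fin d) ℂ) * G +
          ∑ a, X a * X a * Q a a)) +
        DX d * ((t : MvPolynomial (Fin d) ℂ) * G + ∑ a, X a * X a * Q a a) := by
    have hfirst : ∑ i, G * D i (D i (DX d)) =
        G * (C (∑ j : Fin d, ((j : ℕ) : ℂ) ^ 2) * DX d) := by
      rw [← Finset.mul_sum, sum_DD]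
    have hlast : ∑ i, DX d * D i (D i G) =
        DX d * ((t : MvPolynomial (Fin d) ℂ) * G + ∑ a, X a * X a * Q a a) := by
      simp only [hDD, ← Finset.mul_sum, Finset.sum_add_distrib, hE]
    rw [← hF]
    simp only [hexp, Finset.sum_add_distrib]
    rw [hfirst, hlast, hcross]
    ring
  have hlhs : ∑ i, X i * pderiv i (X i * pderiv i (DX d * G)) = ∑ i, D i (D i (DX d * G)) := rfl
  rw [hlhs, hmain]
  simp only [C_add, C_mul, C_sub, C_1, map_natCast]
  have hC2 : (C (2 : ℂ) : MvPolynomial (Fin d) ℂ) = 2 := by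
    rw [show (2 : ℂ) = 1 + 1 by norm_num, C_add, C_1]; norm_num
  rw [hC2]
  ring

end Pool.Agent.T5h70.NH.CONJT

namespace Pool.Agent.T5h70.NH.CONJ

theorem t_CONJ (d : ℕ) : Pool.Agent.T5h70.NH.CONJ d := CONJT.t_CONJ d

end Pool.Agent.T5h70.NH.CONJ
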