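import Pool.Agent.T5h70.NH.Stm

open Matrix MeasureTheory
open scoped BigOperators ComplexConjugate ComplexOrder

namespace Pool.Agent.T5h70.NH.FAM

open Pool.Agent.V11219.MomentOp Pool.Agent.T5h70.NH

theorem int_d (d t : ℕ) (i : Fin d) (x : Fin d → ℂ) : Integrable (fun V : UU (Fin d) =>
    (V : Mat d) i i * (∑ k, x k * (V : Mat d) k k) ^ (t - 1) * (conj (trace (V : Mat d))) ^ t)
    (haarU (Fin d)) := by
  apply integrable_of_cont
  have h : ∀ k l : Fin d, Continuous fun V : UU (Fin d) => (V : Mat d) k l := fun k l =>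
    (continuous_apply l).comp ((continuous_apply k).comp continuous_subtype_val)
  have ht : Continuous fun V : UU (Fin d) => trace (V : Mat d) :=
    continuous_finsetSum _ fun k _ => h k k
  exact ((h i i).mul ((continuous_finsetSum _ fun k _ => continuous_const.mul (h k k)).pow _)).mul
    ((Complex.continuous_conj.comp ht).pow _)

theorem t_FAM (d : ℕ) (h1 : SD1 d) (h2 : SD2 d) (h3 : FE d) (h4 : FS d) (h5 : FD d) : FamStm d := by
  obtain ⟨e1, e2, e3, e4⟩ := h3
  obtain ⟨f1, f2⟩ := h5
  refine ⟨e3, e4, h4, ?_, ?_, ?_, ?_⟩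
  · intro t i j
    apply MvPolynomial.funext
    intro x
    rw [e2, e2]
    congr 1
    unfold qI
    congr 1
    funext V
    ring
  · intro t i j
    apply MvPolynomial.funext
    intro x
    simp only [map_mul, map_sub, MvPolynomial.eval_X]
    rw [e2, f1, f1]
    rcases Nat.eq_zero_or_pos t with rfl | ht
    · simp
    · have h := h2 t x i j ht
      have h6 : (∫ V : UU (Fin d), ((V : Mat d) i i - (V : Mat d) j j) *
          (∑ k, x k * (V : Mat d) k k) ^ (t - 1) * (conj (trace (V : Mat d))) ^ t ∂(haarU (Fin d))) =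
          dI d t i x - dI d t j x := by
        unfold dI
        rw [← integral_sub (int_d d t i x) (int_d d t j x)]
        congr 1
        funext V
        ring
      rw [h6] at h
      linear_combination (t : ℂ) * h
  · intro t i
    apply MvPolynomial.funext
    intro x
    rw [e2, f2]
  · intro t ht
    apply MvPolynomial.funext
    intro x
    simp only [map_mul, map_add, map_sum, MvPolynomial.eval_X, MvPolynomial.eval_C, e1, e2]
    have h := h1 t x ht
    have h7 : ∑ i, ∑ j, x i * x j * ((t : ℂ) * (t - 1) * qI d t i j x) =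
        (t : ℂ) * (((t : ℂ) - 1) * ∑ i, ∑ j, x i * x j * qI d t i j x) := by
      simp only [Finset.mul_sum]
      refine Finset.sum_congr rfl fun i _ => Finset.sum_congr rfl fun j _ => ?_
      ring
    rw [h7]
    linear_combination (t : ℂ) * h

end Pool.Agent.T5h70.NH.FAM
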