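import Pool.Agent.T5h70.NH.Stm

/-! Task FD (helper39): values of the derivatives. -/

set_option linter.style.haveILetI false

open Matrix MeasureTheory
open scoped BigOperators ComplexConjugate ComplexOrder

namespace Pool.Agent.T5h70.NH.FDT

open Pool.Agent.V11219.MomentOp
open MvPolynomial

variable {d : ℕ}

theorem continuous_entry (i j : Fin d) : Continuous fun V : UU (Fin d) => (V : Mat d) i j :=
  (continuous_apply_apply i j).comp continuous_subtype_val

theorem continuous_trace' : Continuous fun V : UU (Fin d) => trace (V : Mat d) := by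
  simp only [Matrix.trace, Matrix.diag]
  exact continuous_finsetSum _ fun i _ => continuous_entry i i

/-- the polynomial of a unitary matrix -/
noncomputable def pV (t : ℕ) (V : Mat d) : MvPolynomial (Fin d) ℂ :=
  (∑ k, C (V k k) * X k) ^ t * C ((conj (trace V)) ^ t)

theorem pV_eq (t : ℕ) (V : Mat d) : pV t V = ∑ α ∈ Finset.piAntidiag Finset.univ t,
    C ((Nat.multinomial Finset.univ α : ℂ) * ((∏ k, V k k ^ α k) * (conj (trace V)) ^ t)) *
      ∏ k, X k ^ α k := by
  unfold pV
  rw [Finset.sum_pow_eq_sum_piAntidiag, Finset.sum_mul]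
  apply Finset.sum_congr rfl
  intro α _
  have : ∏ i, (C (V i i) * X i : MvPolynomial (Fin d) ℂ) ^ α i =
      C (∏ k, V k k ^ α k) * ∏ k, X k ^ α k := by
    simp only [mul_pow, Finset.prod_mul_distrib, map_prod, map_pow]
  rw [this]
  simp only [C_mul, map_natCast]
  ring

theorem L_GP (t : ℕ) (L : MvPolynomial (Fin d) ℂ →ₗ[ℂ] ℂ) :
    L (GP d t) = ∫ V : UU (Fin d), L (pV t (V : Mat d)) ∂(haarU (Fin d)) := by
  have h1 : ∀ V : UU (Fin d), L (pV t (V : Mat d)) = ∑ α ∈ Finset.piAntidiag Finset.univ t,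
      (Nat.multinomial Finset.univ α : ℂ) * L (∏ k, X k ^ α k) *
        ((∏ k, (V : Mat d) k k ^ α k) * (conj (trace (V : Mat d))) ^ t) := by
    intro V
    rw [pV_eq, map_sum]
    apply Finset.sum_congr rfl
    intro α _
    rw [MvPolynomial.C_mul', map_smul, smul_eq_mul]
    ring
  simp only [h1]
  rw [integral_finsetSum]
  · unfold GP
    rw [map_sum]
    apply Finset.sum_congr rfl
    intro α _
    rw [integral_const_mul, MvPolynomial.C_mul', map_smul, smul_eq_mul]
    unfold gcf
    ring
  · intro α _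
    apply Integrable.const_mul
    apply integrable_of_cont
    refine Continuous.mul ?_ ?_
    · exact continuous_finsetProd _ fun k _ => (continuous_entry k k).pow _
    · exact (Complex.continuous_conj.comp continuous_trace').pow _

theorem pderiv_lin (i : Fin d) (v : Fin d → ℂ) :
    pderiv i (∑ k, C (v k) * X k : MvPolynomial (Fin d) ℂ) = C (v i) := by
  rw [map_sum]
  have : ∀ k, pderiv i (C (v k) * X k : MvPolynomial (Fin d) ℂ) = if k = i then C (v k) else 0 := by
    intro k
    rw [pderiv_C_mul, pderiv_X, Pi.single_apply]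
    split_ifs with h
    · simp
    · simp
  simp only [this]
  rw [Finset.sum_ite_eq']
  simp

theorem pderiv_pV (t : ℕ) (i : Fin d) (V : Mat d) : pderiv i (pV t V) =
    (t : MvPolynomial (Fin d) ℂ) * (C (V i i) * (∑ k, C (V k k) * X k) ^ (t - 1) *
      C ((conj (trace V)) ^ t)) := by
  unfold pV
  rw [pderiv_mul, pderiv_C, mul_zero, add_zero, pderiv_pow, pderiv_lin i (fun k => V k k)]
  ring

theorem pderiv_pV2 (t : ℕ) (i : Fin d) (V : Mat d) : pderiv i (pderiv i (pV t V)) =
    (t : MvPolynomial (Fin d) ℂ) * ((t - 1 : ℕ) : MvPolynomial (Fin d) ℂ) *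
      (C (V i i) * C (V i i) * (∑ k, C (V k k) * X k) ^ (t - 2) *
      C ((conj (trace V)) ^ t)) := by
  rw [pderiv_pV]
  have h0 : ∀ n : ℕ, pderiv i ((n : ℕ) : MvPolynomial (Fin d) ℂ) = 0 := by
    intro n
    rw [← C_eq_coe_nat, pderiv_C]
  rw [pderiv_mul, h0, zero_mul, zero_add, pderiv_mul, pderiv_C, mul_zero, add_zero, pderiv_mul,
    pderiv_C, zero_mul, zero_add, pderiv_pow, pderiv_lin i (fun k => V k k)]
  rw [show t - 1 - 1 = t - 2 by omega]
  ring

theorem eval_lin (x v : Fin d → ℂ) :
    eval x (∑ k, C (v k) * X k : MvPolynomial (Fin d) ℂ) = ∑ k, x k * v k := by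
  rw [map_sum]
  apply Finset.sum_congr rfl
  intro k _
  rw [map_mul, eval_C, eval_X, mul_comm]

/-- the first derivative at `x` as a linear functional -/
noncomputable def ev1 (x : Fin d → ℂ) (i : Fin d) : MvPolynomial (Fin d) ℂ →ₗ[ℂ] ℂ where
  toFun p := eval x (pderiv i p)
  map_add' p q := by rw [map_add, map_add]
  map_smul' c p := by rw [Derivation.map_smul, smul_eval, RingHom.id_apply, smul_eq_mul]

/-- the second derivative at `x` as a linear functional -/
noncomputable def ev2 (x : Fin d → ℂ) (i : Fin d) : MvPolynomial (Fin d) ℂ →ₗ[ℂ] ℂ where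
  toFun p := eval x (pderiv i (pderiv i p))
  map_add' p q := by rw [map_add, map_add, map_add]
  map_smul' c p := by
    rw [Derivation.map_smul, Derivation.map_smul, smul_eval, RingHom.id_apply, smul_eq_mul]

theorem t_FD (d : ℕ) : FD d := by
  constructor
  · intro t i x
    have h : eval x (pderiv i (GP d t)) =
        ∫ V : UU (Fin d), eval x (pderiv i (pV t (V : Mat d))) ∂(haarU (Fin d)) :=
      L_GP (d := d) t (ev1 x i)
    rw [h]
    unfold dI
    rw [← integral_const_mul]
    congr 1
    ext V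
    rw [pderiv_pV]
    simp only [map_mul, map_natCast, map_pow, eval_C]
    rw [eval_lin x (fun k => (V : Mat d) k k)]
  · intro t i x
    have h : eval x (pderiv i (pderiv i (GP d t))) =
        ∫ V : UU (Fin d), eval x (pderiv i (pderiv i (pV t (V : Mat d)))) ∂(haarU (Fin d)) :=
      L_GP (d := d) t (ev2 x i)
    rw [h]
    unfold qI
    rw [← integral_const_mul]
    congr 1
    ext V
    rw [pderiv_pV2]
    simp only [map_mul, map_natCast, map_pow, eval_C]
    rw [eval_lin x (fun k => (V : Mat d) k k)]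
    rcases Nat.eq_zero_or_pos t with h0 | h0
    · subst h0; simp
    · have : ((t - 1 : ℕ) : ℂ) = (t : ℂ) - 1 := by
        rw [Nat.cast_sub h0]; simp
      rw [this]

end Pool.Agent.T5h70.NH.FDT

namespace Pool.Agent.T5h70.NH.FD

theorem t_FD (d : ℕ) : Pool.Agent.T5h70.NH.FD d := FDT.t_FD d

end Pool.Agent.T5h70.NH.FD
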