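import Pool.Agent.T5h70.NH.HaarD

open Matrix MeasureTheory
open scoped BigOperators ComplexConjugate ComplexOrder Topology

namespace Pool.Agent.T5h70.NH.FE

open Pool.Agent.V11219.MomentOp Pool.Agent.T5h70.NH.HaarD

variable {d : ℕ}

lemma int_sum {s : Finset (Fin d → ℕ)} {f : (Fin d → ℕ) → UU (Fin d) → ℂ}
    (hf : ∀ α, Continuous (f α)) (c : (Fin d → ℕ) → ℂ) :
    ∫ V : UU (Fin d), ∑ α ∈ s, c α * f α V ∂(haarU (Fin d)) =
      ∑ α ∈ s, c α * ∫ V : UU (Fin d), f α V ∂(haarU (Fin d)) := by
  rw [integral_finsetSum _ fun α _ => (integrable_of_cont (hf α)).const_mul _]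
  exact Finset.sum_congr rfl fun α _ => integral_const_mul _ _

lemma cont_ct : Continuous fun V : UU (Fin d) => conj (trace (V : Mat d)) :=
  Complex.continuous_conj.comp (cont_trace cont_coe)

lemma cont_e (i j : Fin d) : Continuous fun V : UU (Fin d) => (V : Mat d) i j :=
  cont_coe.matrix_elem i j

lemma cont_pr (α : Fin d → ℕ) : Continuous fun V : UU (Fin d) => ∏ i, (V : Mat d) i i ^ α i :=
  continuous_finsetProd _ fun i _ => (cont_e i i).pow _

lemma expand (t : ℕ) (x : Fin d → ℂ) (V : Mat d) : (∑ i, x i * V i i) ^ t =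
    ∑ α ∈ Finset.piAntidiag Finset.univ t,
      ((Nat.multinomial Finset.univ α : ℂ) * ∏ i, x i ^ α i) * ∏ i, V i i ^ α i := by
  rw [Finset.sum_pow_eq_sum_piAntidiag]
  refine Finset.sum_congr rfl fun α _ => ?_
  simp only [mul_pow, Finset.prod_mul_distrib]
  ring

theorem t_FE (d : ℕ) : FE d := by
  refine ⟨fun t x => ?_, fun t i j x => ?_, ?_, fun t => ?_⟩
  · have h : gI d t x = ∫ V : UU (Fin d), ∑ α ∈ Finset.piAntidiag Finset.univ t,
        ((Nat.multinomial Finset.univ α : ℂ) * ∏ i, x i ^ α i) * ((∏ i, (V : Mat d) i i ^ α i) *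
          (conj (trace (V : Mat d))) ^ t) ∂(haarU (Fin d)) := by
      unfold gI
      refine integral_congr_ae (Filter.Eventually.of_forall fun V => ?_)
      show _ ^ t * _ = _
      rw [expand, Finset.sum_mul]
      exact Finset.sum_congr rfl fun α _ => mul_assoc _ _ _
    replace h := h.trans (int_sum (f := fun α V => (∏ i, (V : Mat d) i i ^ α i) *
      (conj (trace (V : Mat d))) ^ t) (fun α => (cont_pr α).mul (cont_ct.pow t))
      fun α => (Nat.multinomial Finset.univ α : ℂ) * ∏ i, x i ^ α i)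
    rw [h]
    unfold GP
    rw [map_sum]
    refine Finset.sum_congr rfl fun α _ => ?_
    rw [map_mul, MvPolynomial.eval_C, map_prod]
    simp only [map_pow, MvPolynomial.eval_X]
    unfold gcf
    ring
  · have h : qI d t i j x = ∫ V : UU (Fin d), ∑ α ∈ Finset.piAntidiag Finset.univ (t - 2),
        ((Nat.multinomial Finset.univ α : ℂ) * ∏ i, x i ^ α i) * ((V : Mat d) i j *
          (V : Mat d) j i * (∏ i, (V : Mat d) i i ^ α i) *
          (conj (trace (V : Mat d))) ^ t) ∂(haarU (Fin d)) := by
      unfold qI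
      refine integral_congr_ae (Filter.Eventually.of_forall fun V => ?_)
      show _ * _ * _ ^ (t - 2) * _ = _
      rw [expand, Finset.mul_sum, Finset.sum_mul]
      exact Finset.sum_congr rfl fun α _ => by ring
    replace h := h.trans (int_sum (f := fun α V => (V : Mat d) i j *
      (V : Mat d) j i * (∏ i, (V : Mat d) i i ^ α i) * (conj (trace (V : Mat d))) ^ t)
      (fun α => (((cont_e i j).mul (cont_e j i)).mul (cont_pr α)).mul (cont_ct.pow t))
      fun α => (Nat.multinomial Finset.univ α : ℂ) * ∏ i, x i ^ α i)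
    rw [h]
    unfold QP
    rw [map_mul, MvPolynomial.eval_C, map_sum]
    congr 1
    refine Finset.sum_congr rfl fun α _ => ?_
    rw [map_mul, MvPolynomial.eval_C, map_prod]
    simp only [map_pow, MvPolynomial.eval_X]
    unfold qcf
    ring
  · unfold GP
    rw [Finset.piAntidiag_zero, Finset.sum_singleton]
    have h : gcf d 0 0 = 1 := by
      unfold gcf
      simp
    rw [h]
    simp [Nat.multinomial]
  · unfold GP
    refine MvPolynomial.IsHomogeneous.sum _ _ _ fun α hα => ?_
    have h1 : ∑ i, α i = t := (Finset.mem_piAntidiag.mp hα).1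
    have h2 := (MvPolynomial.isHomogeneous_C (Fin d) ((Nat.multinomial Finset.univ α : ℂ) *
      gcf d t α)).mul (MvPolynomial.IsHomogeneous.prod Finset.univ
      (fun i : Fin d => (MvPolynomial.X i : MvPolynomial (Fin d) ℂ) ^ α i) α
      fun i _ => MvPolynomial.isHomogeneous_X_pow i (α i))
    rwa [zero_add, h1] at h2

end Pool.Agent.T5h70.NH.FE
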