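import Pool.Agent.T5h70.NH.Stm

/-! Task FS (helper39): symmetry. -/

set_option linter.style.haveILetI false

open Matrix MeasureTheory
open scoped BigOperators ComplexConjugate ComplexOrder

namespace Pool.Agent.T5h70.NH.FST

open Pool.Agent.V11219.MomentOp
open MvPolynomial

variable {d : ℕ}

theorem shift_right {n : Type} [Fintype n] [DecidableEq n] (W : UU n) (f : UU n → ℂ) :
    ∫ V, f (V * W) ∂(haarU n) = ∫ V, f V ∂(haarU n) := by
  haveI h0 : IsProbabilityMeasure ((haarU n).map (· * W)) :=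
    Measure.isProbabilityMeasure_map (measurable_mul_const W).aemeasurable
  have h : (haarU n).map (· * W) = haarU n :=
    Measure.isHaarMeasure_eq_of_isProbabilityMeasure _ _
  have h2 := integral_map_equiv (μ := haarU n) (MeasurableEquiv.mulRight W) f
  rw [MeasurableEquiv.coe_mulRight, h] at h2
  exact h2.symm

/-- the permutation matrix -/
noncomputable def pm (σ : Equiv.Perm (Fin d)) : UU (Fin d) :=
  ⟨(1 : Mat d).submatrix σ id, by
    rw [Matrix.mem_unitaryGroup_iff, Matrix.star_eq_conjTranspose, Matrix.conjTranspose_submatrix,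
      Matrix.conjTranspose_one, ← Matrix.submatrix_mul _ _ _ _ _ Function.bijective_id, one_mul,
      Matrix.submatrix_one_equiv]⟩

theorem pm_conj (σ : Equiv.Perm (Fin d)) (V : UU (Fin d)) :
    ((pm σ * V * (pm σ)⁻¹ : UU (Fin d)) : Mat d) = (V : Mat d).submatrix σ σ := by
  have h1 : (((pm σ)⁻¹ : UU (Fin d)) : Mat d) = (1 : Mat d).submatrix id σ := by
    change star ((1 : Mat d).submatrix σ id) = _
    rw [Matrix.star_eq_conjTranspose, Matrix.conjTranspose_submatrix, Matrix.conjTranspose_one]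
  change (1 : Mat d).submatrix σ id * (V : Mat d) * (((pm σ)⁻¹ : UU (Fin d)) : Mat d) = _
  rw [h1]
  have h2 : (1 : Mat d).submatrix σ id * (V : Mat d) = (V : Mat d).submatrix σ id := by
    have := Matrix.submatrix_mul (1 : Mat d) (V : Mat d) σ id id Function.bijective_id
    rw [one_mul, Matrix.submatrix_id_id] at this
    exact this.symm
  rw [h2]
  have := Matrix.submatrix_mul (V : Mat d) (1 : Mat d) σ id σ Function.bijective_id
  rw [mul_one] at this
  exact this.symm

theorem conj_inv (σ : Equiv.Perm (Fin d)) (f : Mat d → ℂ) :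
    ∫ V : UU (Fin d), f ((V : Mat d).submatrix σ σ) ∂(haarU (Fin d)) =
      ∫ V : UU (Fin d), f (V : Mat d) ∂(haarU (Fin d)) := by
  have h1 := shift_right ((pm σ)⁻¹) (fun V : UU (Fin d) => f ((pm σ * V : UU (Fin d)) : Mat d))
  have h2 := shift (pm σ) (fun V : UU (Fin d) => f (V : Mat d))
  rw [← h2, ← h1]
  congr 1
  ext V
  rw [← pm_conj, mul_assoc]

theorem trace_perm (σ : Equiv.Perm (Fin d)) (V : Mat d) : trace (V.submatrix σ σ) = trace V := by
  simp only [Matrix.trace, Matrix.diag, Matrix.submatrix_apply]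
  exact Equiv.sum_comp σ (fun i => V i i)

theorem gcf_perm (t : ℕ) (σ : Equiv.Perm (Fin d)) (α : Fin d → ℕ) :
    gcf d t (fun i => α (σ.symm i)) = gcf d t α := by
  unfold gcf
  rw [← conj_inv σ (fun V => (∏ i, (V i i ^ α i)) * (conj (trace V)) ^ t)]
  congr 1
  ext V
  simp only
  rw [trace_perm]
  congr 1
  rw [← Equiv.prod_comp σ (fun i => (V : Mat d) i i ^ α (σ.symm i))]
  apply Finset.prod_congr rfl
  intro i _
  rw [Equiv.symm_apply_apply, Matrix.submatrix_apply]

theorem multinomial_perm (σ : Equiv.Perm (Fin d)) (α : Fin d → ℕ) :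
    Nat.multinomial Finset.univ (fun i => α (σ.symm i)) = Nat.multinomial Finset.univ α := by
  unfold Nat.multinomial
  rw [Equiv.sum_comp σ.symm α, Equiv.prod_comp σ.symm (fun i => (α i).factorial)]

theorem t_FS (d : ℕ) : FS d := by
  intro t σ
  unfold GP
  rw [map_sum]
  refine Finset.sum_equiv (Equiv.arrowCongr σ (Equiv.refl ℕ)) ?_ ?_
  · intro α
    rw [Finset.mem_piAntidiag, Finset.mem_piAntidiag]
    have : (Equiv.arrowCongr σ (Equiv.refl ℕ)) α = fun i => α (σ.symm i) := rfl
    rw [this, Equiv.sum_comp σ.symm α]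
    simp
  · intro α _
    have : (Equiv.arrowCongr σ (Equiv.refl ℕ)) α = fun i => α (σ.symm i) := rfl
    rw [this, gcf_perm, multinomial_perm, map_mul, rename_C, map_prod]
    congr 1
    rw [← Equiv.prod_comp σ (fun i => (X i : MvPolynomial (Fin d) ℂ) ^ α (σ.symm i))]
    apply Finset.prod_congr rfl
    intro i _
    rw [map_pow, rename_X, Equiv.symm_apply_apply]

end Pool.Agent.T5h70.NH.FST

namespace Pool.Agent.T5h70.NH.FS

theorem t_FS (d : ℕ) : Pool.Agent.T5h70.NH.FS d := FST.t_FS d

end Pool.Agent.T5h70.NH.FS
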