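import Pool.Agent.T5h70.NH.T_K1

/-! The iterated Kadison-Schwarz inequality. -/

set_option autoImplicit false
set_option linter.unusedSectionVars false

open Matrix MeasureTheory
open scoped BigOperators ComplexConjugate ComplexOrder

namespace Pool.Agent.T5h70.NH.KS

open Pool.Agent.V11219.MomentOp Pool.Agent.T5h70.NH Pool.Agent.T5h70.NH.K1

section

variable {D : Type} [Fintype D] [DecidableEq D]

/-- the pairing -/
noncomputable def pr (X Y : Matrix D D ℂ) : ℂ := ∑ a, ∑ b, conj (X a b) * Y a b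

/-- the adjoint -/
noncomputable def adj (T : Matrix D D ℂ →ₗ[ℂ] Matrix D D ℂ) (Y : Matrix D D ℂ) :
    Matrix D D ℂ := Matrix.of fun i j => pr (T (Matrix.single i j 1)) Y

theorem pr_adj (T : Matrix D D ℂ →ₗ[ℂ] Matrix D D ℂ) (X Y : Matrix D D ℂ) :
    pr (T X) Y = pr X (adj T Y) := by
  have h1 : T X = ∑ i, ∑ j, X i j • T (Matrix.single i j 1) := by
    conv_lhs => rw [Matrix.matrix_eq_sum_single X]
    simp only [map_sum]
    refine Finset.sum_congr rfl fun i _ => Finset.sum_congr rfl fun j _ => ?_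
    rw [← map_smul, Matrix.smul_single, smul_eq_mul, mul_one]
  have h2 : ∀ a b, T X a b = ∑ i, ∑ j, X i j * T (Matrix.single i j 1) a b := by
    intro a b
    rw [h1]
    simp only [Matrix.sum_apply, Matrix.smul_apply, smul_eq_mul]
  unfold pr
  simp only [h2, map_sum, map_mul, Finset.sum_mul, adj, Matrix.of_apply, pr, Finset.mul_sum]
  have e1 : ∀ a : D, ∑ b : D, ∑ i : D, ∑ j : D, conj (X i j) *
      conj (T (Matrix.single i j 1) a b) * Y a b = ∑ i : D, ∑ j : D, ∑ b : D, conj (X i j) *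
      conj (T (Matrix.single i j 1) a b) * Y a b := by
    intro a
    rw [Finset.sum_comm]
    exact Finset.sum_congr rfl fun i _ => Finset.sum_comm
  simp only [e1]
  rw [Finset.sum_comm]
  refine Finset.sum_congr rfl fun i _ => ?_
  rw [Finset.sum_comm]
  exact Finset.sum_congr rfl fun j _ => Finset.sum_congr rfl fun a _ =>
    Finset.sum_congr rfl fun b _ => mul_assoc _ _ _

theorem pr_eq_trace (X Y : Matrix D D ℂ) : pr X Y = trace (Xᴴ * Y) := by
  unfold pr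
  rw [Finset.sum_comm]
  rfl

variable {Ω ι : Type} [MeasurableSpace Ω] [Fintype ι] (μ : Measure Ω) [IsProbabilityMeasure μ]
  {A : Ω → ι → Matrix D D ℂ}

theorem entry_le (hA : ∀ ω, ∑ x, (A ω x)ᴴ * A ω x = 1) (ω : Ω) (x : ι) (i j : D) :
    ‖A ω x i j‖ ≤ 1 := by
  have h1 := congrFun (congrFun (hA ω) j) j
  rw [Matrix.sum_apply, Matrix.one_apply_eq] at h1
  have h2 : ∑ x, ∑ i, ‖A ω x i j‖ ^ 2 = 1 := by
    have h3 : ((∑ x, ∑ i, ‖A ω x i j‖ ^ 2 : ℝ) : ℂ) = 1 := by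
      rw [← h1]
      push_cast
      refine Finset.sum_congr rfl fun x _ => ?_
      rw [Matrix.mul_apply]
      refine Finset.sum_congr rfl fun i _ => ?_
      rw [Matrix.conjTranspose_apply]
      exact (Complex.conj_mul' _).symm
    exact_mod_cast h3
  have h4 : ‖A ω x i j‖ ^ 2 ≤ 1 := by
    rw [← h2]
    refine le_trans ?_ (Finset.single_le_sum (f := fun x => ∑ i, ‖A ω x i j‖ ^ 2)
      (fun x _ => Finset.sum_nonneg fun i _ => by positivity) (Finset.mem_univ x))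
    exact Finset.single_le_sum (f := fun i => ‖A ω x i j‖ ^ 2) (fun i _ => by positivity)
      (Finset.mem_univ i)
  exact (sq_le_one_iff₀ (norm_nonneg _)).1 h4

theorem int_entry (hA : ∀ ω, ∑ x, (A ω x)ᴴ * A ω x = 1)
    (hm : ∀ x i j, Measurable fun ω => A ω x i j) (X : Matrix D D ℂ) (k l : D) :
    Integrable (fun ω => (∑ x, A ω x * X * (A ω x)ᴴ : Matrix D D ℂ) k l) μ := by
  simp only [Matrix.sum_apply, mul_mul_entry, Matrix.conjTranspose_apply]
  refine integrable_finsetSum _ fun x _ => integrable_finsetSum _ fun i _ =>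
    integrable_finsetSum _ fun j _ => Integrable.const_mul ?_ _
  refine Integrable.of_bound (C := 1) ((hm x k i).mul
    (continuous_star.measurable.comp (hm x l j))).aestronglyMeasurable
    (Filter.Eventually.of_forall fun ω => ?_)
  rw [norm_mul, norm_star]
  exact mul_le_one₀ (entry_le hA ω x k i) (norm_nonneg _) (entry_le hA ω x l j)

variable {T : Matrix D D ℂ →ₗ[ℂ] Matrix D D ℂ}

theorem int_trace (hA : ∀ ω, ∑ x, (A ω x)ᴴ * A ω x = 1)
    (hm : ∀ x i j, Measurable fun ω => A ω x i j)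
    (hT : ∀ Y k l, T Y k l = ∫ ω, (∑ x, A ω x * Y * (A ω x)ᴴ : Matrix D D ℂ) k l ∂μ)
    (X C : Matrix D D ℂ) :
    Integrable (fun ω => trace (C * ∑ x, A ω x * X * (A ω x)ᴴ)) μ ∧
      ∫ ω, trace (C * ∑ x, A ω x * X * (A ω x)ᴴ) ∂μ = trace (C * T X) := by
  have h1 : ∀ W : Matrix D D ℂ, trace (C * W) = ∑ i, ∑ j, C i j * W j i := by
    intro W
    unfold Matrix.trace
    simp only [Matrix.diag_apply, Matrix.mul_apply]
  have h2 : ∀ i j, Integrable (fun ω => C i j *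
      (∑ x, A ω x * X * (A ω x)ᴴ : Matrix D D ℂ) j i) μ :=
    fun i j => (int_entry μ hA hm X j i).const_mul _
  have h3 : ∀ i, Integrable (fun ω => ∑ j, C i j *
      (∑ x, A ω x * X * (A ω x)ᴴ : Matrix D D ℂ) j i) μ :=
    fun i => integrable_finsetSum _ fun j _ => h2 i j
  simp only [h1]
  refine ⟨integrable_finsetSum _ fun i _ => h3 i, ?_⟩
  rw [integral_finsetSum _ fun i _ => h3 i]
  refine Finset.sum_congr rfl fun i _ => ?_
  rw [integral_finsetSum _ fun j _ => h2 i j]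
  refine Finset.sum_congr rfl fun j _ => ?_
  rw [integral_const_mul, ← hT]

theorem T_herm (hT : ∀ Y k l, T Y k l = ∫ ω, (∑ x, A ω x * Y * (A ω x)ᴴ : Matrix D D ℂ) k l ∂μ)
    (X : Matrix D D ℂ) : T Xᴴ = (T X)ᴴ := by
  ext k l
  rw [Matrix.conjTranspose_apply, hT, hT]
  rw [show star (∫ ω, (∑ x, A ω x * X * (A ω x)ᴴ : Matrix D D ℂ) l k ∂μ) =
    ∫ ω, (starRingEnd ℂ) ((∑ x, A ω x * X * (A ω x)ᴴ : Matrix D D ℂ) l k) ∂μ from
      (integral_conj).symm]
  refine integral_congr_ae (Filter.Eventually.of_forall fun ω => ?_)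
  show (∑ x, A ω x * Xᴴ * (A ω x)ᴴ : Matrix D D ℂ) k l =
    star ((∑ x, A ω x * X * (A ω x)ᴴ : Matrix D D ℂ) l k)
  rw [← Matrix.conjTranspose_apply, Matrix.conjTranspose_sum]
  simp only [Matrix.conjTranspose_mul, Matrix.conjTranspose_conjTranspose, Matrix.mul_assoc]

omit [IsProbabilityMeasure μ] in
theorem int_nonneg {f : Ω → ℂ} (hf : Integrable f μ) (h : ∀ ω, 0 ≤ f ω) : 0 ≤ ∫ ω, f ω ∂μ := by
  rw [Complex.nonneg_iff]
  have h1 : (∫ ω, f ω ∂μ).re = ∫ ω, (f ω).re ∂μ := (integral_re hf).symm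
  have h2 : (∫ ω, f ω ∂μ).im = ∫ ω, (f ω).im ∂μ := (integral_im hf).symm
  refine ⟨?_, ?_⟩
  · rw [h1]
    exact integral_nonneg fun ω => (Complex.nonneg_iff.1 (h ω)).1
  · rw [h2]
    have h3 : ∀ ω, (f ω).im = 0 := fun ω => (Complex.nonneg_iff.1 (h ω)).2.symm
    simp only [h3, integral_zero]

theorem T_psd (hA : ∀ ω, ∑ x, (A ω x)ᴴ * A ω x = 1)
    (hm : ∀ x i j, Measurable fun ω => A ω x i j)
    (hT : ∀ Y k l, T Y k l = ∫ ω, (∑ x, A ω x * Y * (A ω x)ᴴ : Matrix D D ℂ) k l ∂μ)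
    {M : Matrix D D ℂ} (hM : M.PosSemidef) : (T M).PosSemidef := by
  have hh : (T M).IsHermitian := by
    unfold Matrix.IsHermitian
    rw [← T_herm μ hT, hM.1]
  refine Matrix.PosSemidef.of_dotProduct_mulVec_nonneg hh fun v => ?_
  have h1 : ∀ W : Matrix D D ℂ, star v ⬝ᵥ W *ᵥ v = trace (Matrix.vecMulVec v (star v) * W) := by
    intro W
    rw [Matrix.trace_mul_comm, Matrix.mul_vecMulVec, Matrix.trace_vecMulVec, dotProduct_comm]
  obtain ⟨h2, h3⟩ := int_trace μ hA hm hT M (Matrix.vecMulVec v (star v))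
  rw [h1, ← h3]
  refine int_nonneg μ h2 fun ω => ?_
  rw [← h1]
  exact (Matrix.posSemidef_sum _ fun x _ => hM.mul_mul_conjTranspose_same _).dotProduct_mulVec_nonneg v

theorem T_trace (hA : ∀ ω, ∑ x, (A ω x)ᴴ * A ω x = 1)
    (hm : ∀ x i j, Measurable fun ω => A ω x i j)
    (hT : ∀ Y k l, T Y k l = ∫ ω, (∑ x, A ω x * Y * (A ω x)ᴴ : Matrix D D ℂ) k l ∂μ)
    (X : Matrix D D ℂ) : trace (T X) = trace X := by
  obtain ⟨-, h3⟩ := int_trace μ hA hm hT X 1
  rw [Matrix.one_mul] at h3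
  rw [← h3]
  have h4 : ∀ ω, trace (1 * ∑ x, A ω x * X * (A ω x)ᴴ) = trace X := by
    intro ω
    have h5 : ∀ B : Matrix D D ℂ, trace (B * X * Bᴴ) = trace (Bᴴ * B * X) := fun B => by
      rw [Matrix.trace_mul_comm, ← Matrix.mul_assoc]
    rw [Matrix.one_mul, Matrix.trace_sum]
    simp only [h5]
    rw [← Matrix.trace_sum, ← Finset.sum_mul, hA, Matrix.one_mul]
  simp only [h4]
  simp

/-- one step -/
theorem step (hA : ∀ ω, ∑ x, (A ω x)ᴴ * A ω x = 1)
    (hm : ∀ x i j, Measurable fun ω => A ω x i j)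
    (hT : ∀ Y k l, T Y k l = ∫ ω, (∑ x, A ω x * Y * (A ω x)ᴴ : Matrix D D ℂ) k l ∂μ)
    {M : Matrix D D ℂ} (hM : M.PosSemidef) (Y : Matrix D D ℂ) :
    (trace (M * ((adj T Y)ᴴ * adj T Y))).re ≤ (trace (T M * (Yᴴ * Y))).re := by
  obtain ⟨Z, hZ⟩ : ∃ Z, Z = adj T Y := ⟨_, rfl⟩
  rw [← hZ]
  obtain ⟨i1, e1⟩ := int_trace μ hA hm hT M (Yᴴ * Y)
  obtain ⟨i2, e2⟩ := int_trace μ hA hm hT (M * Zᴴ) Y
  obtain ⟨i3, e3⟩ := int_trace μ hA hm hT (Z * M) Yᴴ
  have hMh : Mᴴ = M := hM.1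
  have q1 : trace (Y * T (M * Zᴴ)) = trace (M * (Zᴴ * Z)) := by
    have h1 : M * Zᴴ = (Z * M)ᴴ := by rw [Matrix.conjTranspose_mul, hMh]
    rw [h1, T_herm μ hT, Matrix.trace_mul_comm, ← pr_eq_trace, pr_adj, ← hZ, pr_eq_trace,
      Matrix.conjTranspose_mul, hMh, Matrix.mul_assoc]
  have q2 : trace (Yᴴ * T (Z * M)) = star (trace (M * (Zᴴ * Z))) := by
    have h1 : trace (M * (Zᴴ * Z)) = trace ((T (Z * M))ᴴ * Y) := by
      rw [← pr_eq_trace, pr_adj, ← hZ, pr_eq_trace, Matrix.conjTranspose_mul, hMh,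
        Matrix.mul_assoc]
    rw [h1, ← Matrix.trace_conjTranspose, Matrix.conjTranspose_mul,
      Matrix.conjTranspose_conjTranspose]
  -- the positive function
  have hpt : ∀ ω, trace (Yᴴ * Y * ∑ x, A ω x * M * (A ω x)ᴴ) -
      trace (Y * ∑ x, A ω x * (M * Zᴴ) * (A ω x)ᴴ) -
      trace (Yᴴ * ∑ x, A ω x * (Z * M) * (A ω x)ᴴ) + trace (M * (Zᴴ * Z)) =
      ∑ x, trace ((Y * A ω x - A ω x * Z) * M * (Y * A ω x - A ω x * Z)ᴴ) := by
    intro ω
    have h1 : trace (M * (Zᴴ * Z)) = ∑ x, trace (A ω x * (Z * M * Zᴴ) * (A ω x)ᴴ) := by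
      have h2 : ∀ x, trace (A ω x * (Z * M * Zᴴ) * (A ω x)ᴴ) =
          trace ((A ω x)ᴴ * A ω x * (Z * M * Zᴴ)) := fun x => by
        rw [Matrix.trace_mul_comm, ← Matrix.mul_assoc]
      simp only [h2]
      rw [← Matrix.trace_sum, ← Finset.sum_mul, hA, Matrix.one_mul, Matrix.mul_assoc Z M,
        Matrix.trace_mul_comm Z, Matrix.mul_assoc]
    rw [h1]
    simp only [Finset.mul_sum, Matrix.trace_sum]
    rw [← Finset.sum_sub_distrib, ← Finset.sum_sub_distrib, ← Finset.sum_add_distrib]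
    refine Finset.sum_congr rfl fun x _ => ?_
    have h3 : trace (Yᴴ * Y * (A ω x * M * (A ω x)ᴴ)) =
        trace (Y * A ω x * M * (A ω x)ᴴ * Yᴴ) := by
      rw [Matrix.mul_assoc Yᴴ, Matrix.trace_mul_comm Yᴴ]
      simp only [Matrix.mul_assoc]
    have h4 : trace (Yᴴ * (A ω x * (Z * M) * (A ω x)ᴴ)) =
        trace (A ω x * Z * M * (A ω x)ᴴ * Yᴴ) := by
      rw [Matrix.trace_mul_comm]
      simp only [Matrix.mul_assoc]
    rw [h3, h4, ← Matrix.trace_sub, ← Matrix.trace_sub, ← Matrix.trace_add,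
      Matrix.conjTranspose_sub, Matrix.conjTranspose_mul, Matrix.conjTranspose_mul]
    congr 1
    noncomm_ring
  have i12 : Integrable (fun ω => trace (Yᴴ * Y * ∑ x, A ω x * M * (A ω x)ᴴ) -
      trace (Y * ∑ x, A ω x * (M * Zᴴ) * (A ω x)ᴴ)) μ := i1.sub i2
  have i123 : Integrable (fun ω => trace (Yᴴ * Y * ∑ x, A ω x * M * (A ω x)ᴴ) -
      trace (Y * ∑ x, A ω x * (M * Zᴴ) * (A ω x)ᴴ) -
      trace (Yᴴ * ∑ x, A ω x * (Z * M) * (A ω x)ᴴ)) μ := i12.sub i3
  have hint : Integrable (fun ω => trace (Yᴴ * Y * ∑ x, A ω x * M * (A ω x)ᴴ) -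
      trace (Y * ∑ x, A ω x * (M * Zᴴ) * (A ω x)ᴴ) -
      trace (Yᴴ * ∑ x, A ω x * (Z * M) * (A ω x)ᴴ) + trace (M * (Zᴴ * Z))) μ :=
    ((i1.sub i2).sub i3).add (integrable_const _)
  have hpos := int_nonneg μ hint fun ω => by
    rw [hpt]
    exact Finset.sum_nonneg fun x _ => (hM.mul_mul_conjTranspose_same _).trace_nonneg
  rw [integral_add i123 (integrable_const _), integral_sub i12 i3,
    integral_sub i1 i2, e1, e2, e3, q1, q2] at hpos
  have h5 := (Complex.nonneg_iff.1 hpos).1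
  simp only [Complex.add_re, Complex.sub_re, integral_const, probReal_univ, one_smul] at h5
  have h6 : (star (trace (M * (Zᴴ * Z)))).re = (trace (M * (Zᴴ * Z))).re := rfl
  rw [h6] at h5
  rw [Matrix.trace_mul_comm (T M)]
  linarith

theorem pow_psd (hA : ∀ ω, ∑ x, (A ω x)ᴴ * A ω x = 1)
    (hm : ∀ x i j, Measurable fun ω => A ω x i j)
    (hT : ∀ Y k l, T Y k l = ∫ ω, (∑ x, A ω x * Y * (A ω x)ᴴ : Matrix D D ℂ) k l ∂μ) (k : ℕ) :
    ((T ^ k) 1).PosSemidef := by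
  induction k with
  | zero =>
    rw [pow_zero]
    exact Matrix.PosSemidef.one
  | succ k ih =>
    rw [pow_succ', Module.End.mul_apply]
    exact T_psd μ hA hm hT ih

theorem main (hA : ∀ ω, ∑ x, (A ω x)ᴴ * A ω x = 1)
    (hm : ∀ x i j, Measurable fun ω => A ω x i j)
    (hT : ∀ Y k l, T Y k l = ∫ ω, (∑ x, A ω x * Y * (A ω x)ᴴ : Matrix D D ℂ) k l ∂μ) (k : ℕ) :
    ∀ Y : Matrix D D ℂ, ∑ i, ∑ j, ‖pr ((T ^ k) (Matrix.single i j 1)) Y‖ ^ 2 ≤
      (trace ((T ^ k) 1 * (Yᴴ * Y))).re := by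
  induction k with
  | zero =>
    intro Y
    have h1 : ∀ i j : D, pr (Matrix.single i j 1) Y = Y i j := by
      intro i j
      unfold pr
      rw [Finset.sum_eq_single i, Finset.sum_eq_single j]
      · rw [Matrix.single_apply_same, map_one, one_mul]
      · intro b _ hb
        rw [Matrix.single_apply_of_ne _ _ _ _ _ (by tauto), map_zero, zero_mul]
      · simp
      · intro b _ hb
        refine Finset.sum_eq_zero fun c _ => ?_
        rw [Matrix.single_apply_of_ne _ _ _ _ _ (by tauto), map_zero, zero_mul]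
      · simp
    rw [pow_zero]
    simp only [Module.End.one_apply, h1, Matrix.one_mul]
    rw [← pr_eq_trace]
    unfold pr
    rw [Complex.re_sum]
    refine Finset.sum_le_sum fun i _ => ?_
    rw [Complex.re_sum]
    refine Finset.sum_le_sum fun j _ => ?_
    rw [Complex.conj_mul']
    norm_cast
  | succ k ih =>
    intro Y
    have h1 : ∀ i j : D, pr ((T ^ (k + 1)) (Matrix.single i j 1)) Y =
        pr ((T ^ k) (Matrix.single i j 1)) (adj T Y) := by
      intro i j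
      rw [pow_succ', Module.End.mul_apply, pr_adj]
    simp only [h1]
    refine (ih (adj T Y)).trans ?_
    rw [pow_succ', Module.End.mul_apply]
    exact step μ hA hm hT (pow_psd μ hA hm hT k) Y

end

theorem t_KS : KS := by
  intro Ω D ι _ _ _ _ μ _ A hA hm T hT k Y
  exact main μ hA hm hT k Y

end Pool.Agent.T5h70.NH.KS
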