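import Pool.Agent.T5h70.NH.T_K3
import Pool.Agent.T5h70.NH.T_KS

/-! Reduction of the Hilbert-Schmidt norm to the image of the identity. -/

set_option autoImplicit false

open Matrix MeasureTheory
open scoped BigOperators ComplexConjugate ComplexOrder

namespace Pool.Agent.T5h70.NH.K4

open Pool.Agent.V11219.MomentOp Pool.Agent.T5h70.NH Pool.Agent.T5h70.NH.K1 Pool.Agent.T5h70.NH.K2
open Pool.Agent.T5h70.NH.KS (pr pr_eq_trace)

theorem pr_single {D : Type} [Fintype D] [DecidableEq D] (X : Matrix D D ℂ) (p q : D) :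
    pr X (Matrix.single p q 1) = conj (X p q) := by
  unfold pr
  rw [Finset.sum_eq_single p, Finset.sum_eq_single q]
  · rw [Matrix.single_apply_same, mul_one]
  · intro b _ hb
    rw [Matrix.single_apply_of_ne _ _ _ _ _ (by tauto), mul_zero]
  · simp
  · intro b _ hb
    refine Finset.sum_eq_zero fun c _ => ?_
    rw [Matrix.single_apply_of_ne _ _ _ _ _ (by tauto), mul_zero]
  · simp

theorem pr_haar {d t : ℕ} (h1 : K1 d t) (X Y : MatT d t)
    (hX : ∀ W : UU (Fin d), tp t (W : Mat d) * X * (tp t (W : Mat d))ᴴ = X) :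
    pr X (haarT d t Y) = pr X Y := by
  obtain ⟨a1, a2, a3, -, -, a6⟩ := h1
  have hW : ∀ W : UU (Fin d), (tp t (W : Mat d))ᴴ * tp t (W : Mat d) = 1 := by
    intro W
    have := (Matrix.mem_unitaryGroup_iff').1 W.2
    rw [Matrix.star_eq_conjTranspose] at this
    rw [← a3, ← a1, this, a2]
  have h2 : ∀ W : UU (Fin d), pr X (tp t (W : Mat d) * Y * (tp t (W : Mat d))ᴴ) = pr X Y := by
    intro W
    have h3 : (tp t (W : Mat d))ᴴ * X * tp t (W : Mat d) = X := by
      conv_lhs => rw [← hX W]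
      rw [← Matrix.mul_assoc, ← Matrix.mul_assoc, hW, Matrix.one_mul, Matrix.mul_assoc, hW,
        Matrix.mul_one]
    rw [pr_eq_trace, pr_eq_trace]
    conv_rhs => rw [← h3]
    rw [Matrix.conjTranspose_mul, Matrix.conjTranspose_mul, Matrix.conjTranspose_conjTranspose,
      ← Matrix.mul_assoc, Matrix.trace_mul_comm]
    simp only [Matrix.mul_assoc]
  have hi : ∀ k l : Fin t → Fin d, Integrable (fun V : UU (Fin d) =>
      (tp t (V : Mat d) * Y * (tp t (V : Mat d))ᴴ : MatT d t) k l) (haarU (Fin d)) := by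
    intro k l
    refine integrable_of_cont ?_
    simp only [mul_mul_entry, Matrix.conjTranspose_apply, tp_apply]
    refine continuous_finsetSum _ fun a _ => continuous_finsetSum _ fun b _ =>
      continuous_const.mul ((continuous_finsetProd _ fun s _ => continuous_entry _ _).mul
        (continuous_star.comp (continuous_finsetProd _ fun s _ => continuous_entry _ _)))
  calc pr X (haarT d t Y)
      = ∑ a, ∑ b, conj (X a b) * ∫ V : UU (Fin d),
          (tp t (V : Mat d) * Y * (tp t (V : Mat d))ᴴ : MatT d t) a b ∂(haarU (Fin d)) := by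
        unfold pr
        simp only [a6]
    _ = ∑ a, ∑ b, ∫ V : UU (Fin d), conj (X a b) *
          (tp t (V : Mat d) * Y * (tp t (V : Mat d))ᴴ : MatT d t) a b ∂(haarU (Fin d)) := by
        simp only [integral_const_mul]
    _ = ∑ a, ∫ V : UU (Fin d), ∑ b, conj (X a b) *
          (tp t (V : Mat d) * Y * (tp t (V : Mat d))ᴴ : MatT d t) a b ∂(haarU (Fin d)) :=
        Finset.sum_congr rfl fun a _ =>
          (integral_finsetSum _ fun b _ => (hi a b).const_mul _).symm
    _ = ∫ V : UU (Fin d), ∑ a, ∑ b, conj (X a b) *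
          (tp t (V : Mat d) * Y * (tp t (V : Mat d))ᴴ : MatT d t) a b ∂(haarU (Fin d)) :=
        (integral_finsetSum _ fun a _ => integrable_finsetSum _
          fun b _ => (hi a b).const_mul _).symm
    _ = ∫ V : UU (Fin d), pr X Y ∂(haarU (Fin d)) := by
        refine integral_congr_ae (Filter.Eventually.of_forall fun V => ?_)
        exact h2 V
    _ = pr X Y := by simp

theorem t_K4 (d dE t : ℕ) (ψ : Fin dE → ℂ) (h1 : K1 d t) (h2 : K2 d dE t ψ) (h3 : K3 d dE t ψ)
    (h4 : KS) : K4 d dE t ψ := by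
  intro k hk
  obtain ⟨b1, b2, -, -, -⟩ := h2
  obtain ⟨k, rfl⟩ := Nat.exists_eq_succ_of_ne_zero (by omega : k ≠ 0)
  have hinv : ∀ (E : MatT d t) (W : UU (Fin d)), tp t (W : Mat d) *
      ((cT d dE t ψ) ^ (k + 1)) E * (tp t (W : Mat d))ᴴ = ((cT d dE t ψ) ^ (k + 1)) E := by
    intro E W
    rw [pow_succ', Module.End.mul_apply]
    exact h3 W _
  have e1 : hsNormSq ((cT d dE t ψ) ^ (k + 1)) = ∑ p, ∑ q, ∑ i, ∑ j,
      ‖pr (((cT d dE t ψ) ^ (k + 1)) (Matrix.single i j 1))
        (haarT d t (Matrix.single p q 1))‖ ^ 2 := by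
    unfold hsNormSq
    have e2 : ∀ i j p q : Fin t → Fin d, ‖pr (((cT d dE t ψ) ^ (k + 1)) (Matrix.single i j 1))
        (haarT d t (Matrix.single p q 1))‖ ^ 2 =
        ‖((cT d dE t ψ) ^ (k + 1)) (Matrix.single i j 1) p q‖ ^ 2 := by
      intro i j p q
      rw [pr_haar h1 _ _ (hinv _), pr_single, RCLike.norm_conj]
    simp only [e2]
    calc ∑ i : Fin t → Fin d, ∑ j : Fin t → Fin d, ∑ p : Fin t → Fin d, ∑ q : Fin t → Fin d,
          ‖((cT d dE t ψ) ^ (k + 1)) (Matrix.single i j 1) p q‖ ^ 2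
        = ∑ i : Fin t → Fin d, ∑ p : Fin t → Fin d, ∑ j : Fin t → Fin d, ∑ q : Fin t → Fin d,
          ‖((cT d dE t ψ) ^ (k + 1)) (Matrix.single i j 1) p q‖ ^ 2 :=
          Finset.sum_congr rfl fun i _ => Finset.sum_comm
      _ = ∑ p : Fin t → Fin d, ∑ i : Fin t → Fin d, ∑ j : Fin t → Fin d, ∑ q : Fin t → Fin d,
          ‖((cT d dE t ψ) ^ (k + 1)) (Matrix.single i j 1) p q‖ ^ 2 := Finset.sum_comm
      _ = ∑ p : Fin t → Fin d, ∑ i : Fin t → Fin d, ∑ q : Fin t → Fin d, ∑ j : Fin t → Fin d,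
          ‖((cT d dE t ψ) ^ (k + 1)) (Matrix.single i j 1) p q‖ ^ 2 :=
          Finset.sum_congr rfl fun p _ => Finset.sum_congr rfl fun i _ => Finset.sum_comm
      _ = ∑ p : Fin t → Fin d, ∑ q : Fin t → Fin d, ∑ i : Fin t → Fin d, ∑ j : Fin t → Fin d,
          ‖((cT d dE t ψ) ^ (k + 1)) (Matrix.single i j 1) p q‖ ^ 2 :=
          Finset.sum_congr rfl fun p _ => Finset.sum_comm
  rw [e1]
  refine Finset.sum_le_sum fun p _ => Finset.sum_le_sum fun q _ => ?_
  exact h4 (haarU (Fin d × Fin dE))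
    (fun V x => tk t ψ (V : Matrix (Fin d × Fin dE) (Fin d × Fin dE) ℂ) x) b1
    (fun x i j => (continuous_tk ψ x i j).measurable) (cT d dE t ψ) b2 (k + 1)
    (haarT d t (Matrix.single p q 1))

end Pool.Agent.T5h70.NH.K4
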