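import Pool.Agent.T5h70.NH.T_K5

open Matrix MeasureTheory
open scoped BigOperators ComplexConjugate ComplexOrder

namespace Pool.Agent.T5h70.NH.K6

open Pool.Agent.V11219.MomentOp
open Pool.Agent.T5h70.NH.K5

lemma cont_int {d : ℕ} (t : ℕ) (M : MatT d t) : Continuous fun V : UU (Fin d) =>
    trace (tp t (V : Mat d)) * trace (M * (tp t (V : Mat d))ᴴ) := by
  have h := cont_tp t (cont_coe (n := Fin d))
  exact h.matrix_trace.mul ((continuous_const.matrix_mul h.matrix_conjTranspose).matrix_trace)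

/-- the functional `ℓ` -/
noncomputable def ell (d t : ℕ) : MatT d t →ₗ[ℂ] ℂ where
  toFun M := ∫ V : UU (Fin d), trace (tp t (V : Mat d)) * trace (M * (tp t (V : Mat d))ᴴ)
    ∂(haarU (Fin d))
  map_add' M N := by
    rw [← integral_add (integrable_of_cont (cont_int t M)) (integrable_of_cont (cont_int t N))]
    simp only [Matrix.add_mul, Matrix.trace_add, mul_add]
  map_smul' c M := by
    rw [RingHom.id_apply, smul_eq_mul, ← integral_const_mul]
    refine integral_congr_ae (Filter.Eventually.of_forall fun V => ?_)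
    show trace (tp t (V : Mat d)) * trace ((c • M) * (tp t (V : Mat d))ᴴ) =
      c * (trace (tp t (V : Mat d)) * trace (M * (tp t (V : Mat d))ᴴ))
    rw [Matrix.smul_mul, Matrix.trace_smul, smul_eq_mul]
    ring

lemma cont_dil {d dE : ℕ} (ψ : Fin dE → ℂ) (Y : Mat d) :
    Continuous fun V : UU (Fin d × Fin dE) =>
      dilated (d := d) ψ (V : Matrix (Fin d × Fin dE) (Fin d × Fin dE) ℂ) Y := by
  have h := cont_coe (n := Fin d × Fin dE)
  have h2 : Continuous fun V : UU (Fin d × Fin dE) =>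
      (V : Matrix (Fin d × Fin dE) (Fin d × Fin dE) ℂ) *
        (Matrix.kronecker Y (Matrix.vecMulVec ψ (star ψ))) *
        (V : Matrix (Fin d × Fin dE) (Fin d × Fin dE) ℂ)ᴴ :=
    (h.matrix_mul continuous_const).matrix_mul h.matrix_conjTranspose
  refine continuous_matrix fun k l => ?_
  show Continuous fun V : UU (Fin d × Fin dE) => ∑ x : Fin dE,
    ((V : Matrix (Fin d × Fin dE) (Fin d × Fin dE) ℂ) *
        (Matrix.kronecker Y (Matrix.vecMulVec ψ (star ψ))) *
        (V : Matrix (Fin d × Fin dE) (Fin d × Fin dE) ℂ)ᴴ) (k, x) (l, x)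
  exact continuous_finsetSum _ fun x _ => h2.matrix_elem _ _

lemma cont_lin {Ω : Type*} [TopologicalSpace Ω] {D : Type} [Fintype D] [DecidableEq D]
    (L : Matrix D D ℂ →ₗ[ℂ] ℂ) {F : Ω → Matrix D D ℂ} (hF : Continuous F) :
    Continuous fun V => L (F V) := by
  have e : (fun V => L (F V)) = fun V => ∑ i, ∑ j, F V i j * L (Matrix.single i j 1) :=
    funext fun V => lin_eq L (F V)
  rw [e]
  refine continuous_finsetSum _ fun i _ => continuous_finsetSum _ fun j _ => ?_
  exact (hF.matrix_elem i j).mul continuous_const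

lemma ell_tp {d t : ℕ} (h1 : K1 d t) (Y : Mat d) (hY : Yᴴ = Y) :
    ell d t (tp t Y) = conj (gM d t Y) := by
  show ∫ V : UU (Fin d), trace (tp t (V : Mat d)) * trace (tp t Y * (tp t (V : Mat d))ᴴ)
    ∂(haarU (Fin d)) = conj (∫ V : UU (Fin d), (trace (Y * (V : Matrix (Fin d) (Fin d) ℂ))) ^ t *
    (conj (trace (V : Matrix (Fin d) (Fin d) ℂ))) ^ t ∂(haarU (Fin d)))
  rw [← integral_conj]
  refine integral_congr_ae (Filter.Eventually.of_forall fun V => ?_)
  show trace (tp t (V : Mat d)) * trace (tp t Y * (tp t (V : Mat d))ᴴ) =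
    conj ((trace (Y * (V : Mat d))) ^ t * (conj (trace (V : Mat d))) ^ t)
  rw [← h1.2.2.1, ← h1.1, h1.2.2.2.1, h1.2.2.2.1, map_mul, map_pow, map_pow, Complex.conj_conj,
    mul_comm]
  congr 2
  have : conj (trace (Y * (V : Mat d))) = trace ((Y * (V : Mat d))ᴴ) := by
    rw [Matrix.trace_conjTranspose]; rfl
  rw [this, Matrix.conjTranspose_mul, hY, Matrix.trace_mul_comm]

lemma main {d dE t : ℕ} (ψ : Fin dE → ℂ) (h1 : K1 d t) (h2 : K2 d dE t ψ) (h3 : A6 d) :
    ∀ k : ℕ, ∀ Y : Mat d, Y.PosSemidef → trace Y = d →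
      (ell d t (((cT d dE t ψ) ^ k) (tp t Y))).re ≤ (gI d t 1).re := by
  intro k
  induction k with
  | zero =>
    intro Y hY hY2
    rw [pow_zero]
    show (ell d t (tp t Y)).re ≤ _
    rw [ell_tp h1 Y hY.1, Complex.conj_re]
    exact h3 t Y hY hY2
  | succ k ih =>
    intro Y hY hY2
    have e1 : ell d t (((cT d dE t ψ) ^ (k + 1)) (tp t Y)) =
        ((ell d t).comp ((cT d dE t ψ) ^ k)) (cT d dE t ψ (tp t Y)) := by
      rw [pow_succ]; rfl
    have hcont : Continuous fun V : UU (Fin d × Fin dE) =>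
        tp t (dilated (d := d) ψ (V : Matrix (Fin d × Fin dE) (Fin d × Fin dE) ℂ) Y) :=
      cont_tp t (cont_dil ψ Y)
    rw [e1, lin_int (fun V : UU (Fin d × Fin dE) =>
        tp t (dilated (d := d) ψ (V : Matrix (Fin d × Fin dE) (Fin d × Fin dE) ℂ) Y))
      (fun i j => hcont.matrix_elem i j) (cT d dE t ψ (tp t Y)) (fun i j => h2.2.2.1 Y i j)]
    have hcL : Continuous fun V : UU (Fin d × Fin dE) =>
        ((ell d t).comp ((cT d dE t ψ) ^ k))
          (tp t (dilated (d := d) ψ (V : Matrix (Fin d × Fin dE) (Fin d × Fin dE) ℂ) Y)) := by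
      exact cont_lin _ hcont
    have hint := integrable_of_cont hcL
    have e2 : (∫ V : UU (Fin d × Fin dE), ((ell d t).comp ((cT d dE t ψ) ^ k))
          (tp t (dilated (d := d) ψ (V : Matrix (Fin d × Fin dE) (Fin d × Fin dE) ℂ) Y))
          ∂(haarU (Fin d × Fin dE))).re =
        ∫ V : UU (Fin d × Fin dE), (((ell d t).comp ((cT d dE t ψ) ^ k))
          (tp t (dilated (d := d) ψ (V : Matrix (Fin d × Fin dE) (Fin d × Fin dE) ℂ) Y))).re
          ∂(haarU (Fin d × Fin dE)) := (integral_re hint).symm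
    rw [e2]
    have e3 : ∫ _V : UU (Fin d × Fin dE), (gI d t 1).re ∂(haarU (Fin d × Fin dE)) =
        (gI d t 1).re := by simp
    rw [← e3]
    refine integral_mono hint.re (integrable_const _) fun V => ?_
    exact ih _ (h2.2.2.2.1 V Y hY) ((h2.2.2.2.2 V Y).trans hY2)

theorem t_K6 (d dE t : ℕ) (ψ : Fin dE → ℂ) (h1 : K1 d t) (h2 : K2 d dE t ψ) (h3 : A6 d) :
    K6 d dE t ψ := by
  intro k
  have h := main ψ h1 h2 h3 k 1 Matrix.PosSemidef.one (by simp)
  rw [h1.2.1] at h
  exact h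

end Pool.Agent.T5h70.NH.K6
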