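import Pool.Agent.T5h70.NH.Stm

open Matrix MeasureTheory
open scoped BigOperators ComplexConjugate ComplexOrder

namespace Pool.Agent.T5h70.NH.K7

open Pool.Agent.V11219.MomentOp

lemma tr_sq {D : Type} [Fintype D] [DecidableEq D] (X : Matrix D D ℂ) :
    (trace (Xᴴ * X)).re = ∑ k, ∑ l, ‖X k l‖ ^ 2 := by
  rw [Matrix.trace, Complex.re_sum, Finset.sum_comm]
  refine Finset.sum_congr rfl fun l _ => ?_
  rw [Matrix.diag_apply, Matrix.mul_apply, Complex.re_sum]
  refine Finset.sum_congr rfl fun k _ => ?_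
  rw [Matrix.conjTranspose_apply]
  show (conj (X k l) * X k l).re = _
  rw [mul_comm, Complex.mul_conj, Complex.ofReal_re, Complex.normSq_eq_norm_sq]

theorem t_K7 (d t : ℕ) (h1 : K1 d t) (h2 : K5 d t) : K7 d t := by
  have h := h2 1 (by
    intro W
    rw [Matrix.mul_one, ← h1.2.2.1, ← h1.1]
    have : (W : Mat d) * (W : Mat d)ᴴ = 1 := by
      have := (Matrix.mem_unitaryGroup_iff).1 W.2
      simpa [Matrix.star_eq_conjTranspose] using this
    rw [this, h1.2.1])
  have hl : hsNormSq (haarT d t) = (∑ p, ∑ q, trace ((1 : MatT d t) *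
      ((haarT d t (Matrix.single p q 1))ᴴ * haarT d t (Matrix.single p q 1)))).re := by
    unfold hsNormSq
    rw [Complex.re_sum]
    refine Finset.sum_congr rfl fun p _ => ?_
    rw [Complex.re_sum]
    refine Finset.sum_congr rfl fun q _ => ?_
    rw [Matrix.one_mul, tr_sq]
  unfold K7
  rw [hl, h]
  congr 1
  unfold gI
  refine integral_congr_ae (Filter.Eventually.of_forall fun V => ?_)
  show trace (tp t (V : Mat d)) * trace ((1 : MatT d t) * (tp t (V : Mat d))ᴴ) =
    (∑ i, (1 : Fin d → ℂ) i * (V : Mat d) i i) ^ t * (conj (trace (V : Mat d))) ^ t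
  rw [Matrix.one_mul, Matrix.trace_conjTranspose, h1.2.2.2.1]
  simp [Matrix.trace]

end Pool.Agent.T5h70.NH.K7
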