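import Pool.Agent.T5h70.NH.T_K5

open Matrix MeasureTheory
open scoped BigOperators ComplexConjugate ComplexOrder

namespace Pool.Agent.T5h70.NH.K8

open Pool.Agent.V11219.MomentOp
open Pool.Agent.T5h70.NH.K5

lemma dep_single {d : ℕ} (a b k l : Fin d) :
    depCh d (Matrix.single a b 1) k l = (if a = b then 1 else 0) * (if k = l then 1 else 0) / d := by
  show ((trace (Matrix.single a b (1 : ℂ)) / d) • (1 : Mat d)) k l = _
  rw [Matrix.smul_apply, Matrix.one_apply, smul_eq_mul]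
  by_cases h : a = b
  · subst h
    by_cases h2 : k = l <;> simp [h2]
  · rw [Matrix.trace_single_eq_of_ne _ _ _ h]
    simp [h]

lemma prod_ite {d t : ℕ} (i j : Fin t → Fin d) :
    ∏ s, (if i s = j s then (1 : ℂ) else 0) = if i = j then 1 else 0 := by
  by_cases h : i = j
  · subst h; simp
  · rw [if_neg h]
    obtain ⟨s, hs⟩ := Function.ne_iff.1 h
    exact Finset.prod_eq_zero (Finset.mem_univ s) (by simp [hs])

lemma depT_single {d t : ℕ} (i j k l : Fin t → Fin d) :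
    depT d t (Matrix.single i j 1) k l =
      (if i = j then 1 else 0) * (if k = l then 1 else 0) / (d : ℂ) ^ t := by
  have e1 : depT d t (Matrix.single i j 1) k l =
      ∑ i', ∑ j', (Matrix.single i j (1 : ℂ) : MatT d t) i' j' *
        ∫ ω, tensorPow t (depCh d) (Matrix.single i' j' 1) k l ∂(Measure.dirac ()) := rfl
  have e2 : ∀ i' j' : Fin t → Fin d, tensorPow t (depCh d) (Matrix.single i' j' 1) k l =
      (if i' = j' then 1 else 0) * (if k = l then 1 else 0) / (d : ℂ) ^ t := by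
    intro i' j'
    have e3 : tensorPow t (depCh d) (Matrix.single i' j' 1) k l =
      ∑ a, ∑ b, (Matrix.single i' j' (1 : ℂ) : MatT d t) a b *
        ∏ s, depCh d (Matrix.single (a s) (b s) 1) (k s) (l s) := rfl
    rw [e3]
    simp only [Matrix.single_apply, ite_mul, one_mul, zero_mul, ite_and]
    rw [Finset.sum_eq_single i' (by
      intro b _ hb
      simp [Ne.symm hb]) (by simp)]
    simp only [if_true]
    rw [Finset.sum_ite_eq]
    simp only [Finset.mem_univ, if_true, dep_single]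
    rw [Finset.prod_div_distrib, Finset.prod_mul_distrib, prod_ite, prod_ite]
    by_cases h1 : i' = j' <;> by_cases h2 : k = l <;> simp [h1, h2]
  rw [e1]
  simp only [e2, integral_dirac, Matrix.single_apply, ite_mul, one_mul, zero_mul, ite_and]
  rw [Finset.sum_eq_single i (by
      intro b _ hb
      simp [Ne.symm hb]) (by simp)]
  simp

lemma depT_norm (d t : ℕ) (hd : 1 ≤ d) : hsNormSq (depT d t) = 1 := by
  unfold hsNormSq
  have hd' : (d : ℝ) ^ t ≠ 0 := by positivity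
  have e : ∀ i j k l : Fin t → Fin d, ‖depT d t (Matrix.single i j 1) k l‖ ^ 2 =
      (if i = j then 1 else 0) * (if k = l then 1 else 0) * (1 / (d : ℝ) ^ t) ^ 2 := by
    intro i j k l
    rw [depT_single]
    by_cases h1 : i = j <;> by_cases h2 : k = l <;> simp [h1, h2]
  simp only [e]
  simp only [← Finset.sum_mul, ← Finset.mul_sum]
  have c : (Fintype.card (Fin t → Fin d) : ℝ) = (d : ℝ) ^ t := by simp
  have e2 : ∑ i : Fin t → Fin d, ∑ j : Fin t → Fin d, (if i = j then (1 : ℝ) else 0) =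
      (d : ℝ) ^ t := by
    simp
  have e3 : ∑ i : Fin t → Fin d, ∑ j : Fin t → Fin d, ((if i = j then (1 : ℝ) else 0) *
      (d : ℝ) ^ t) = (d : ℝ) ^ t * (d : ℝ) ^ t := by
    simp only [← Finset.sum_mul]
    rw [e2]
  simp only [e2]
  field_simp

lemma cont_tk {d dE : ℕ} (t : ℕ) (ψ : Fin dE → ℂ) (x : Fin t → Fin dE) :
    Continuous fun V : UU (Fin d × Fin dE) =>
      tk t ψ (V : Matrix (Fin d × Fin dE) (Fin d × Fin dE) ℂ) x := by
  unfold tk
  refine continuous_matrix fun k i => ?_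
  simp only [Matrix.of_apply]
  refine continuous_finsetProd _ fun s _ => continuous_finsetSum _ fun y _ => ?_
  exact ((cont_coe (n := Fin d × Fin dE)).matrix_elem _ _).mul continuous_const

/-- the trace functional -/
noncomputable def trL (D : Type) [Fintype D] [DecidableEq D] : Matrix D D ℂ →ₗ[ℂ] ℂ :=
  Matrix.traceLinearMap D ℂ ℂ

lemma T_trace {d dE t : ℕ} (ψ : Fin dE → ℂ) (h : K2 d dE t ψ) (Y : MatT d t) :
    trace (cT d dE t ψ Y) = trace Y := by
  have hcont : Continuous fun V : UU (Fin d × Fin dE) =>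
      ∑ x, tk t ψ (V : Matrix (Fin d × Fin dE) (Fin d × Fin dE) ℂ) x * Y *
        (tk t ψ (V : Matrix (Fin d × Fin dE) (Fin d × Fin dE) ℂ) x)ᴴ :=
    continuous_finsetSum _ fun x _ =>
      ((cont_tk t ψ x).matrix_mul continuous_const).matrix_mul (cont_tk t ψ x).matrix_conjTranspose
  have e1 : trace (cT d dE t ψ Y) = trL _ (cT d dE t ψ Y) := rfl
  rw [e1, lin_int _ (fun i j => hcont.matrix_elem i j) (cT d dE t ψ Y) (fun i j => h.2.1 Y i j)]
  have e2 : ∀ V : UU (Fin d × Fin dE), trL _ (∑ x, tk t ψ (V : Matrix (Fin d × Fin dE)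
      (Fin d × Fin dE) ℂ) x * Y *
        (tk t ψ (V : Matrix (Fin d × Fin dE) (Fin d × Fin dE) ℂ) x)ᴴ) = trace Y := by
    intro V
    show trace (∑ x, tk t ψ (V : Matrix (Fin d × Fin dE)
      (Fin d × Fin dE) ℂ) x * Y *
        (tk t ψ (V : Matrix (Fin d × Fin dE) (Fin d × Fin dE) ℂ) x)ᴴ) = trace Y
    rw [Matrix.trace_sum]
    have e3 : ∀ x, trace (tk t ψ (V : Matrix (Fin d × Fin dE)
      (Fin d × Fin dE) ℂ) x * Y *
        (tk t ψ (V : Matrix (Fin d × Fin dE) (Fin d × Fin dE) ℂ) x)ᴴ) =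
        trace ((tk t ψ (V : Matrix (Fin d × Fin dE) (Fin d × Fin dE) ℂ) x)ᴴ *
          tk t ψ (V : Matrix (Fin d × Fin dE) (Fin d × Fin dE) ℂ) x * Y) := by
      intro x
      rw [Matrix.trace_mul_comm, ← Matrix.mul_assoc]
    simp_rw [e3]
    rw [← Matrix.trace_sum, ← Finset.sum_mul, h.1 V, Matrix.one_mul]
  simp_rw [e2]
  simp

lemma Tk_trace {d dE t : ℕ} (ψ : Fin dE → ℂ) (h : K2 d dE t ψ) (k : ℕ) :
    ∀ Y : MatT d t, trace (((cT d dE t ψ) ^ k) Y) = trace Y := by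
  induction k with
  | zero => intro Y; simp
  | succ k ih =>
    intro Y
    have : ((cT d dE t ψ) ^ (k + 1)) Y = ((cT d dE t ψ) ^ k) (cT d dE t ψ Y) := by
      rw [pow_succ]; rfl
    rw [this, ih, T_trace ψ h]

lemma cs {D : Type} [Fintype D] [DecidableEq D] (X : Matrix D D ℂ) (hX : trace X = 1) :
    1 ≤ (Fintype.card D : ℝ) * ∑ k, ∑ l, ‖X k l‖ ^ 2 := by
  have h1 : ‖∑ k, X k k‖ ≤ ∑ k, ‖X k k‖ := norm_sum_le _ _
  have h2 : (1 : ℝ) = ‖∑ k, X k k‖ := by
    have : ∑ k, X k k = 1 := hX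
    rw [this]; simp
  have h3 : (∑ k, ‖X k k‖) ^ 2 ≤ (Fintype.card D : ℝ) * ∑ k, ‖X k k‖ ^ 2 := by
    have := sq_sum_le_card_mul_sum_sq (s := (Finset.univ : Finset D)) (f := fun k => ‖X k k‖)
    simpa using this
  have h4 : ∑ k, ‖X k k‖ ^ 2 ≤ ∑ k, ∑ l, ‖X k l‖ ^ 2 := by
    refine Finset.sum_le_sum fun k _ => ?_
    exact Finset.single_le_sum (f := fun l => ‖X k l‖ ^ 2) (fun l _ => by positivity)
      (Finset.mem_univ k)
  have h5 : (1 : ℝ) ≤ (∑ k, ‖X k k‖) ^ 2 := by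
    have : (1 : ℝ) ≤ ∑ k, ‖X k k‖ := h2.le.trans h1
    nlinarith
  have h6 : (0 : ℝ) ≤ (Fintype.card D : ℝ) := by positivity
  calc (1 : ℝ) ≤ (Fintype.card D : ℝ) * ∑ k, ‖X k k‖ ^ 2 := h5.trans h3
    _ ≤ _ := mul_le_mul_of_nonneg_left h4 h6

theorem t_K8 (d dE t : ℕ) (hd : 1 ≤ d) (ψ : Fin dE → ℂ) (h : K2 d dE t ψ) : K8 d dE t ψ := by
  refine ⟨depT_norm d t hd, fun k => ?_⟩
  unfold hsNormSq
  set T := (cT d dE t ψ) ^ k with hT
  have h1 : ∀ i : Fin t → Fin d, 1 / ((d : ℝ) ^ t) ≤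
      ∑ a, ∑ b, ‖T (Matrix.single i i 1) a b‖ ^ 2 := by
    intro i
    have h2 : trace (T (Matrix.single i i 1)) = 1 := by
      rw [hT, Tk_trace ψ h, Matrix.trace_single_eq_same]
    have h3 := cs _ h2
    have c : (Fintype.card (Fin t → Fin d) : ℝ) = (d : ℝ) ^ t := by simp
    rw [c] at h3
    have hp : (0 : ℝ) < (d : ℝ) ^ t := by positivity
    rw [div_le_iff₀ hp, mul_comm]
    exact h3
  have h4 : ∀ i : Fin t → Fin d, ∑ a, ∑ b, ‖T (Matrix.single i i 1) a b‖ ^ 2 ≤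
      ∑ j, ∑ a, ∑ b, ‖T (Matrix.single i j 1) a b‖ ^ 2 := by
    intro i
    exact Finset.single_le_sum (f := fun j => ∑ a, ∑ b, ‖T (Matrix.single i j 1) a b‖ ^ 2)
      (fun j _ => by positivity) (Finset.mem_univ i)
  have h5 : ∑ i : Fin t → Fin d, 1 / ((d : ℝ) ^ t) = 1 := by
    have hp : ((d : ℝ) ^ t) ≠ 0 := by positivity
    simp [hp]
  calc (1 : ℝ) = ∑ i : Fin t → Fin d, 1 / ((d : ℝ) ^ t) := h5.symm
    _ ≤ _ := Finset.sum_le_sum fun i _ => (h1 i).trans (h4 i)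

end Pool.Agent.T5h70.NH.K8
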