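import Pool.Agent.T5h70.NH.Stm

/-! Task POSL (helper39). -/

open Matrix MeasureTheory
open scoped BigOperators ComplexConjugate ComplexOrder

namespace Pool.Agent.T5h70.NH.POSL

theorem le_of_strictMono {d : ℕ} {f : Fin d → ℕ} (hf : StrictMono f) (i : Fin d) : (i : ℕ) ≤ f i := by
  obtain ⟨i, hi⟩ := i
  induction i with
  | zero => exact Nat.zero_le _
  | succ i ih =>
    have h1 := ih (by omega)
    have h2 : f ⟨i, by omega⟩ < f ⟨i + 1, hi⟩ := hf (by simp [Fin.lt_def])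
    simp only at h1 ⊢
    omega

theorem sub_mono {d : ℕ} {f : Fin d → ℕ} (hf : StrictMono f) :
    Monotone fun i : Fin d => ((f i : ℝ) - (i : ℕ)) := by
  have key : ∀ (k : ℕ) (a b : Fin d), (b : ℕ) = a + k → (f a : ℝ) - (a : ℕ) ≤ (f b : ℝ) - (b : ℕ) := by
    intro k
    induction k with
    | zero =>
      intro a b hab
      have : a = b := Fin.ext (by omega)
      rw [this]
    | succ k ih =>
      intro a b hab
      have hb := b.2
      have h1 := ih a ⟨a + k, by omega⟩ rfl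
      have h2 : f ⟨a + k, by omega⟩ < f b := hf (by rw [Fin.lt_def]; simp only; omega)
      have h3 : ((f ⟨a + k, by omega⟩ : ℕ) : ℝ) + 1 ≤ f b := by exact_mod_cast h2
      have h4 : ((b : ℕ) : ℝ) = (a : ℕ) + k + 1 := by rw [hab]; push_cast; ring
      simp only at h1
      push_cast at h1
      rw [h4]
      linarith
  intro a b hab
  exact key ((b : ℕ) - a) a b (by rw [Fin.le_def] at hab; omega)

theorem t_POSL (d : ℕ) : POSL d := by
  intro t l ht hl hsum
  set σ := Tuple.sort l with hσ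
  have hm : StrictMono (l ∘ σ) :=
    (Tuple.monotone_sort l).strictMono_of_injective (hl.comp σ.injective)
  set m : Fin d → ℕ := l ∘ σ with hmd
  have hms : ∑ i, m i = t + d * (d - 1) / 2 := by
    rw [← hsum]; exact Equiv.sum_comp σ l
  have hms2 : ∑ i, (l i : ℝ) ^ 2 = ∑ i, (m i : ℝ) ^ 2 :=
    (Equiv.sum_comp σ (fun i => (l i : ℝ) ^ 2)).symm
  rw [hms2]
  set lam : Fin d → ℝ := fun i => (m i : ℝ) - (i : ℕ) with hlam
  have hmono : Monotone lam := sub_mono hm
  have hj : ∑ j : Fin d, ((j : ℕ) : ℝ) = (d : ℝ) * (d - 1) / 2 := by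
    rw [Fin.sum_univ_eq_sum_range (fun j => (j : ℝ)) d]
    have := Finset.sum_range_id_mul_two d
    have h2 : ((∑ i ∈ Finset.range d, i : ℕ) : ℝ) * 2 = (d : ℝ) * (d - 1) := by
      rcases Nat.eq_zero_or_pos d with h0 | h0
      · subst h0; simp
      · have h3 : ((d - 1 : ℕ) : ℝ) = (d : ℝ) - 1 := by
          rw [Nat.cast_sub h0]; simp
        rw [← h3]; exact_mod_cast this
    push_cast at h2
    linarith
  have hd2 : ((d * (d - 1) / 2 : ℕ) : ℝ) = (d : ℝ) * (d - 1) / 2 := by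
    have h1 : (∑ i ∈ Finset.range d, i : ℕ) = d * (d - 1) / 2 := Finset.sum_range_id d
    rw [← h1, ← hj, Fin.sum_univ_eq_sum_range (fun j => (j : ℝ)) d]
    push_cast
    rfl
  have hlamsum : ∑ i, lam i = t := by
    rw [hlam, Finset.sum_sub_distrib, hj]
    have : ((∑ i, m i : ℕ) : ℝ) = t + (d : ℝ) * (d - 1) / 2 := by
      rw [hms, Nat.cast_add, hd2]
    push_cast at this
    rw [this]; ring
  -- Chebyshev
  have hcheb : (∑ i : Fin d, ((i : ℕ) : ℝ)) * ∑ i, lam i ≤
      (Fintype.card (Fin d) : ℝ) * ∑ i : Fin d, ((i : ℕ) : ℝ) * lam i := by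
    apply Monovary.sum_mul_sum_le_card_mul_sum
    intro a b hab
    have : a < b := by
      by_contra hcon
      exact absurd (hmono (not_lt.1 hcon)) (not_le.2 hab)
    change ((a : ℕ) : ℝ) ≤ ((b : ℕ) : ℝ)
    exact_mod_cast this.le
  rw [Fintype.card_fin, hj, hlamsum] at hcheb
  have hdpos : 0 < d := by
    rcases Nat.eq_zero_or_pos d with h0 | h0
    · subst h0
      simp at hsum
      omega
    · exact h0
  have hdR : (0 : ℝ) < d := by exact_mod_cast hdpos
  have hcheb2 : ((d : ℝ) - 1) / 2 * t ≤ ∑ i : Fin d, ((i : ℕ) : ℝ) * lam i := by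
    have : (d : ℝ) * (((d : ℝ) - 1) / 2 * t) ≤ d * ∑ i : Fin d, ((i : ℕ) : ℝ) * lam i := by
      calc (d : ℝ) * (((d : ℝ) - 1) / 2 * t) = (d : ℝ) * (d - 1) / 2 * t := by ring
        _ ≤ _ := hcheb
    exact le_of_mul_le_mul_left this hdR
  have hsq : 0 < ∑ i, lam i ^ 2 := by
    have h0 : 0 ≤ ∑ i, lam i ^ 2 := Finset.sum_nonneg fun i _ => sq_nonneg _
    rcases h0.lt_or_eq with h1 | h1
    · exact h1
    · exfalso
      have h2 : ∀ i ∈ Finset.univ, lam i ^ 2 = 0 :=
        (Finset.sum_eq_zero_iff_of_nonneg (fun i _ => sq_nonneg _)).1 h1.symm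
      have h3 : ∑ i, lam i = 0 := Finset.sum_eq_zero fun i hi => pow_eq_zero_iff (two_ne_zero) |>.1 (h2 i hi)
      rw [hlamsum] at h3
      have : t = 0 := by exact_mod_cast h3
      omega
  have hexp : ∑ i, (m i : ℝ) ^ 2 =
      ∑ j : Fin d, ((j : ℕ) : ℝ) ^ 2 + 2 * ∑ i : Fin d, ((i : ℕ) : ℝ) * lam i + ∑ i, lam i ^ 2 := by
    rw [Finset.mul_sum, ← Finset.sum_add_distrib, ← Finset.sum_add_distrib]
    apply Finset.sum_congr rfl
    intro i _
    simp only [hlam]
    ring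
  rw [hexp]
  linarith

end Pool.Agent.T5h70.NH.POSL
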