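import Pool.Agent.T5h70.NH.T_SD1

open Matrix MeasureTheory
open scoped BigOperators ComplexConjugate ComplexOrder Topology

namespace Pool.Agent.T5h70.NH.SD2

open Pool.Agent.V11219.MomentOp Pool.Agent.T5h70.NH.HaarD Pool.Agent.T5h70.NH.SD1

theorem t_SD2 (d : ℕ) (h1 : SDL d) (h2 : SDR d) : SD2 d := by
  intro t x i j ht
  obtain ⟨a, rfl⟩ : ∃ a, t = a + 1 := ⟨t - 1, by omega⟩
  have hce : ∀ i j : Fin d, Continuous fun V : UU (Fin d) => (V : Mat d) i j := fun i j =>
    cont_coe.matrix_elem i j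
  have i1 : ∀ i : Fin d, Integrable (fun V : UU (Fin d) => (V : Mat d) i i * S x (V : Mat d) ^ a *
      (conj (trace (V : Mat d))) ^ (a + 1)) (haarU (Fin d)) := fun i =>
    integrable_of_cont (((hce i i).mul ((cont_S x).pow _)).mul (cont_ct.pow _))
  have i2 : Integrable (fun V : UU (Fin d) => (V : Mat d) i j * (V : Mat d) j i *
      S x (V : Mat d) ^ (a - 1) * (conj (trace (V : Mat d))) ^ (a + 1)) (haarU (Fin d)) :=
    integrable_of_cont ((((hce i j).mul (hce j i)).mul ((cont_S x).pow _)).mul (cont_ct.pow _))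
  have i3 : Integrable (fun V : UU (Fin d) => (V : Mat d) i j * conj ((V : Mat d) i j) *
      S x (V : Mat d) ^ a * (conj (trace (V : Mat d))) ^ a) (haarU (Fin d)) :=
    integrable_of_cont ((((hce i j).mul (Complex.continuous_conj.comp (hce i j))).mul
      ((cont_S x).pow _)).mul (cont_ct.pow _))
  have e1 : ∫ V : UU (Fin d), (1 * ((V : Mat d) j j * S x (V : Mat d) ^ a *
      (conj (trace (V : Mat d))) ^ (a + 1)) + ((a : ℂ) * x i) * ((V : Mat d) i j * (V : Mat d) j i *
      S x (V : Mat d) ^ (a - 1) * (conj (trace (V : Mat d))) ^ (a + 1)) - ((a : ℂ) + 1) *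
      ((V : Mat d) i j * conj ((V : Mat d) i j) *
      S x (V : Mat d) ^ a * (conj (trace (V : Mat d))) ^ a)) ∂(haarU (Fin d)) = 0 := by
    rw [← h1 (Matrix.single j i 1) (Matrix.single i j 1) (Matrix.diagonal x) a (a + 1)]
    refine integral_congr_ae (Filter.Eventually.of_forall fun V => ?_)
    simp only [Matrix.single_mul_single_same, mul_one, tr_single, tr_diag_single, tr_diag,
      tr_mul_single, Matrix.conjTranspose_apply, S,
      Nat.cast_add, Nat.cast_one, Nat.add_sub_cancel, RCLike.star_def]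
    ring
  have e2 : ∫ V : UU (Fin d), (1 * ((V : Mat d) i i * S x (V : Mat d) ^ a *
      (conj (trace (V : Mat d))) ^ (a + 1)) + ((a : ℂ) * x j) * ((V : Mat d) i j * (V : Mat d) j i *
      S x (V : Mat d) ^ (a - 1) * (conj (trace (V : Mat d))) ^ (a + 1)) - ((a : ℂ) + 1) *
      ((V : Mat d) i j * conj ((V : Mat d) i j) *
      S x (V : Mat d) ^ a * (conj (trace (V : Mat d))) ^ a)) ∂(haarU (Fin d)) = 0 := by
    rw [← h2 (Matrix.single j i 1) (Matrix.single i j 1) (Matrix.diagonal x) a (a + 1)]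
    refine integral_congr_ae (Filter.Eventually.of_forall fun V => ?_)
    have f1 : trace (Matrix.single j i 1 * (V : Mat d) * Matrix.single i j 1) = (V : Mat d) i i := by
      rw [Matrix.trace_mul_comm, ← Matrix.mul_assoc, Matrix.single_mul_single_same, mul_one,
        tr_single]
    have f2 : trace (Matrix.diagonal x * (V : Mat d) * Matrix.single i j 1) =
        x j * (V : Mat d) j i := by
      rw [tr_mul_single, Matrix.diagonal_mul]
    simp only [f1, f2, tr_single, tr_diag, Matrix.conjTranspose_apply, S,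
      Nat.cast_add, Nat.cast_one, Nat.add_sub_cancel, RCLike.star_def]
    ring
  replace e1 := (int_lin (i1 j) i2 i3 1 ((a : ℂ) * x i) ((a : ℂ) + 1)).symm.trans e1
  replace e2 := (int_lin (i1 i) i2 i3 1 ((a : ℂ) * x j) ((a : ℂ) + 1)).symm.trans e2
  have e3 : ∫ V : UU (Fin d), ((V : Mat d) i i - (V : Mat d) j j) *
      (∑ k, x k * (V : Mat d) k k) ^ (a + 1 - 1) * (conj (trace (V : Mat d))) ^ (a + 1)
        ∂(haarU (Fin d)) = (∫ V : UU (Fin d), (V : Mat d) i i * S x (V : Mat d) ^ a *
      (conj (trace (V : Mat d))) ^ (a + 1) ∂(haarU (Fin d))) -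
      ∫ V : UU (Fin d), (V : Mat d) j j * S x (V : Mat d) ^ a *
      (conj (trace (V : Mat d))) ^ (a + 1) ∂(haarU (Fin d)) := by
    rw [← integral_sub (i1 i) (i1 j)]
    refine integral_congr_ae (Filter.Eventually.of_forall fun V => ?_)
    simp only [S, Nat.add_sub_cancel]
    ring
  have e4 : qI d (a + 1) i j x = ∫ V : UU (Fin d), (V : Mat d) i j * (V : Mat d) j i *
      S x (V : Mat d) ^ (a - 1) * (conj (trace (V : Mat d))) ^ (a + 1) ∂(haarU (Fin d)) := rfl
  rw [e3, Nat.cast_add, Nat.cast_one, add_sub_cancel_right, e4]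
  linear_combination e1 - e2

end Pool.Agent.T5h70.NH.SD2
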