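import Pool.Agent.T5h70.NH.V22

/-!
# Task V1 of the project NH (helper22)
-/

set_option autoImplicit false

namespace Pool.Agent.T5h70.NH

theorem t_V1 (d : ℕ) : V1 d := V22.t_V1 d

end Pool.Agent.T5h70.NH
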