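import Pool.Agent.T5h70.NH.Fin
import Pool.Agent.T2h97.NH.A5
import Pool.Agent.T5h70.NH.T_A4
import Pool.Agent.T5h70.NH.T_K4
import Pool.Agent.T5h70.NH.T_K6
import Pool.Agent.T5h70.NH.T_K7
import Pool.Agent.T5h70.NH.T_K8
import Pool.Agent.T5h70.NH.T_SD2
import Pool.Agent.T5h70.NH.T_SDR
import Pool.Agent.T5h70.NH.T_FE
import Pool.Agent.T5h70.NH.T_FD
import Pool.Agent.T5h70.NH.T_FS
import Pool.Agent.T5h70.NH.T_FAM
import Pool.Agent.T5h70.NH.T_FORM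
import Pool.Agent.T5h70.NH.T_POSL
import Pool.Agent.T5h70.NH.T_V1
import Pool.Agent.T5h70.NH.T_V2
import Pool.Agent.T5h70.NH.T_V3
import Pool.Agent.T5h70.NH.T_CONJ
import Pool.Agent.T5h70.NH.T_BASE
import Pool.Agent.T5h70.NH.T_BR
import Pool.Agent.T5h70.NH.T_AE0
import Pool.Agent.T5h70.NH.T_AE
import Pool.Agent.T5h70.NH.T_AN

set_option autoImplicit false

namespace Pool.Agent.T5h70.NH.All

open Pool.Agent.T5h70.NH

theorem sd1 (d : ℕ) : SD1 d := SD1.t_SD1 d (SDL.t_SDL d)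

theorem sd2 (d : ℕ) : SD2 d := SD2.t_SD2 d (SDL.t_SDL d) (SDR.t_SDR d)

theorem fam (d : ℕ) : FamStm d :=
  FAM.t_FAM d (sd1 d) (sd2 d) (FE.t_FE d) (FS.t_FS d) (FD.t_FD d)

theorem form (d : ℕ) : FORM d :=
  FORM.t_FORM d (fam d) (t_V3 d) (CONJ.t_CONJ d) (POSL.t_POSL d) (BASE.t_BASE d) (FE.t_FE d)

theorem an (d : ℕ) : AN d := AN.t_AN d (t_AE BR.t_BR AE0.t_AE0)

theorem a4 (d : ℕ) : A4 d :=
  t_A4 d (form d) (t_A3 d (an d) (t_A2 d (t_V1 d) (t_V2 d) (t_A1 d)))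

theorem a6 (d : ℕ) : A6 d := Pool.Agent.T2h97.NH.t_A6 d (Pool.Agent.T2h97.NH.t_A5 d (a4 d))

end Pool.Agent.T5h70.NH.All
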