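import Pool.Agent.T5h70.NH.Stm

/-!
# Antisymmetrisation and reindexing (helper78; for A1, A2, A3)
-/

set_option autoImplicit false

open scoped BigOperators

namespace Pool.Agent.T5h70.NH

section

variable {d : ℕ}

theorem vd_eq {R : Type*} [CommRing R] (x : Fin d → R) :
    vd x = (∏ i : Fin d, ∏ _j ∈ Finset.univ.filter (fun j => i < j), (-1 : R)) *
      (Matrix.vandermonde x).det := by
  rw [Matrix.det_vandermonde, ← Finset.prod_mul_distrib]
  unfold vd
  refine Finset.prod_congr rfl fun i _ => ?_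
  have h : Finset.Ioi i = Finset.univ.filter (fun j => i < j) := by
    ext j; simp
  rw [h, ← Finset.prod_mul_distrib]
  refine Finset.prod_congr rfl fun j _ => ?_
  ring

theorem vd_perm {R : Type*} [CommRing R] (x : Fin d → R) (σ : Equiv.Perm (Fin d)) :
    vd (fun i => x (σ i)) = ((Equiv.Perm.sign σ : ℤ) : R) * vd x := by
  rw [vd_eq, vd_eq]
  have h : Matrix.vandermonde (fun i => x (σ i)) = (Matrix.vandermonde x).submatrix σ id := by
    ext i j
    simp [Matrix.vandermonde_apply]
  rw [h, Matrix.det_permute]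
  ring

theorem vn_perm (R : Type*) [CommRing R] (l : Fin d → ℕ) (σ : Equiv.Perm (Fin d)) :
    vn R (l ∘ σ) = ((Equiv.Perm.sign σ : ℤ) : R) * vn R l := by
  unfold vn
  exact vd_perm (fun i => (l i : R)) σ

theorem vn_cast (l : Fin d → ℕ) : ((vn ℝ l : ℝ) : ℂ) = vn ℂ l := by
  unfold vn vd
  push_cast
  rfl

theorem kap_perm (l : Fin d → ℕ) (σ : Equiv.Perm (Fin d)) : kap (l ∘ σ) = kap l := by
  unfold kap
  congr 2
  exact Equiv.prod_comp σ (fun i => ((l i).factorial : ℝ))

theorem al_perm (x : Fin d → ℝ) (l : Fin d → ℕ) (σ : Equiv.Perm (Fin d)) :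
    al x (l ∘ σ) = ((Equiv.Perm.sign σ : ℤ) : ℝ) * al x l := by
  unfold al
  have h : (Matrix.of fun i j => x i ^ (l ∘ σ) j) =
      (Matrix.of fun i j => x i ^ l j).submatrix id σ := by
    ext i j; rfl
  rw [h, Matrix.det_permute']

theorem mem_pi {N : ℕ} {l : Fin d → ℕ} :
    l ∈ Finset.piAntidiag Finset.univ N ↔ ∑ i, l i = N := by
  simp [Finset.mem_piAntidiag]

/-- antisymmetrisation -/
theorem antisymm (F : (Fin d → ℕ) → ℝ)
    (hF : ∀ (l : Fin d → ℕ) (σ : Equiv.Perm (Fin d)),
      F (l ∘ σ) = ((Equiv.Perm.sign σ : ℤ) : ℝ) * F l) (x : Fin d → ℝ) (N : ℕ) :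
    ∑ l ∈ Finset.piAntidiag Finset.univ N, F l * al x l =
      (d.factorial : ℝ) * ∑ l ∈ Finset.piAntidiag Finset.univ N, F l * ∏ i, x i ^ l i := by
  have h1 : ∀ l : Fin d → ℕ, F l * al x l =
      ∑ σ : Equiv.Perm (Fin d), ((Equiv.Perm.sign σ : ℤ) : ℝ) * F l * ∏ i, x (σ i) ^ l i := by
    intro l
    unfold al
    rw [Matrix.det_apply', Finset.mul_sum]
    refine Finset.sum_congr rfl fun σ _ => ?_
    simp only [Matrix.of_apply]
    ring
  simp only [h1]
  rw [Finset.sum_comm]
  have h2 : ∀ σ : Equiv.Perm (Fin d),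
      ∑ l ∈ Finset.piAntidiag Finset.univ N,
        ((Equiv.Perm.sign σ : ℤ) : ℝ) * F l * ∏ i, x (σ i) ^ l i =
      ∑ l ∈ Finset.piAntidiag Finset.univ N, F l * ∏ i, x i ^ l i := by
    intro σ
    refine Finset.sum_nbij' (fun l => l ∘ σ.symm) (fun l => l ∘ σ) ?_ ?_ ?_ ?_ ?_
    · intro l hl
      rw [mem_pi] at hl ⊢
      rw [← hl]
      exact Equiv.sum_comp σ.symm l
    · intro l hl
      rw [mem_pi] at hl ⊢
      rw [← hl]
      exact Equiv.sum_comp σ l
    · intro l _
      funext i
      simp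
    · intro l _
      funext i
      simp
    · intro l _
      have h3 : F l = ((Equiv.Perm.sign σ : ℤ) : ℝ) * F (l ∘ σ.symm) := by
        rw [← hF]
        congr 1
        funext i
        simp
      have h4 : ∏ i, x i ^ (l ∘ σ.symm) i = ∏ i, x (σ i) ^ l i := by
        rw [← Equiv.prod_comp σ]
        refine Finset.prod_congr rfl fun i _ => ?_
        simp
      rw [h4, h3]
      have h5 : ((Equiv.Perm.sign σ : ℤ) : ℝ) * ((Equiv.Perm.sign σ : ℤ) : ℝ) = 1 := by
        rw [← Int.cast_mul, ← Units.val_mul, Int.units_mul_self]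
        simp
      linear_combination (F (l ∘ σ.symm) * ∏ i, x (σ i) ^ l i) * h5
  rw [Finset.sum_congr rfl fun σ _ => h2 σ, Finset.sum_const, Finset.card_univ,
    Fintype.card_perm, Fintype.card_fin, nsmul_eq_mul]

/-- reindexing `l = m + e_i` -/
theorem reindex (H : (Fin d → ℕ) → Fin d → ℝ) (hH : ∀ l i, l i = 0 → H l i = 0) (N : ℕ) :
    ∑ l ∈ Finset.piAntidiag Finset.univ (N + 1), ∑ i, H l i =
      ∑ m ∈ Finset.piAntidiag Finset.univ N, ∑ i, H (Function.update m i (m i + 1)) i := by
  rw [Finset.sum_comm]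
  conv_rhs => rw [Finset.sum_comm]
  refine Finset.sum_congr rfl fun i _ => ?_
  rw [← Finset.sum_filter_add_sum_filter_not (Finset.piAntidiag Finset.univ (N + 1))
    (fun l => l i = 0) (fun l => H l i)]
  rw [Finset.sum_eq_zero (s := (Finset.piAntidiag Finset.univ (N + 1)).filter (fun l => l i = 0))
    (fun l hl => hH l i (Finset.mem_filter.1 hl).2), zero_add]
  refine Finset.sum_nbij' (fun l => Function.update l i (l i - 1))
    (fun m => Function.update m i (m i + 1)) ?_ ?_ ?_ ?_ ?_
  · intro l hl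
    rw [Finset.mem_filter, mem_pi] at hl
    rw [mem_pi, Finset.sum_update_of_mem (Finset.mem_univ i)]
    have h1 := Finset.sum_erase_add Finset.univ l (Finset.mem_univ i)
    rw [hl.1] at h1
    have h2 : (Finset.univ \ {i}) = Finset.univ.erase i := by
      ext j; simp
    rw [h2]
    have h3 := hl.2
    omega
  · intro m hm
    rw [mem_pi] at hm
    rw [Finset.mem_filter, mem_pi, Finset.sum_update_of_mem (Finset.mem_univ i)]
    have h1 := Finset.sum_erase_add Finset.univ m (Finset.mem_univ i)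
    rw [hm] at h1
    have h2 : (Finset.univ \ {i}) = Finset.univ.erase i := by
      ext j; simp
    rw [h2]
    refine ⟨by omega, ?_⟩
    simp
  · intro l hl
    rw [Finset.mem_filter] at hl
    have h3 := hl.2
    rw [Function.update_idem, Function.update_self]
    have h4 : l i - 1 + 1 = l i := by omega
    rw [h4, Function.update_eq_self]
  · intro m _
    rw [Function.update_idem, Function.update_self]
    have h4 : m i + 1 - 1 = m i := by omega
    rw [h4, Function.update_eq_self]
  · intro l hl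
    rw [Finset.mem_filter] at hl
    have h3 := hl.2
    rw [Function.update_idem, Function.update_self]
    have h4 : l i - 1 + 1 = l i := by omega
    rw [h4, Function.update_eq_self]

end

end Pool.Agent.T5h70.NH
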