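import Pool.Agent.T5h70.NH.Stm

open Matrix MeasureTheory
open scoped BigOperators ComplexConjugate ComplexOrder

namespace Pool.Agent.T5h70.NH

open Pool.Agent.V11219.MomentOp

theorem final {d dE t : ℕ} {ψ : Fin dE → ℂ} (h3 : K3 d dE t ψ) (h4 : K4 d dE t ψ) (h5 : K5 d t)
    (h6 : K6 d dE t ψ) (h7 : K7 d t) (h8 : K8 d dE t ψ) (k : ℕ) (hk : 1 ≤ k) :
    hsNormSq (depT d t) = 1 ∧ 1 ≤ N t k d dE ψ ∧ N t k d dE ψ ≤ hsNormSq (haarT d t) := by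
  refine ⟨h8.1, h8.2 k, ?_⟩
  rw [N_eq, h7]
  refine (h4 k hk).trans ?_
  have hM : ∀ W : UU (Fin d), tp t (W : Mat d) * (((cT d dE t ψ) ^ k) 1) * (tp t (W : Mat d))ᴴ =
      ((cT d dE t ψ) ^ k) 1 := by
    intro W
    obtain ⟨m, rfl⟩ : ∃ m, k = m + 1 := ⟨k - 1, by omega⟩
    rw [pow_succ']
    exact h3 W _
  have h := congrArg Complex.re (h5 _ hM)
  simp only [Complex.re_sum] at h
  rw [h]
  exact h6 k

end Pool.Agent.T5h70.NH
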