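import Pool.Agent.T5h70.NH.Stm

/-!
# Derivatives along one-parameter groups under the Haar integral (for the tasks SDL, SDR)
-/

open Matrix MeasureTheory
open scoped BigOperators ComplexConjugate ComplexOrder Topology

namespace Pool.Agent.T5h70.NH.HaarD

open Pool.Agent.V11219.MomentOp

section general

variable {n : Type} [Fintype n] [DecidableEq n]

lemma shiftR (W : UU n) (f : UU n → ℂ) : ∫ V, f (V * W) ∂(haarU n) = ∫ V, f V ∂(haarU n) := by
  have hmap : Measure.map (fun V : UU n => V * W) (haarU n) = haarU n := by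
    have : IsProbabilityMeasure (Measure.map (fun V : UU n => V * W) (haarU n)) :=
      Measure.isProbabilityMeasure_map (measurable_mul_const W).aemeasurable
    have : (Measure.map (fun V : UU n => V * W) (haarU n)).IsHaarMeasure :=
      Measure.isHaarMeasure_map_mul_right _ _
    exact Measure.isHaarMeasure_eq_of_isProbabilityMeasure _ _
  have : (haarU n).IsMulRightInvariant := ⟨fun g => by
    have : IsProbabilityMeasure (Measure.map (fun V : UU n => V * g) (haarU n)) :=
      Measure.isProbabilityMeasure_map (measurable_mul_const g).aemeasurable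
    have : (Measure.map (fun V : UU n => V * g) (haarU n)).IsHaarMeasure :=
      Measure.isHaarMeasure_map_mul_right _ _
    exact Measure.isHaarMeasure_eq_of_isProbabilityMeasure _ _⟩
  exact integral_mul_right_eq_self f W

lemma int_deriv_zero (act : ℝ → UU n → UU n) (hact : ∀ s, Continuous (act s))
    (h0 : ∀ V, act 0 V = V)
    (hinv : ∀ s (f : UU n → ℂ), ∫ V, f (act s V) ∂(haarU n) = ∫ V, f V ∂(haarU n))
    (f g : UU n → ℂ) (hf : Continuous f) (hg : Continuous g)
    (hd : ∀ V s, HasDerivAt (fun s => f (act s V)) (g (act s V)) s) :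
    ∫ V, g V ∂(haarU n) = 0 := by
  obtain ⟨C, hC⟩ : ∃ C : ℝ, ∀ V, ‖g V‖ ≤ C := by
    obtain ⟨C, hC⟩ := isCompact_univ.exists_bound_of_continuousOn hg.continuousOn
    exact ⟨C, fun V => hC V trivial⟩
  have key := hasDerivAt_integral_of_dominated_loc_of_deriv_le (μ := haarU n)
    (F := fun s V => f (act s V)) (F' := fun s V => g (act s V)) (x₀ := (0 : ℝ)) (s := Set.univ)
    (bound := fun _ => C) Filter.univ_mem
    (Filter.Eventually.of_forall fun s => (hf.comp (hact s)).aestronglyMeasurable)
    (integrable_of_cont (hf.comp (hact 0)))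
    ((hg.comp (hact 0)).aestronglyMeasurable)
    (Filter.Eventually.of_forall fun V s _ => hC _) (integrable_const _)
    (Filter.Eventually.of_forall fun V s _ => hd V s)
  have h1 := key.2
  simp only [hinv, h0] at h1
  exact h1.unique (hasDerivAt_const _ _)

end general

variable {d : ℕ}

lemma cont_coe : Continuous fun V : UU (Fin d) => (V : Mat d) := continuous_subtype_val

lemma cont_trace {α : Type*} [TopologicalSpace α] {f : α → Mat d} (hf : Continuous f) :
    Continuous fun x => trace (f x) := by
  unfold Matrix.trace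
  exact continuous_finsetSum _ fun i _ => hf.matrix_elem i i

section expo

attribute [local instance] Matrix.linftyOpNormedRing Matrix.linftyOpNormedAlgebra

lemma deriv_exp (K : Mat d) (L : Mat d →ₗ[ℝ] ℂ) (s : ℝ) :
    HasDerivAt (fun s : ℝ => L (NormedSpace.exp (s • K))) (L (K * NormedSpace.exp (s • K))) s := by
  have h := hasDerivAt_exp_smul_const' (𝕂 := ℝ) K s
  have h2 := (L.toContinuousLinearMap).hasFDerivAt.comp_hasDerivAt s h
  exact h2

lemma deriv_exp' (K : Mat d) (L : Mat d →ₗ[ℝ] ℂ) (s : ℝ) :
    HasDerivAt (fun s : ℝ => L (NormedSpace.exp (s • K))) (L (NormedSpace.exp (s • K) * K)) s := by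
  have h := hasDerivAt_exp_smul_const (𝕂 := ℝ) K s
  have h2 := (L.toContinuousLinearMap).hasFDerivAt.comp_hasDerivAt s h
  exact h2

end expo

/-- the one-parameter group -/
noncomputable def ex (K : Mat d) (s : ℝ) : Mat d := NormedSpace.exp (s • K)

lemma ex_zero (K : Mat d) : ex K 0 = 1 := by
  unfold ex
  rw [zero_smul, NormedSpace.exp_zero]

lemma ex_mem {K : Mat d} (hK : Kᴴ = -K) (s : ℝ) : ex K s ∈ Matrix.unitaryGroup (Fin d) ℂ := by
  rw [Matrix.mem_unitaryGroup_iff, Matrix.star_eq_conjTranspose]
  unfold ex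
  rw [← Matrix.exp_conjTranspose, Matrix.conjTranspose_smul, hK, smul_neg, star_trivial,
    ← Matrix.exp_add_of_commute, add_neg_cancel, NormedSpace.exp_zero]
  exact (Commute.refl (s • K)).neg_right

/-- the unitary one-parameter group -/
noncomputable def ux {K : Mat d} (hK : Kᴴ = -K) (s : ℝ) : UU (Fin d) := ⟨ex K s, ex_mem hK s⟩

end Pool.Agent.T5h70.NH.HaarD
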