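import Pool.Agent.V11219.MomentOp2

/-!
# Norm hierarchy for moment operators of random quantum channels (MP_a4cf75_mp, Q1)

Theorem: `1 = ‖T_Dep‖² ≤ N_{t,k}(d, d_E) ≤ ‖T_Haar‖²` for all parameters.

Plan.  (K) Kadison-Schwarz and the Haar twirl give `N_{t,k} ≤ Re ℓ(T^k 1)`, where
`ℓ(M) = ∫ Tr(V^{⊗t}) Tr(M (V^{⊗t})ᴴ) dV`; and `T^k 1` is an average of `Y^{⊗t}` with `Y ≥ 0`,
`Tr Y = d`.
(II) for `Y ≥ 0`, `Tr Y = d`:  `Re ℓ(Y^{⊗t}) ≤ Re ℓ(1) = ∫ |Tr V|^{2t} = ‖T_Haar‖²`.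
(II) is proved through an explicit formula for `G_t(x) = ∫ (∑ x_i V_ii)^t conj(Tr V)^t dV`
(tasks H, P) and a Chebyshev type inequality for alternants (tasks A).
-/

open Matrix MeasureTheory
open scoped BigOperators ComplexConjugate ComplexOrder

namespace Pool.Agent.T5h70.NH

open Pool.Agent.V11219.MomentOp

/-! ## Haar integrals -/

/-- `G_t(x) = ∫ (∑ x_i V_ii)^t conj(Tr V)^t dV` over `U(d)`. -/
noncomputable def gI (d t : ℕ) (x : Fin d → ℂ) : ℂ :=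
  ∫ V : UU (Fin d), (∑ i, x i * (V : Matrix (Fin d) (Fin d) ℂ) i i) ^ t *
    (conj (trace (V : Matrix (Fin d) (Fin d) ℂ))) ^ t ∂(haarU (Fin d))

/-- `∫ (Tr (Y V))^t conj(Tr V)^t dV` over `U(d)`. -/
noncomputable def gM (d t : ℕ) (Y : Mat d) : ℂ :=
  ∫ V : UU (Fin d), (trace (Y * (V : Matrix (Fin d) (Fin d) ℂ))) ^ t *
    (conj (trace (V : Matrix (Fin d) (Fin d) ℂ))) ^ t ∂(haarU (Fin d))

/-- TASK `SDL` (≈150 lines).  Invariance of Haar measure under `V ↦ exp(s K) V`, differentiated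
at `s = 0`, for skew-Hermitian `K`; both sides are ℂ-linear in `K` (note that for skew-Hermitian
`K` the derivative of `conj (Tr V) = Tr (Vᴴ)` is `Tr ((K V)ᴴ) = - Tr (Vᴴ K)`), and every `K` is
`K₁ + i K₂` with `K₁, K₂` skew-Hermitian. -/
def SDL (d : ℕ) : Prop := ∀ (B K X : Mat d) (a b : ℕ),
  ∫ V : UU (Fin d),
    (trace (B * K * (V : Mat d)) * trace (X * (V : Mat d)) ^ a * (conj (trace (V : Mat d))) ^ b
      + a * trace (B * (V : Mat d)) * trace (X * K * (V : Mat d)) * trace (X * (V : Mat d)) ^ (a - 1)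
          * (conj (trace (V : Mat d))) ^ b
      - b * trace (B * (V : Mat d)) * trace (X * (V : Mat d)) ^ a
          * (conj (trace (V : Mat d))) ^ (b - 1) * trace ((V : Mat d)ᴴ * K)) ∂(haarU (Fin d)) = 0

/-- TASK `SDR` (≈150 lines).  Same as `SDL` for `V ↦ V exp(s K)` (`haarU` is also right
invariant: compact groups are unimodular; Mathlib has `IsMulRightInvariant` instances/lemmas for
Haar measures on compact groups, or use that `haarU` is invariant under inversion). -/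
def SDR (d : ℕ) : Prop := ∀ (B K X : Mat d) (a b : ℕ),
  ∫ V : UU (Fin d),
    (trace (B * (V : Mat d) * K) * trace (X * (V : Mat d)) ^ a * (conj (trace (V : Mat d))) ^ b
      + a * trace (B * (V : Mat d)) * trace (X * (V : Mat d) * K) * trace (X * (V : Mat d)) ^ (a - 1)
          * (conj (trace (V : Mat d))) ^ b
      - b * trace (B * (V : Mat d)) * trace (X * (V : Mat d)) ^ a
          * (conj (trace (V : Mat d))) ^ (b - 1) * trace (K * (V : Mat d)ᴴ)) ∂(haarU (Fin d)) = 0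

/-- the integral `∫ V_ij V_ji (∑ x_k V_kk)^(t-2) conj(Tr V)^t dV` -/
noncomputable def qI (d t : ℕ) (i j : Fin d) (x : Fin d → ℂ) : ℂ :=
  ∫ V : UU (Fin d), (V : Mat d) i j * (V : Mat d) j i *
    (∑ k, x k * (V : Mat d) k k) ^ (t - 2) * (conj (trace (V : Mat d))) ^ t ∂(haarU (Fin d))

/-- TASK `SD1` (≈60 lines), hypothesis `SDL d`: sum over `i, j` of `SDL` with `K = single i j 1`,
`X = diagonal x`, `B = X * single j i 1` (so `Tr (B V) = (V X) i j`), `a = t - 1`, `b = t`; use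
`∑_ij (V X)_ij (V X)_ji = Tr (V X V X)` and `Tr (V X Vᴴ) = Tr X`. -/
def SD1 (d : ℕ) : Prop := ∀ (t : ℕ) (x : Fin d → ℂ), 1 ≤ t →
  (d : ℂ) * gI d t x + ((t : ℂ) - 1) * (∑ i, ∑ j, x i * x j * qI d t i j x) =
    t * (∑ i, x i) * gI d (t - 1) x

/-- TASK `SD2` (≈60 lines), hypotheses `SDL d`, `SDR d`: the difference of `SDL` and `SDR` with
`K = single i j 1`, `B = single j i 1`, `X = diagonal x`, `a = t - 1`, `b = t` (the last terms
cancel since `Tr (Vᴴ K) = Tr (K Vᴴ)`). -/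
def SD2 (d : ℕ) : Prop := ∀ (t : ℕ) (x : Fin d → ℂ) (i j : Fin d), 1 ≤ t →
  (x i - x j) * (((t : ℂ) - 1) * qI d t i j x) =
    ∫ V : UU (Fin d), ((V : Mat d) i i - (V : Mat d) j j) *
      (∑ k, x k * (V : Mat d) k k) ^ (t - 1) * (conj (trace (V : Mat d))) ^ t ∂(haarU (Fin d))

/-! ## The polynomial family -/

/-- `∫ ∏ V_ii^{α_i} conj(Tr V)^t` -/
noncomputable def gcf (d t : ℕ) (α : Fin d → ℕ) : ℂ :=
  ∫ V : UU (Fin d), (∏ i, (V : Mat d) i i ^ α i) * (conj (trace (V : Mat d))) ^ t ∂(haarU (Fin d))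

/-- `∫ V_ij V_ji ∏ V_kk^{α_k} conj(Tr V)^t` -/
noncomputable def qcf (d t : ℕ) (i j : Fin d) (α : Fin d → ℕ) : ℂ :=
  ∫ V : UU (Fin d), (V : Mat d) i j * (V : Mat d) j i * (∏ k, (V : Mat d) k k ^ α k) *
    (conj (trace (V : Mat d))) ^ t ∂(haarU (Fin d))

open MvPolynomial in
/-- the polynomial `G_t` -/
noncomputable def GP (d t : ℕ) : MvPolynomial (Fin d) ℂ :=
  ∑ α ∈ Finset.piAntidiag Finset.univ t,
    C ((Nat.multinomial Finset.univ α : ℂ) * gcf d t α) * ∏ i, X i ^ α i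

open MvPolynomial in
/-- the polynomial `Q_{t,i,j}` -/
noncomputable def QP (d t : ℕ) (i j : Fin d) : MvPolynomial (Fin d) ℂ :=
  C ((t : ℂ) * (t - 1)) * ∑ α ∈ Finset.piAntidiag Finset.univ (t - 2),
    C ((Nat.multinomial Finset.univ α : ℂ) * qcf d t i j α) * ∏ k, X k ^ α k

/-- `∫ V_ii (∑ x_k V_kk)^(t-1) conj(Tr V)^t dV` -/
noncomputable def dI (d t : ℕ) (i : Fin d) (x : Fin d → ℂ) : ℂ :=
  ∫ V : UU (Fin d), (V : Mat d) i i * (∑ k, x k * (V : Mat d) k k) ^ (t - 1) *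
    (conj (trace (V : Mat d))) ^ t ∂(haarU (Fin d))

/-- TASK `FE` (≈80 lines): values of the polynomials (multinomial theorem
`Finset.sum_pow_eq_sum_piAntidiag`), `G_0 = 1`, homogeneity. -/
def FE (d : ℕ) : Prop :=
  (∀ t (x : Fin d → ℂ), MvPolynomial.eval x (GP d t) = gI d t x) ∧
  (∀ t i j (x : Fin d → ℂ), MvPolynomial.eval x (QP d t i j) = (t : ℂ) * (t - 1) * qI d t i j x) ∧
  GP d 0 = 1 ∧ ∀ t, (GP d t).IsHomogeneous t

/-- TASK `FS` (≈80 lines): symmetry (conjugation of `V` by a permutation matrix; `haarU` is left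
and right invariant). -/
def FS (d : ℕ) : Prop := ∀ t (σ : Equiv.Perm (Fin d)), MvPolynomial.rename σ (GP d t) = GP d t

/-- TASK `FD` (≈100 lines): values of the derivatives (for `t ≤ 1` the second one is `0`). -/
def FD (d : ℕ) : Prop :=
  (∀ t i (x : Fin d → ℂ), MvPolynomial.eval x (MvPolynomial.pderiv i (GP d t)) = t * dI d t i x) ∧
  (∀ t i (x : Fin d → ℂ), MvPolynomial.eval x (MvPolynomial.pderiv i (MvPolynomial.pderiv i (GP d t)))
    = (t : ℂ) * (t - 1) * qI d t i i x)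

open MvPolynomial in
/-- The family of polynomials with the properties which determine it. -/
structure Family (d : ℕ) (G : ℕ → MvPolynomial (Fin d) ℂ)
    (Q : ℕ → Fin d → Fin d → MvPolynomial (Fin d) ℂ) : Prop where
  zero : G 0 = 1
  hom : ∀ t : ℕ, (G t).IsHomogeneous t
  symm : ∀ (t : ℕ) (σ : Equiv.Perm (Fin d)), rename σ (G t) = G t
  hQs : ∀ (t : ℕ) i j, Q t i j = Q t j i
  hQ : ∀ (t : ℕ) i j, (X i - X j) * Q t i j = pderiv i (G t) - pderiv j (G t)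
  hQd : ∀ (t : ℕ) i, Q t i i = pderiv i (pderiv i (G t))
  hE : ∀ t : ℕ, 1 ≤ t → C ((d : ℂ) * t) * G t + ∑ i, ∑ j, X i * X j * Q t i j =
    C ((t : ℂ) ^ 2) * (∑ i, X i) * G (t - 1)

/-- TASK `FAM` (≈80 lines), hypotheses `SD1 d`, `SD2 d`, `FE d`, `FS d`, `FD d`:
`Family d (GP d) (QP d)`, everything by `MvPolynomial.funext` (`hQ`: `t` times `SD2`,
`hE`: `t` times `SD1`). -/
def FamStm (d : ℕ) : Prop := Family d (GP d) (QP d)

/-- `Δ(x) = ∏_{i<j} (x_i - x_j)` -/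
def vd {R : Type*} [CommRing R] {d : ℕ} (x : Fin d → R) : R :=
  ∏ i : Fin d, ∏ j ∈ Finset.univ.filter (fun j => i < j), (x i - x j)

/-- `Δ(l)` for a vector of naturals -/
def vn (R : Type*) [CommRing R] {d : ℕ} (l : Fin d → ℕ) : R := vd fun i => (l i : R)

/-- TASK `V1` (≈60 lines): `∑_k Δ(y + e_k) = d Δ(y)`.  `Δ(y) = ± det [(y_i)_j]`, `(y)_j` the
descending Pochhammer polynomials (monic; Mathlib: `descPochhammer`, `Matrix.det_eval_matrixOfPolynomials_eq_det_vandermonde`),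
`(y+1)_j = (y)_j + j (y)_{j-1}`, and for all matrices `A, B`:
`∑_k det (A with row k replaced by (A B)_k) = tr B · det A` (here `B` has trace `d`; this
general fact (put it in its own lemma) follows by expanding the determinant in row `k` and
`adjugate A * (A * B)`: trace). -/
def V1 (d : ℕ) : Prop := ∀ y : Fin d → ℂ,
  ∑ k, vd (Function.update y k (y k + 1)) = d * vd y

/-- TASK `V2` (≈60 lines): `∑_k y_k Δ(y - e_k) = (∑ y - d(d-1)/2) Δ(y)`: same method,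
`y (y-1)_j = (y)_{j+1} = (y - j) (y)_j`. -/
def V2 (d : ℕ) : Prop := ∀ y : Fin d → ℂ,
  ∑ k, y k * vd (Function.update y k (y k - 1)) =
    (∑ k, y k - (d : ℂ) * (d - 1) / 2) * vd y

/-- TASK `V3` (≈100 lines): `∑_k y_k² Δ(y - e_k) =
(∑ y² - ∑_{j<d} j² - (d-1) (∑ y - d(d-1)/2)) Δ(y)`: same method: `y² (y-1)_j = y (y-j) (y)_j
= y² (y)_j - j ((y)_{j+1} + j (y)_j)`; the terms `j (y)_{j+1}` with `j < d-1` have trace zero,
the term `j = d-1` gives `(d-1) det[(y)_0..(y)_{d-2}, (y)_d] = (d-1) (∑ y - d(d-1)/2) Δ(y)`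
(this last determinant: `y(y-1)_j=(y)_{j+1}`-computation of `V2` gives it at once: the derivation
`∑_k det(row k times y_k)` is `(∑ y) Δ` and equals `∑_j (j Δ) + det[.., (y)_d]`). -/
def V3 (d : ℕ) : Prop := ∀ y : Fin d → ℂ,
  ∑ k, y k ^ 2 * vd (Function.update y k (y k - 1)) =
    (∑ k, y k ^ 2 - ∑ j : Fin d, (j : ℂ) ^ 2 - (d - 1) * (∑ k, y k - (d : ℂ) * (d - 1) / 2)) * vd y

open MvPolynomial in
/-- TASK `CONJ` (≈150 lines).  For `G` homogeneous of degree `t` and `Q_ij` with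
`(X_i - X_j) Q_ij = ∂_i G - ∂_j G` (`i ≠ j`) and `P = Δ G`, `θ_i = X_i ∂_i`:
`∑ θ_i² P = Δ (∑_j j² G + (2d-1) t G + ∑_i X_i² ∂_i² G + ∑_{i≠j} X_i X_j Q_ij)`.
Proof: `θ_i² (Δ G) = θ_i² Δ · G + 2 θ_i Δ · θ_i G + Δ θ_i² G`; `∑ θ_i² Δ = ∑_j j² · Δ`
(`Δ = ± det(X_i^j)` is a combination of monomials with exponents a permutation of `0..d-1`);
`θ_i Δ = X_i ∑_{j≠i} Δ_ij` with `Δ = (X_i - X_j) Δ_ij`, so `∑_i 2 θ_iΔ θ_iG =
2 ∑_{i<j} Δ_ij (X_i² ∂_i G - X_j² ∂_j G) = 2 ∑_{i<j} Δ (θ_i G + θ_j G + X_i X_j Q_ij)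
= 2 (d-1) t Δ G + ∑_{i≠j} Δ X_i X_j Q_ij` (Euler); `∑ θ_i² G = ∑ X_i² ∂_i² G + t G`. -/
def CONJ (d : ℕ) : Prop := ∀ (t : ℕ) (G : MvPolynomial (Fin d) ℂ)
    (Q : Fin d → Fin d → MvPolynomial (Fin d) ℂ), G.IsHomogeneous t →
    (∀ i j, Q i j = Q j i) →
    (∀ i j, (X i - X j) * Q i j = pderiv i G - pderiv j G) →
    (∀ i, Q i i = pderiv i (pderiv i G)) →
    ∑ i, X i * pderiv i (X i * pderiv i (vd (fun i => (X i : MvPolynomial (Fin d) ℂ)) * G)) =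
      vd (fun i => (X i : MvPolynomial (Fin d) ℂ)) *
        (C (∑ j : Fin d, (j : ℂ) ^ 2 + (2 * d - 1) * t) * G + ∑ i, ∑ j, X i * X j * Q i j)

/-- TASK `POSL` (≈80 lines): for `l` with distinct entries and `∑ l = t + d(d-1)/2`, `t ≥ 1`:
`∑ l_i² > ∑_j j² + (d-1) t`.  Sort: `l_i = λ_i + d-1-i` with `λ` decreasing, `∑ λ = t`, then
`∑ l_i² - ∑ j² - (d-1)t = ∑ λ_i² + ∑ λ_i (d-1-2i) ≥ t` (Chebyshev: `∑ λ_i (d-1-2i) ≥ 0`).
Other proof: induction on `t` / rearrangement. -/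
def POSL (d : ℕ) : Prop := ∀ (t : ℕ) (l : Fin d → ℕ), 1 ≤ t → Function.Injective l →
  ∑ i, l i = t + d * (d - 1) / 2 →
  (∑ j : Fin d, (j : ℝ) ^ 2) + ((d : ℝ) - 1) * t < ∑ i, (l i : ℝ) ^ 2

open MvPolynomial in
/-- TASK `BASE` (≈80 lines): `Δ(X) = ∏ j! · ∑_{|l| = d(d-1)/2} Δ(l)/(∏ l_i!)² X^l`: only the
permutations `l` of `0, .., d-1` contribute. -/
def BASE (d : ℕ) : Prop := vd (fun i => (X i : MvPolynomial (Fin d) ℂ)) =
  ∑ l ∈ Finset.piAntidiag Finset.univ (d * (d - 1) / 2),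
    C ((∏ j : Fin d, ((j : ℕ).factorial : ℂ)) * vn ℂ l / (∏ i, ((l i).factorial : ℂ)) ^ 2) *
      ∏ i, X i ^ l i

/-- `PP_t(x) = ∑_{|l| = t + d(d-1)/2} Δ(l) x^l / (l!)²` -/
noncomputable def PP (d t : ℕ) (x : Fin d → ℝ) : ℝ :=
  ∑ l ∈ Finset.piAntidiag Finset.univ (t + d * (d - 1) / 2),
    vn ℝ l / (∏ i, ((l i).factorial : ℝ)) ^ 2 * ∏ i, x i ^ l i

/-- TASK `FORM` (≈200 lines), hypotheses `FamStm d`, `V3 d`, `CONJ d`, `POSL d`, `BASE d`, `FE d`.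
By `hE` and `CONJ`, `P_t = Δ G_t` satisfies
`∑ θ_i² P_t - (∑_j j² + (d-1) t) P_t = t² (∑ X_i) P_{t-1}`.  `P_t` is antisymmetric, so its
coefficient at `X^l` vanishes if `l_i = l_j` for some `i ≠ j`; it is homogeneous of degree
`t + d(d-1)/2`; for `l` with distinct entries and this degree,
`∑ l_i² - ∑_j j² - (d-1) t > 0` for `t ≥ 1` (`POSL`), and the equation of the coefficients
together with `V3` gives by induction on `t` the coefficient
`(t!)² ∏_{j<d} j! Δ(l)/(∏ l_i!)²` (for `t = 0`: `BASE`). -/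
def FORM (d : ℕ) : Prop := ∀ (t : ℕ) (x : Fin d → ℝ),
  ((vd x : ℝ) : ℂ) * gI d t (fun i => (x i : ℂ)) =
    (((t.factorial : ℝ) ^ 2 * (∏ j : Fin d, ((j : ℕ).factorial : ℝ)) * PP d t x : ℝ) : ℂ)

/-! ## The inequality for alternants -/

/-- `a_l(x) = det [x_i^{l_j}]` -/
def al {d : ℕ} (x : Fin d → ℝ) (l : Fin d → ℕ) : ℝ := (Matrix.of fun i j => x i ^ l j).det

/-- TASK `BR` (≈150 lines): branching.  For `z` decreasing, `p = m_last`:
`det[e^{z_i m_j}] = e^{p ∑ z} ∏_j (m_j - p) ∫_{box} det_n[e^{ζ_i (m_j - p)}] dζ`, the box being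
`∏_i (z_{i+1}, z_i]`.  Factor `e^{p z_i}` from row `i`: the last column becomes `1`; subtract row
`i+1` from row `i` and expand in the last column: `det_n[∫_{z_{i+1}}^{z_i} (m_j-p) e^{ζ (m_j-p)} dζ]`;
then `Matrix.det_apply` and `integral_fintype_prod_eq_prod` (`volume` restricted to a box is the
product of the restricted measures: `Measure.restrict_pi_pi`). -/
def BR : Prop := ∀ (n : ℕ) (z m : Fin (n + 1) → ℝ), Antitone z →
  (Matrix.of fun i j => Real.exp (z i * m j)).det =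
    Real.exp (m (Fin.last n) * ∑ i, z i) * (∏ j : Fin n, (m j.castSucc - m (Fin.last n))) *
      ∫ ζ in Set.pi Set.univ (fun i : Fin n => Set.Ioc (z i.succ) (z i.castSucc)),
        (Matrix.of fun i j : Fin n => Real.exp (ζ i * (m j.castSucc - m (Fin.last n)))).det

/-- TASK `AE0` (≈60 lines): the case of two exponents `p > q` (integers), `u > v`:
`(e^{u(p+1) + v q} - e^{u q + v(p+1)}) (p - q - 1) ≥ (e^{u p + v(q+1)} - e^{u(q+1) + v p}) (p+1-q)`;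
both differences are `e^{(u+v)(p+q+1)/2} · 2 sinh(r D/2)` with `D = u - v`, `r = p+1-q` resp.
`r = p-q-1`, and `sinh(w)/w` is increasing for `w > 0`. -/
def AE0 : Prop := ∀ (u v : ℝ) (p q : ℤ), v < u → q < p →
  (Real.exp (u * p + v * (q + 1)) - Real.exp (u * (q + 1) + v * p)) * ((p : ℝ) + 1 - q) ≤
  (Real.exp (u * (p + 1) + v * q) - Real.exp (u * q + v * (p + 1))) * ((p : ℝ) - q - 1)

/-- TASK `AE` (≈150 lines), hypotheses `BR`, `AE0`.  The inequality for exponentials, in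
normalised position: the exponents are `m : Fin (n+2) → ℤ`, `m 1 < m 0`, and `z` is strictly
decreasing: `det[e^{z_i (m+e_1)_j}] Δ(m+e_0) ≤ det[e^{z_i (m+e_0)_j}] Δ(m+e_1)`.
Induction on `n`.  `n = 0`: `AE0`.  Step: let `p` be the last exponent (unchanged).  By `BR`, and
`Δ(m) = Δ(m_0..m_{n+1}) ∏_{j<n+2} (m_j - p)`, the difference (RHS - LHS) for `n+1` is
`e^{p ∑ z} (m_0+1-p)(m_0-p)(m_1-p)(m_1+1-p) ∏_{2≤j<n+2}(m_j-p)²` (which is `≥ 0` as `r(r+1) ≥ 0`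
for integers `r`) times the integral over the box of `e^{-p ∑ ζ}` times the difference for `n`
at `ζ` (`ζ` is strictly decreasing on the box; in `BR` the exponents are `m_j - p`; either factor
`e^{-p ζ_i}` or apply the induction hypothesis to the integers `m_j - p`, `Δ` is translation
invariant). -/
def AE : Prop := ∀ (n : ℕ) (z : Fin (n + 2) → ℝ) (m : Fin (n + 2) → ℤ), StrictAnti z → m 1 < m 0 →
  (Matrix.of fun i j => Real.exp (z i * (Function.update m 1 (m 1 + 1) j : ℤ))).det *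
      vd (fun j => ((Function.update m 0 (m 0 + 1) j : ℤ) : ℝ)) ≤
    (Matrix.of fun i j => Real.exp (z i * (Function.update m 0 (m 0 + 1) j : ℤ))).det *
      vd (fun j => ((Function.update m 1 (m 1 + 1) j : ℤ) : ℝ))

/-- TASK `AN` (≈80 lines), hypothesis `AE`: `x = e^z`; a permutation of the columns reduces the
general position `i, k` to `0, 1` (both `al` and `vn` change by the sign of the permutation). -/
def AN (d : ℕ) : Prop := ∀ (x : Fin d → ℝ) (m : Fin d → ℕ) (i k : Fin d), StrictAnti x →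
  (∀ a, 0 < x a) → m k < m i →
  al x (Function.update m k (m k + 1)) * vn ℝ (Function.update m i (m i + 1)) ≤
    al x (Function.update m i (m i + 1)) * vn ℝ (Function.update m k (m k + 1))

/-- `κ(l) = 1/(∏ l_i!)²` -/
noncomputable def kap {d : ℕ} (l : Fin d → ℕ) : ℝ := 1 / (∏ i, ((l i).factorial : ℝ)) ^ 2

/-- the derivative of `PP` in the direction `(1,..,1)`:
`∑_l Δ(l) κ(l) ∑_i l_i x^{l - e_i}` -/
noncomputable def NP (d t : ℕ) (x : Fin d → ℝ) : ℝ :=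
  ∑ l ∈ Finset.piAntidiag Finset.univ (t + d * (d - 1) / 2),
    vn ℝ l * kap l * ∑ i, (l i : ℝ) * ∏ j, x j ^ (Function.update l i (l i - 1) j)

/-- the double sum over `m` with `|m| = t - 1 + d(d-1)/2`, `i`, `k` -/
noncomputable def SS (d t : ℕ) (x : Fin d → ℝ) : ℝ :=
  ∑ m ∈ Finset.piAntidiag Finset.univ (t - 1 + d * (d - 1) / 2), ∑ i, ∑ k,
    (kap (Function.update m i (m i + 1)) * (m i + 1) -
        kap (Function.update m k (m k + 1)) * (m k + 1)) *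
      (vn ℝ (Function.update m i (m i + 1)) * al x (Function.update m k (m k + 1)) -
        vn ℝ (Function.update m k (m k + 1)) * al x (Function.update m i (m i + 1)))

/-- TASK `A1` (≈60 lines): antisymmetrisation.  For every `F : (Fin d → ℕ) → ℝ` with
`F (l ∘ σ) = sgn σ F l`: `∑_{|l|=N} F(l) x^l = (1/d!) ∑_{|l|=N} F(l) a_l(x)`; apply it to
`F = vn · kap` (`PP`).  Same for `∑ over l of F(l) ∑_i l_i x^{l-e_i}` (`NP`), reindexed
`l = m + e_i` (terms with `l_i = 0` vanish). -/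
def A1 (d : ℕ) : Prop := ∀ (t : ℕ) (x : Fin d → ℝ), 1 ≤ t →
  (d.factorial : ℝ) * PP d t x =
    ∑ l ∈ Finset.piAntidiag Finset.univ (t + d * (d - 1) / 2), vn ℝ l * kap l * al x l ∧
  (d.factorial : ℝ) * NP d t x =
    ∑ m ∈ Finset.piAntidiag Finset.univ (t - 1 + d * (d - 1) / 2), ∑ i,
      kap (Function.update m i (m i + 1)) * (m i + 1) * vn ℝ (Function.update m i (m i + 1)) *
        al x m

/-- TASK `A2` (≈100 lines), hypotheses `V1 d`, `V2 d`, `A1 d`: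
`2 d! ((∑ x) NP - d t PP) = SS`.  Uses `(∑ x) a_m = ∑_k a_{m+e_k}`
(`∑_k det(column k multiplied by x_i) = (∑ x) det`), `d Δ(m) = ∑_k Δ(m+e_k)` (`V1`),
`t Δ(l) = ∑_i l_i Δ(l - e_i)` for `|l| = t + d(d-1)/2` (`V2`), reindexing `l = m + e_i`:
`d t d! PP = ∑_m ∑_i ∑_k κ(m+e_i)(m_i+1) Δ(m+e_k) a_{m+e_i}`,
`(∑ x) d! NP = ∑_m ∑_i ∑_k κ(m+e_i)(m_i+1) Δ(m+e_i) a_{m+e_k}`; then antisymmetrise in `i,k`. -/
def A2 (d : ℕ) : Prop := ∀ (t : ℕ) (x : Fin d → ℝ), 1 ≤ t →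
  2 * (d.factorial : ℝ) * ((∑ i, x i) * NP d t x - d * t * PP d t x) = SS d t x

/-- TASK `A3` (≈60 lines), hypotheses `AN d`, `A2 d`: each term of `SS` is `≥ 0`:
`kap (m+e_i) (m_i+1) = 1/((m!)² (m_i+1))`. -/
def A3 (d : ℕ) : Prop := ∀ (t : ℕ) (x : Fin d → ℝ), 1 ≤ t → StrictAnti x → (∀ a, 0 < x a) →
  d * t * PP d t x ≤ (∑ i, x i) * NP d t x

/-- TASK `A4` (≈120 lines), hypotheses `FORM d`, `A3 d`, `1 ≤ d`, `1 ≤ t`.  Let `F(x) =
Re gI d t x`; it is a continuous function (polynomial) of `x`, homogeneous of degree `t`.  For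
strictly decreasing positive `x` with `∑ x = d` put `ψ(τ) = F(x + τ 1)/(1+τ)^t =
c PP(x + τ 1)/(Δ(x) (1+τ)^t)`, `τ ≥ 0` (`Δ(x+τ1) = Δ(x) > 0`).  `d/dτ PP(x+τ1) = NP(x+τ1)`, and
`ψ' ≥ 0` by `A3` at `x + τ 1` (sum of coordinates `d (1+τ)`).  `ψ(τ) = F((x+τ1)/(1+τ)) → F(1)`. -/
def A4 (d : ℕ) : Prop := ∀ (t : ℕ) (x : Fin d → ℝ), StrictAnti x → (∀ a, 0 < x a) →
  ∑ i, x i = d → (gI d t (fun i => (x i : ℂ))).re ≤ (gI d t 1).re

/-- TASK `A5` (≈80 lines), hypothesis `A4 d`: all `x ≥ 0` with `∑ x = d`, by sorting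
(`gI d t (x ∘ σ) = gI d t x`: conjugation by a permutation matrix) and approximation. -/
def A5 (d : ℕ) : Prop := ∀ (t : ℕ) (x : Fin d → ℝ), (∀ a, 0 ≤ x a) →
  ∑ i, x i = d → (gI d t (fun i => (x i : ℂ))).re ≤ (gI d t 1).re

/-- TASK `A6` (≈60 lines), hypothesis `A5 d`: diagonalise `Y` (spectral theorem), use the
invariance of `haarU` under conjugation (left and right invariance) . -/
def A6 (d : ℕ) : Prop := ∀ (t : ℕ) (Y : Mat d), Y.PosSemidef → trace Y = d →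
  (gM d t Y).re ≤ (gI d t 1).re

/-! ## Moment operators -/

/-- the tensor power of a matrix -/
def tp {d : ℕ} (t : ℕ) (A : Mat d) : MatT d t := Matrix.of fun i j => ∏ s, A (i s) (j s)

/-- the unitary channel `X ↦ U X Uᴴ` -/
def unitaryCh {d : ℕ} (U : Mat d) : Mat d →ₗ[ℂ] Mat d where
  toFun X := U * X * Uᴴ
  map_add' X Y := by simp [Matrix.mul_add, Matrix.add_mul]
  map_smul' c X := by simp

/-- the completely depolarizing channel `X ↦ Tr(X) 1/d` -/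
noncomputable def depCh (d : ℕ) : Mat d →ₗ[ℂ] Mat d where
  toFun X := (trace X / d) • (1 : Mat d)
  map_add' X Y := by simp [add_div, add_smul]
  map_smul' c X := by simp [mul_div_assoc, smul_smul]

/-- the Haar moment operator -/
noncomputable def haarT (d t : ℕ) : MatT d t →ₗ[ℂ] MatT d t :=
  momentOp (haarU (Fin d)) t fun V => unitaryCh (V : Mat d)

/-- the moment operator of the ensemble Depolarize (probability 1) -/
noncomputable def depT (d t : ℕ) : MatT d t →ₗ[ℂ] MatT d t :=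
  momentOp (Measure.dirac ()) t fun _ : Unit => depCh d

/-- the moment operator of `cHaar(d, d_E)` -/
noncomputable def cT (d dE t : ℕ) (ψ : Fin dE → ℂ) : MatT d t →ₗ[ℂ] MatT d t :=
  momentOp (haarU (Fin d × Fin dE)) t
    (fun V => dilated (d := d) ψ (V : Matrix (Fin d × Fin dE) (Fin d × Fin dE) ℂ))

theorem N_eq (t k d dE : ℕ) (ψ : Fin dE → ℂ) : N t k d dE ψ = hsNormSq ((cT d dE t ψ) ^ k) := rfl

/-- `tk ψ V x`: the Kraus operators of `(dilated ψ V)^{⊗ t}`, `x : Fin t → Fin dE`: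
entries `∏_s ∑_y V (k_s, x_s) (i_s, y) ψ_y`. -/
noncomputable def tk {d dE : ℕ} (t : ℕ) (ψ : Fin dE → ℂ)
    (V : Matrix (Fin d × Fin dE) (Fin d × Fin dE) ℂ) (x : Fin t → Fin dE) : MatT d t :=
  Matrix.of fun k i => ∏ s, ∑ y, V (k s, x s) (i s, y) * ψ y

/-- TASK `K1` (≈100 lines): `tp` is multiplicative etc., and the Haar moment operator. -/
def K1 (d t : ℕ) : Prop :=
  (∀ A B : Mat d, tp t (A * B) = tp t A * tp t B) ∧ (tp t (1 : Mat d) = 1) ∧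
  (∀ A : Mat d, tp t Aᴴ = (tp t A)ᴴ) ∧ (∀ A : Mat d, trace (tp t A) = trace A ^ t) ∧
  (∀ (A : Mat d) (Y : MatT d t), tensorPow t (unitaryCh A) Y = tp t A * Y * (tp t A)ᴴ) ∧
  (∀ (Y : MatT d t) k l, haarT d t Y k l =
    ∫ V : UU (Fin d), (tp t (V : Mat d) * Y * (tp t (V : Mat d))ᴴ) k l ∂(haarU (Fin d)))

/-- TASK `K2` (≈150 lines): Kraus representation of the moment operator of `cHaar`, and action on
tensor powers (`tensorPow_pure`). -/
def K2 (d dE t : ℕ) (ψ : Fin dE → ℂ) : Prop :=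
  (∀ (V : UU (Fin d × Fin dE)), ∑ x, (tk t ψ (V : Matrix _ _ ℂ) x)ᴴ * tk t ψ (V : Matrix _ _ ℂ) x
      = (1 : MatT d t)) ∧
  (∀ (Y : MatT d t) k l, cT d dE t ψ Y k l = ∫ V : UU (Fin d × Fin dE),
      (∑ x, tk t ψ (V : Matrix (Fin d × Fin dE) (Fin d × Fin dE) ℂ) x * Y * (tk t ψ (V : Matrix (Fin d × Fin dE) (Fin d × Fin dE) ℂ) x)ᴴ) k l
        ∂(haarU (Fin d × Fin dE))) ∧
  (∀ (Y : Mat d) k l, cT d dE t ψ (tp t Y) k l = ∫ V : UU (Fin d × Fin dE),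
      tp t (dilated (d := d) ψ (V : Matrix _ _ ℂ) Y) k l ∂(haarU (Fin d × Fin dE))) ∧
  (∀ (V : UU (Fin d × Fin dE)) (Y : Mat d), Y.PosSemidef →
      (dilated (d := d) ψ (V : Matrix _ _ ℂ) Y).PosSemidef) ∧
  (∀ (V : UU (Fin d × Fin dE)) (Y : Mat d),
      trace (dilated (d := d) ψ (V : Matrix _ _ ℂ) Y) = trace Y)

/-- TASK `K3` (≈100 lines): invariance of the range of the `cHaar` moment operator under local
unitaries (`V ↦ (W ⊗ 1) V` in the Haar integral: `dilated ψ ((W ⊗ 1) V) X = W (dilated ψ V X) Wᴴ`;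
`tk t ψ ((W⊗1) V) x = tp t W * tk t ψ V x`). -/
def K3 (d dE t : ℕ) (ψ : Fin dE → ℂ) : Prop := ∀ (W : UU (Fin d)) (Y : MatT d t),
  tp t (W : Mat d) * cT d dE t ψ Y * (tp t (W : Mat d))ᴴ = cT d dE t ψ Y

/-- TASK `KS` (≈150 lines): iterated Kadison-Schwarz inequality.  `T Y = ∫ ∑_x A_x Y A_xᴴ`,
`∑ A_xᴴ A_x = 1`.  With the adjoint `T* Y = ∫ ∑_x A_xᴴ Y A_x` (`(T* Y)_{ij} =
∑_kl conj((T E_ij)_kl) Y_kl`): for `M ≥ 0`, `Re Tr(M (T*Y)ᴴ (T*Y)) ≤ Re Tr(T(M) Yᴴ Y)` (because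
`(∑ AᴴYA)ᴴ(∑ AᴴYA) ≤ ∑ Aᴴ YᴴY A` pointwise and `|𝔼 Z|² ≤ 𝔼 |Z|²`), `T(M) ≥ 0`; then induction
on `k`.  (`A` is bounded because `∑ A_xᴴ A_x = 1`, so everything is integrable.) -/
def KS : Prop := ∀ {Ω D ι : Type} [MeasurableSpace Ω] [Fintype D] [DecidableEq D] [Fintype ι]
  (μ : Measure Ω) [IsProbabilityMeasure μ] (A : Ω → ι → Matrix D D ℂ)
  (_ : ∀ ω, ∑ x, (A ω x)ᴴ * A ω x = 1) (_ : ∀ x i j, Measurable fun ω => A ω x i j)
  (T : Matrix D D ℂ →ₗ[ℂ] Matrix D D ℂ)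
  (_ : ∀ Y k l, T Y k l = ∫ ω, (∑ x, A ω x * Y * (A ω x)ᴴ) k l ∂μ) (k : ℕ) (Y : Matrix D D ℂ),
  ∑ i, ∑ j, ‖∑ a, ∑ b, conj ((T ^ k) (Matrix.single i j 1) a b) * Y a b‖ ^ 2 ≤
    (trace ((T ^ k) 1 * (Yᴴ * Y))).re

/-- TASK `K4` (≈120 lines), hypotheses `K1 d t`, `K2 d dE t ψ`, `K3 d dE t ψ`, `KS`, `1 ≤ k`.
`hsNormSq (T^k) = ∑_pq ∑_ij |∑_ab conj((T^k E_ij)_ab) (E_pq)_ab|²`, and `E_pq` may be replaced by
`P E_pq`, `P = haarT d t`, because `T^k E_ij` commutes with all `tp W` (`K3`, `k ≥ 1`) and so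
`∑_ab conj((T^k E_ij)_ab) (Y - P Y)_ab = 0`. -/
def K4 (d dE t : ℕ) (ψ : Fin dE → ℂ) : Prop := ∀ k : ℕ, 1 ≤ k →
  hsNormSq ((cT d dE t ψ) ^ k) ≤ ∑ p, ∑ q,
    (trace (((cT d dE t ψ) ^ k) 1 *
      ((haarT d t (Matrix.single p q 1))ᴴ * haarT d t (Matrix.single p q 1)))).re

/-- TASK `K5` (≈120 lines), hypothesis `K1 d t`: for `M` commuting with all `tp V`:
`Tr(M (P E)ᴴ (P E)) = ⟨P E, (P E) M⟩ = ⟨P E, P (E M)⟩ = ⟨E, P (E M)⟩ =
∫ ⟨E, V^{⊗t} E M V^{⊗t ᴴ}⟩` (`P` is a self-adjoint idempotent, `⟨X,Y⟩ = Tr(Xᴴ Y)`), and for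
`E = E_pq` the integrand is `(V^{⊗t})_pp (M V^{⊗t ᴴ})_qq`. -/
def K5 (d t : ℕ) : Prop := ∀ M : MatT d t,
  (∀ W : UU (Fin d), tp t (W : Mat d) * M * (tp t (W : Mat d))ᴴ = M) →
  ∑ p, ∑ q, trace (M * ((haarT d t (Matrix.single p q 1))ᴴ * haarT d t (Matrix.single p q 1))) =
    ∫ V : UU (Fin d), trace (tp t (V : Mat d)) * trace (M * (tp t (V : Mat d))ᴴ) ∂(haarU (Fin d))

/-- TASK `K6` (≈120 lines), hypotheses `K1 d t`, `K2 d dE t ψ`, `A6 d`: with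
`ℓ(M) = ∫ Tr(V^{⊗t}) Tr(M V^{⊗t ᴴ})`, by induction on `k`, for all `Y ≥ 0` with `Tr Y = d`:
`Re ℓ(T^k (tp Y)) ≤ Re gI d t 1`.  `k = 0`: `ℓ(tp Y) = conj (gM d t Y)` (`Y` Hermitian).  Step:
`T^{k+1}(tp Y) = ∫ T^k (tp (dilated ψ V Y)) dV`. -/
def K6 (d dE t : ℕ) (ψ : Fin dE → ℂ) : Prop := ∀ k : ℕ,
  (∫ V : UU (Fin d), trace (tp t (V : Mat d)) *
    trace (((cT d dE t ψ) ^ k) 1 * (tp t (V : Mat d))ᴴ) ∂(haarU (Fin d))).re ≤ (gI d t 1).re

/-- TASK `K7` (≈60 lines), hypotheses `K1 d t`, `K5 d t` (with `M = 1`):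
`‖T_Haar‖² = ∫ |Tr V|^{2t}`. -/
def K7 (d t : ℕ) : Prop := hsNormSq (haarT d t) = (gI d t 1).re

/-- TASK `K8` (≈120 lines), hypothesis `K2 d dE t ψ`, `1 ≤ d`: the (known) left inequality.  `T`
preserves the trace, so `Tr (T^k E_ii) = 1`; Cauchy-Schwarz `1 ≤ d^t ∑_a |(T^k E_ii)_aa|²`, sum
over the `d^t` indices `i`.  And `depT`: entries `∏ δ_{i j} δ_{k l} / d`. -/
def K8 (d dE t : ℕ) (ψ : Fin dE → ℂ) : Prop :=
  hsNormSq (depT d t) = 1 ∧ ∀ k : ℕ, 1 ≤ hsNormSq ((cT d dE t ψ) ^ k)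

end Pool.Agent.T5h70.NH
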