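import Pool.Agent.T5h70.NH.AsBase

/-!
# Task A1: antisymmetrisation (helper78)
-/

set_option autoImplicit false

open scoped BigOperators

namespace Pool.Agent.T5h70.NH

theorem update_comp_perm {d : ℕ} (m : Fin d → ℕ) (σ : Equiv.Perm (Fin d)) (i : Fin d) :
    Function.update (m ∘ σ) i ((m ∘ σ) i + 1) =
      (Function.update m (σ i) (m (σ i) + 1)) ∘ σ := by
  funext j
  by_cases h : j = i
  · subst h
    simp
  · have h2 : σ j ≠ σ i := fun h3 => h (σ.injective h3)
    simp [Function.update_of_ne h, Function.update_of_ne h2]

theorem t_A1 (d : ℕ) : A1 d := by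
  intro t x ht
  refine ⟨?_, ?_⟩
  · have h := antisymm (d := d) (fun l => vn ℝ l * kap l)
      (fun l σ => by rw [vn_perm, kap_perm, mul_assoc]) x (t + d * (d - 1) / 2)
    rw [h]
    unfold PP
    congr 1
    refine Finset.sum_congr rfl fun l _ => ?_
    unfold kap
    ring
  · have hN : t + d * (d - 1) / 2 = (t - 1 + d * (d - 1) / 2) + 1 := by omega
    have h1 : NP d t x =
        ∑ m ∈ Finset.piAntidiag Finset.univ (t - 1 + d * (d - 1) / 2),
          (∑ i, kap (Function.update m i (m i + 1)) * (m i + 1) *
            vn ℝ (Function.update m i (m i + 1))) * ∏ j, x j ^ m j := by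
      unfold NP
      rw [hN]
      have h2 := reindex (d := d) (fun l i => vn ℝ l * kap l * ((l i : ℝ) *
        ∏ j, x j ^ (Function.update l i (l i - 1) j))) (fun l i hl => by simp [hl])
        (t - 1 + d * (d - 1) / 2)
      simp only [Finset.mul_sum]
      rw [h2]
      refine Finset.sum_congr rfl fun m _ => ?_
      rw [Finset.sum_mul]
      refine Finset.sum_congr rfl fun i _ => ?_
      have h3 : Function.update (Function.update m i (m i + 1)) i
          (Function.update m i (m i + 1) i - 1) = m := by
        rw [Function.update_idem, Function.update_self]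
        have h4 : m i + 1 - 1 = m i := by omega
        rw [h4, Function.update_eq_self]
      rw [h3, Function.update_self]
      push_cast
      ring
    have h := antisymm (d := d) (fun m => ∑ i, kap (Function.update m i (m i + 1)) * (m i + 1) *
            vn ℝ (Function.update m i (m i + 1)))
      (fun m σ => by
        rw [Finset.mul_sum, ← Equiv.sum_comp σ (fun i => ((Equiv.Perm.sign σ : ℤ) : ℝ) *
          (kap (Function.update m i (m i + 1)) * (m i + 1) *
            vn ℝ (Function.update m i (m i + 1))))]
        refine Finset.sum_congr rfl fun i _ => ?_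
        rw [update_comp_perm, vn_perm, kap_perm]
        simp only [Function.comp]
        ring) x (t - 1 + d * (d - 1) / 2)
    rw [h1, ← h]
    refine Finset.sum_congr rfl fun m _ => ?_
    rw [Finset.sum_mul]

end Pool.Agent.T5h70.NH
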