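import Pool.Agent.T5h70.NH.T_A1

/-!
# Task A2 (helper78)
-/

set_option autoImplicit false

open scoped BigOperators

namespace Pool.Agent.T5h70.NH

theorem vd_cast {d : ℕ} (u : Fin d → ℝ) : ((vd u : ℝ) : ℂ) = vd (fun i => (u i : ℂ)) := by
  unfold vd
  push_cast
  rfl

theorem V1R {d : ℕ} (h1 : V1 d) (u : Fin d → ℝ) :
    ∑ k, vd (Function.update u k (u k + 1)) = d * vd u := by
  have h := h1 (fun i => (u i : ℂ))
  have h2 : ∀ k, vd (Function.update (fun i => (u i : ℂ)) k ((u k : ℂ) + 1)) =
      ((vd (Function.update u k (u k + 1)) : ℝ) : ℂ) := by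
    intro k
    rw [vd_cast]
    congr 1
    funext j
    by_cases hj : j = k
    · subst hj; simp
    · simp [Function.update_of_ne hj]
  simp only [h2] at h
  rw [← vd_cast] at h
  have h3 : ((∑ k, vd (Function.update u k (u k + 1)) : ℝ) : ℂ) = ((d * vd u : ℝ) : ℂ) := by
    push_cast
    exact h
  exact_mod_cast h3

theorem V2R {d : ℕ} (h1 : V2 d) (u : Fin d → ℝ) :
    ∑ k, u k * vd (Function.update u k (u k - 1)) =
      (∑ k, u k - (d : ℝ) * (d - 1) / 2) * vd u := by
  have h := h1 (fun i => (u i : ℂ))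
  have h2 : ∀ k, vd (Function.update (fun i => (u i : ℂ)) k ((u k : ℂ) - 1)) =
      ((vd (Function.update u k (u k - 1)) : ℝ) : ℂ) := by
    intro k
    rw [vd_cast]
    congr 1
    funext j
    by_cases hj : j = k
    · subst hj; simp
    · simp [Function.update_of_ne hj]
  simp only [h2] at h
  rw [← vd_cast] at h
  have h3 : ((∑ k, u k * vd (Function.update u k (u k - 1)) : ℝ) : ℂ) =
      (((∑ k, u k - (d : ℝ) * (d - 1) / 2) * vd u : ℝ) : ℂ) := by
    push_cast
    exact h
  exact_mod_cast h3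

theorem vn_update_add {d : ℕ} (m : Fin d → ℕ) (i : Fin d) :
    vd (Function.update (fun j => (m j : ℝ)) i ((m i : ℝ) + 1)) =
      vn ℝ (Function.update m i (m i + 1)) := by
  unfold vn
  congr 1
  funext j
  by_cases hj : j = i
  · subst hj; simp
  · simp [Function.update_of_ne hj]

theorem al_sum {d : ℕ} (x : Fin d → ℝ) (m : Fin d → ℕ) :
    (∑ i, x i) * al x m = ∑ k, al x (Function.update m k (m k + 1)) := by
  unfold al
  simp only [Matrix.det_apply', Matrix.of_apply]
  rw [Finset.sum_comm, Finset.mul_sum]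
  refine Finset.sum_congr rfl fun σ _ => ?_
  rw [← Equiv.sum_comp σ x]
  have h1 : ∀ k : Fin d, ∏ j, x (σ j) ^ (Function.update m k (m k + 1) j) =
      x (σ k) * ∏ j, x (σ j) ^ m j := by
    intro k
    rw [← Finset.mul_prod_erase Finset.univ _ (Finset.mem_univ k),
      ← Finset.mul_prod_erase Finset.univ (fun j => x (σ j) ^ m j) (Finset.mem_univ k)]
    rw [Function.update_self, pow_succ]
    have h2 : ∏ j ∈ Finset.univ.erase k, x (σ j) ^ (Function.update m k (m k + 1) j) =
        ∏ j ∈ Finset.univ.erase k, x (σ j) ^ m j := by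
      refine Finset.prod_congr rfl fun j hj => ?_
      rw [Function.update_of_ne (Finset.ne_of_mem_erase hj)]
    rw [h2]
    ring
  simp only [h1]
  rw [Finset.sum_mul]
  refine Finset.sum_congr rfl fun k _ => ?_
  ring

theorem cast_tri (d : ℕ) : ((d * (d - 1) / 2 : ℕ) : ℝ) = (d : ℝ) * (d - 1) / 2 := by
  rcases Nat.eq_zero_or_pos d with h | h
  · subst h; simp
  · have h2 : 2 ∣ d * (d - 1) := (Nat.even_mul_pred_self d).two_dvd
    rw [Nat.cast_div h2 (by norm_num)]
    push_cast [Nat.cast_sub h]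
    ring

theorem claim2 {d : ℕ} (h1 : V1 d) (h2 : V2 d) (t : ℕ) (x : Fin d → ℝ) (ht : 1 ≤ t) :
    (d : ℝ) * t * ∑ l ∈ Finset.piAntidiag Finset.univ (t + d * (d - 1) / 2),
        vn ℝ l * kap l * al x l =
      ∑ m ∈ Finset.piAntidiag Finset.univ (t - 1 + d * (d - 1) / 2), ∑ i, ∑ k,
        kap (Function.update m i (m i + 1)) * (m i + 1) *
          vn ℝ (Function.update m k (m k + 1)) * al x (Function.update m i (m i + 1)) := by
  have hN : t + d * (d - 1) / 2 = (t - 1 + d * (d - 1) / 2) + 1 := by omega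
  have h3 : ∀ l ∈ Finset.piAntidiag (Finset.univ : Finset (Fin d)) (t + d * (d - 1) / 2),
      (d : ℝ) * t * (vn ℝ l * kap l * al x l) = ∑ i, (d : ℝ) * kap l * al x l * ((l i : ℝ) *
        vd (Function.update (fun j => (l j : ℝ)) i ((l i : ℝ) - 1))) := by
    intro l hl
    rw [mem_pi] at hl
    have h4 := V2R h2 (fun j => (l j : ℝ))
    have h5 : ∑ k, (l k : ℝ) = t + (d : ℝ) * (d - 1) / 2 := by
      rw [← Nat.cast_sum, hl]
      push_cast
      rw [cast_tri]
    rw [h5] at h4
    rw [← Finset.mul_sum, h4]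
    unfold vn
    ring
  rw [Finset.mul_sum, Finset.sum_congr rfl h3, hN]
  rw [reindex (d := d) (fun l i => (d : ℝ) * kap l * al x l * ((l i : ℝ) *
        vd (Function.update (fun j => (l j : ℝ)) i ((l i : ℝ) - 1))))
        (fun l i hl => by simp [hl]) (t - 1 + d * (d - 1) / 2)]
  refine Finset.sum_congr rfl fun m _ => ?_
  refine Finset.sum_congr rfl fun i _ => ?_
  have h6 : Function.update (fun j => ((Function.update m i (m i + 1) j : ℕ) : ℝ)) i
      (((Function.update m i (m i + 1) i : ℕ) : ℝ) - 1) = fun j => (m j : ℝ) := by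
    funext j
    by_cases hj : j = i
    · subst hj; simp
    · simp [Function.update_of_ne hj]
  rw [h6]
  have h7 := V1R h1 (fun j => (m j : ℝ))
  simp only [vn_update_add] at h7
  rw [Function.update_self]
  have h8 : ∑ k, kap (Function.update m i (m i + 1)) * ((m i : ℝ) + 1) *
          vn ℝ (Function.update m k (m k + 1)) * al x (Function.update m i (m i + 1)) =
      kap (Function.update m i (m i + 1)) * ((m i : ℝ) + 1) *
        al x (Function.update m i (m i + 1)) * ∑ k, vn ℝ (Function.update m k (m k + 1)) := by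
    rw [Finset.mul_sum]
    refine Finset.sum_congr rfl fun k _ => ?_
    ring
  rw [h8, h7]
  push_cast
  ring

theorem t_A2 (d : ℕ) (h1 : V1 d) (h2 : V2 d) (h3 : A1 d) : A2 d := by
  intro t x ht
  obtain ⟨hP, hN⟩ := h3 t x ht
  have hc := claim2 h1 h2 t x ht
  rw [← hP] at hc
  have hc1 : (∑ i, x i) * ((d.factorial : ℝ) * NP d t x) =
      ∑ m ∈ Finset.piAntidiag Finset.univ (t - 1 + d * (d - 1) / 2), ∑ i, ∑ k,
        kap (Function.update m i (m i + 1)) * (m i + 1) *
          vn ℝ (Function.update m i (m i + 1)) * al x (Function.update m k (m k + 1)) := by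
    rw [hN, Finset.mul_sum]
    refine Finset.sum_congr rfl fun m _ => ?_
    rw [Finset.mul_sum]
    refine Finset.sum_congr rfl fun i _ => ?_
    rw [← Finset.mul_sum, ← al_sum]
    ring
  have hS : SS d t x =
      2 * (∑ m ∈ Finset.piAntidiag Finset.univ (t - 1 + d * (d - 1) / 2), ∑ i, ∑ k,
        kap (Function.update m i (m i + 1)) * (m i + 1) *
          vn ℝ (Function.update m i (m i + 1)) * al x (Function.update m k (m k + 1))) -
      2 * (∑ m ∈ Finset.piAntidiag Finset.univ (t - 1 + d * (d - 1) / 2), ∑ i, ∑ k,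
        kap (Function.update m i (m i + 1)) * (m i + 1) *
          vn ℝ (Function.update m k (m k + 1)) * al x (Function.update m i (m i + 1))) := by
    unfold SS
    rw [Finset.mul_sum, Finset.mul_sum, ← Finset.sum_sub_distrib]
    refine Finset.sum_congr rfl fun m _ => ?_
    have key : ∀ (w D a : Fin d → ℝ), ∑ i, ∑ k, (w i - w k) * (D i * a k - D k * a i) =
        2 * ∑ i, ∑ k, w i * D i * a k - 2 * ∑ i, ∑ k, w i * D k * a i := by
      intro w D a
      have e1 : ∑ i, ∑ k, w k * D k * a i = ∑ i, ∑ k, w i * D i * a k := Finset.sum_comm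
      have e2 : ∑ i, ∑ k, w k * D i * a k = ∑ i, ∑ k, w i * D k * a i := Finset.sum_comm
      have e3 : ∑ i, ∑ k, (w i - w k) * (D i * a k - D k * a i) =
          ∑ i, ∑ k, w i * D i * a k - ∑ i, ∑ k, w i * D k * a i -
            ∑ i, ∑ k, w k * D i * a k + ∑ i, ∑ k, w k * D k * a i := by
        simp only [← Finset.sum_sub_distrib, ← Finset.sum_add_distrib]
        refine Finset.sum_congr rfl fun i _ => Finset.sum_congr rfl fun k _ => ?_
        ring
      rw [e3, e1, e2]
      ring
    exact key (fun i => kap (Function.update m i (m i + 1)) * (m i + 1))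
      (fun i => vn ℝ (Function.update m i (m i + 1)))
      (fun i => al x (Function.update m i (m i + 1)))
  rw [hS, ← hc1, ← hc]
  ring

end Pool.Agent.T5h70.NH
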