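import Pool.Agent.T5h70.NH.T_A2

/-!
# Task A3 (helper78)
-/

set_option autoImplicit false

open scoped BigOperators

namespace Pool.Agent.T5h70.NH

theorem kap_update {d : ℕ} (m : Fin d → ℕ) (i : Fin d) :
    kap (Function.update m i (m i + 1)) * (m i + 1) =
      1 / ((∏ j, ((m j).factorial : ℝ)) ^ 2 * ((m i : ℝ) + 1)) := by
  have h1 : ∏ j, ((Function.update m i (m i + 1) j).factorial : ℝ) =
      ((m i : ℝ) + 1) * ∏ j, ((m j).factorial : ℝ) := by
    rw [← Finset.mul_prod_erase Finset.univ _ (Finset.mem_univ i),
      ← Finset.mul_prod_erase Finset.univ (fun j => ((m j).factorial : ℝ)) (Finset.mem_univ i)]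
    rw [Function.update_self, Nat.factorial_succ]
    have h2 : ∏ j ∈ Finset.univ.erase i, ((Function.update m i (m i + 1) j).factorial : ℝ) =
        ∏ j ∈ Finset.univ.erase i, ((m j).factorial : ℝ) := by
      refine Finset.prod_congr rfl fun j hj => ?_
      rw [Function.update_of_ne (Finset.ne_of_mem_erase hj)]
    rw [h2]
    push_cast
    ring
  unfold kap
  rw [h1]
  have h3 : (∏ j, ((m j).factorial : ℝ)) ≠ 0 :=
    Finset.prod_ne_zero_iff.2 fun j _ => by positivity
  have h4 : (m i : ℝ) + 1 ≠ 0 := by positivity
  field_simp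

theorem kap_le {d : ℕ} (m : Fin d → ℕ) (i k : Fin d) (h : m k ≤ m i) :
    kap (Function.update m i (m i + 1)) * (m i + 1) ≤
      kap (Function.update m k (m k + 1)) * (m k + 1) := by
  rw [kap_update, kap_update]
  have h3 : 0 < (∏ j, ((m j).factorial : ℝ)) ^ 2 := by
    have : 0 < (∏ j, ((m j).factorial : ℝ)) := Finset.prod_pos fun j _ => by positivity
    positivity
  have h4 : (m k : ℝ) ≤ m i := by exact_mod_cast h
  apply one_div_le_one_div_of_le
  · positivity
  · exact mul_le_mul_of_nonneg_left (by linarith) h3.le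

theorem t_A3 (d : ℕ) (h1 : AN d) (h2 : A2 d) : A3 d := by
  intro t x ht hx hpos
  have h := h2 t x ht
  have hSS : 0 ≤ SS d t x := by
    unfold SS
    refine Finset.sum_nonneg fun m _ => Finset.sum_nonneg fun i _ =>
      Finset.sum_nonneg fun k _ => ?_
    rcases lt_trichotomy (m k) (m i) with hl | he | hg
    · have h3 := h1 x m i k hx hpos hl
      have h4 := kap_le m i k hl.le
      apply mul_nonneg_of_nonpos_of_nonpos
      · linarith
      · nlinarith [h3]
    · have h4 := kap_le m i k he.le
      have h5 := kap_le m k i he.ge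
      have h6 : kap (Function.update m i (m i + 1)) * (m i + 1) -
        kap (Function.update m k (m k + 1)) * (m k + 1) = 0 := by linarith
      rw [h6, zero_mul]
    · have h3 := h1 x m k i hx hpos hg
      have h4 := kap_le m k i hg.le
      apply mul_nonneg
      · linarith
      · nlinarith [h3]
  have hf : (0 : ℝ) < d.factorial := by exact_mod_cast d.factorial_pos
  by_contra hc
  push Not at hc
  have h5 : 2 * (d.factorial : ℝ) * ((∑ i, x i) * NP d t x - d * t * PP d t x) < 0 := by
    apply mul_neg_of_pos_of_neg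
    · positivity
    · linarith
  linarith

end Pool.Agent.T5h70.NH
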