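import Pool.Agent.T5h70.NH.Stm

open Matrix MeasureTheory MvPolynomial
open scoped BigOperators ComplexConjugate ComplexOrder

namespace Pool.Agent.T5h70.NH.FORM

open Pool.Agent.V11219.MomentOp Pool.Agent.T5h70.NH

variable {d : ℕ}

abbrev MP (d : ℕ) := MvPolynomial (Fin d) ℂ

noncomputable def VX (d : ℕ) : MP d := vd (fun i => (X i : MP d))

lemma X_mul_pderiv_monomial (i : Fin d) (s : Fin d →₀ ℕ) (a : ℂ) :
    (X i : MP d) * pderiv i (monomial s a) = monomial s (a * s i) := by
  rw [pderiv_monomial]
  by_cases h : s i = 0
  · simp [h]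
  · rw [X, monomial_mul, one_mul]
    have : Finsupp.single i 1 + (s - Finsupp.single i 1) = s := by
      ext j
      by_cases hj : j = i
      · subst hj; simp; omega
      · simp [Finsupp.single_apply, Ne.symm hj]
    rw [this]

lemma coeff_theta (i : Fin d) (f : MP d) (m : Fin d →₀ ℕ) :
    coeff m (X i * pderiv i f) = (m i : ℂ) * coeff m f := by
  induction f using MvPolynomial.induction_on' with
  | monomial s a =>
    rw [X_mul_pderiv_monomial, coeff_monomial, coeff_monomial]
    split_ifs with h
    · subst h; ring
    · simp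
  | add p q hp hq => simp [mul_add, hp, hq]

lemma vd_det {R : Type*} [CommRing R] (x : Fin d → R) :
    vd x = (∏ i : Fin d, ∏ j ∈ Finset.Ioi i, (-1 : R)) * (Matrix.vandermonde x).det := by
  rw [Matrix.det_vandermonde, ← Finset.prod_mul_distrib]
  unfold vd
  refine Finset.prod_congr rfl fun i _ => ?_
  rw [← Finset.prod_mul_distrib]
  refine Finset.prod_congr ?_ fun j _ => by ring
  ext j; simp

lemma vd_perm {R : Type*} [CommRing R] (x : Fin d → R) (σ : Equiv.Perm (Fin d)) :
    vd (x ∘ σ) = (Equiv.Perm.sign σ : R) * vd x := by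
  rw [vd_det, vd_det]
  have : Matrix.vandermonde (x ∘ σ) = (Matrix.vandermonde x).submatrix σ id := by
    ext i j; simp [Matrix.vandermonde]
  rw [this, Matrix.det_permute]
  ring

lemma vd_zero {R : Type*} [CommRing R] (x : Fin d → R) (i j : Fin d) (hij : i ≠ j)
    (h : x i = x j) : vd x = 0 := by
  rw [vd_det]
  have : (Matrix.vandermonde x).det = 0 := by
    apply Matrix.det_zero_of_row_eq hij
    ext k; simp [Matrix.vandermonde, h]
  rw [this, mul_zero]

lemma VX_rename (σ : Equiv.Perm (Fin d)) : rename σ (VX d) = C (((Equiv.Perm.sign σ : ℤˣ) : ℤ) : ℂ) * VX d := by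
  have h1 : rename σ (VX d) = vd (fun i => (X (σ i) : MP d)) := by
    unfold VX vd
    simp only [map_prod, map_sub, rename_X]
  rw [h1]
  have h2 := vd_perm (fun i => (X i : MP d)) σ
  have h3 : ((fun i => (X i : MP d)) ∘ σ) = fun i => (X (σ i) : MP d) := rfl
  rw [h3] at h2
  rw [h2]
  simp [VX]

/-- the number `d(d-1)/2` is the degree -/
lemma VX_hom (h : BASE d) : (VX d).IsHomogeneous (d * (d - 1) / 2) := by
  unfold VX
  rw [h]
  refine IsHomogeneous.sum _ _ _ fun l hl => ?_
  have h1 : (∏ i, (X i : MP d) ^ l i).IsHomogeneous (∑ i, l i) := by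
    refine IsHomogeneous.prod _ _ _ fun i _ => ?_
    simpa using (isHomogeneous_X ℂ i).pow (l i)
  rw [Finset.mem_piAntidiag] at hl
  rw [hl.1] at h1
  simpa using (isHomogeneous_C (Fin d) _).mul h1

/-- coefficient constant -/
noncomputable def cst (d t : ℕ) : ℂ := (t.factorial : ℂ) ^ 2 * ∏ j : Fin d, ((j : ℕ).factorial : ℂ)

/-- expected coefficient -/
noncomputable def ec (d t : ℕ) (l : Fin d → ℕ) : ℂ :=
  cst d t * vn ℂ l / (∏ i, ((l i).factorial : ℂ)) ^ 2

noncomputable def RR (d t : ℕ) : MP d :=
  ∑ l ∈ Finset.piAntidiag Finset.univ (t + d * (d - 1) / 2), C (ec d t l) * ∏ i, X i ^ l i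

lemma coeff_RR (t : ℕ) (m : Fin d →₀ ℕ) :
    coeff m (RR d t) = if ∑ i, m i = t + d * (d - 1) / 2 then ec d t m else 0 := by
  unfold RR
  rw [coeff_sum]
  have h1 : ∀ l : Fin d → ℕ, coeff m (C (ec d t l) * ∏ i, (X i : MP d) ^ l i) =
      if l = m then ec d t l else 0 := by
    intro l
    have : (∏ i, (X i : MP d) ^ l i) = monomial (Finsupp.equivFunOnFinite.symm l) 1 := by
      rw [monomial_eq]
      simp [Finsupp.prod_fintype]
    rw [this, C_mul_monomial, coeff_monomial, mul_one]
    congr 1
    rw [eq_iff_iff]
    constructor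
    · intro h; rw [← h]; rfl
    · intro h; rw [h]; ext; simp
  simp only [h1]
  rw [Finset.sum_ite_eq']
  simp [Finset.mem_piAntidiag]

lemma main (h1 : FamStm d) (h2 : V3 d) (h3 : CONJ d) (h4 : POSL d) (h5 : BASE d) (t : ℕ) :
    VX d * GP d t = RR d t := by
  induction t with
  | zero =>
    rw [h1.zero, mul_one]
    unfold VX RR ec cst
    rw [h5]
    simp
  | succ t ih =>
    set κ : ℂ := ∑ j : Fin d, (j : ℂ) ^ 2 with hκ
    have hc := h3 (t + 1) (GP d (t + 1)) (QP d (t + 1)) (h1.hom _) (h1.hQs _) (h1.hQ _) (h1.hQd _)
    have hE := h1.hE (t + 1) (by omega)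
    rw [Nat.add_sub_cancel] at hE
    -- the equation for P
    have hP : ∑ i, X i * pderiv i (X i * pderiv i (VX d * GP d (t + 1))) =
        C (κ + (d - 1) * ((t + 1 : ℕ) : ℂ)) * (VX d * GP d (t + 1)) +
          C (((t + 1 : ℕ) : ℂ) ^ 2) * ((∑ i, X i) * RR d t) := by
      unfold VX at ih ⊢
      rw [hc, ← ih]
      have h6 : ∑ i, ∑ j, X i * X j * QP d (t + 1) i j =
          C (((t + 1 : ℕ) : ℂ) ^ 2) * (∑ i, X i) * GP d t - C ((d : ℂ) * ((t + 1 : ℕ) : ℂ)) * GP d (t + 1) :=
        eq_sub_of_add_eq' hE
      rw [h6, ← hκ]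
      simp only [map_add, map_mul, map_sub, map_one]
      have : (C (2 : ℂ) : MP d) = 2 := map_ofNat C 2
      rw [this]
      ring
    ext m
    have hcoef : (∑ i, (m i : ℂ) ^ 2) * coeff m (VX d * GP d (t + 1)) =
        (κ + (d - 1) * ((t + 1 : ℕ) : ℂ)) * coeff m (VX d * GP d (t + 1)) +
          ((t + 1 : ℕ) : ℂ) ^ 2 * ∑ i, (if i ∈ m.support then
            (coeff (m - Finsupp.single i 1) (RR d t)) else 0) := by
      have h := congrArg (coeff m) hP
      rw [coeff_add, coeff_C_mul, coeff_C_mul, Finset.sum_mul, coeff_sum, coeff_sum] at h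
      simp only [coeff_X_mul'] at h
      rw [← h, Finset.sum_mul]
      refine Finset.sum_congr rfl fun i _ => ?_
      have h9 := coeff_theta i (X i * pderiv i (VX d * GP d (t + 1))) m
      have h9' := coeff_theta i (VX d * GP d (t + 1)) m
      rw [h9'] at h9
      rw [← coeff_X_mul', h9]
      ring
    rw [coeff_RR]
    by_cases hm : ∑ i, m i = t + 1 + d * (d - 1) / 2
    · rw [if_pos hm]
      by_cases hinj : Function.Injective m
      · have hF : (∑ i, (m i : ℂ) ^ 2) - κ - (d - 1) * ((t + 1 : ℕ) : ℂ) ≠ 0 := by
          have := h4 (t + 1) m (by omega) hinj hm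
          intro h0
          have h10 : ((∑ i, (m i : ℝ) ^ 2 - ∑ j : Fin d, (j : ℝ) ^ 2 -
              ((d : ℝ) - 1) * ((t + 1 : ℕ) : ℝ) : ℝ) : ℂ) = 0 := by
            rw [← h0, hκ]; push_cast; rfl
          have h11 := Complex.ofReal_eq_zero.1 h10
          linarith
        have hv3 := h2 fun i => (m i : ℂ)
        have hsum : (∑ k, (m k : ℂ)) = ((t + 1 : ℕ) : ℂ) + (d : ℂ) * (d - 1) / 2 := by
          have h12 : (∑ k, (m k : ℂ)) = ((∑ k, m k : ℕ) : ℂ) := by push_cast; rfl
          rw [h12, hm]
          have h13 : ((d * (d - 1) / 2 : ℕ) : ℂ) = (d : ℂ) * (d - 1) / 2 := by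
            rw [Nat.cast_div (even_iff_two_dvd.1 (Nat.even_mul_pred_self d)) (by norm_num)]
            rcases d with _ | d
            · simp
            · push_cast; simp
          push_cast
          push_cast at h13
          rw [h13]
        rw [hsum, add_sub_cancel_right, ← hκ] at hv3
        -- the sum
        have hS : ∑ i, (if i ∈ m.support then (coeff (m - Finsupp.single i 1) (RR d t)) else 0) =
            cst d t / (∏ i, ((m i).factorial : ℂ)) ^ 2 *
              ∑ k, (m k : ℂ) ^ 2 * vd (Function.update (fun i => (m i : ℂ)) k ((m k : ℂ) - 1)) := by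
          rw [Finset.mul_sum]
          refine Finset.sum_congr rfl fun i _ => ?_
          by_cases hi : m i = 0
          · simp [hi]
          · rw [if_pos (by simpa using hi), coeff_RR, if_pos]
            · unfold ec vn
              have e1 : (fun j => (((m - Finsupp.single i 1 : Fin d →₀ ℕ) j : ℕ) : ℂ)) =
                  Function.update (fun i => (m i : ℂ)) i ((m i : ℂ) - 1) := by
                ext j
                by_cases hj : j = i
                · subst hj
                  simp only [Finsupp.coe_tsub, Pi.sub_apply, Finsupp.single_eq_same,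
                    Function.update_self]
                  rw [Nat.cast_sub (by omega)]; simp
                · simp [Function.update_of_ne hj, hj]
              rw [e1]
              have e2 : (∏ j, ((m j).factorial : ℂ)) =
                  (m i : ℂ) * ∏ j, ((((m - Finsupp.single i 1 : Fin d →₀ ℕ) j : ℕ)).factorial : ℂ) := by
                rw [← Finset.mul_prod_erase _ _ (Finset.mem_univ i),
                  ← Finset.mul_prod_erase _ (fun j => ((((m - Finsupp.single i 1 : Fin d →₀ ℕ) j : ℕ)).factorial : ℂ))
                    (Finset.mem_univ i), ← mul_assoc]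
                congr 1
                · have : (m - Finsupp.single i 1 : Fin d →₀ ℕ) i = m i - 1 := by simp
                  rw [this]
                  have h14 : (m i).factorial = m i * (m i - 1).factorial :=
                    (Nat.mul_factorial_pred hi).symm
                  rw [h14]; push_cast; rfl
                · refine Finset.prod_congr rfl fun j hj => ?_
                  have hj' : j ≠ i := Finset.ne_of_mem_erase hj
                  simp [hj']
              rw [e2]
              have hne : (∏ j, ((((m - Finsupp.single i 1 : Fin d →₀ ℕ) j : ℕ)).factorial : ℂ)) ≠ 0 :=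
                Finset.prod_ne_zero_iff.2 fun j _ => by exact_mod_cast Nat.factorial_ne_zero _
              have hne2 : (m i : ℂ) ≠ 0 := by exact_mod_cast hi
              field_simp
            · have h15 : ∑ j, m j = ∑ j, (m - Finsupp.single i 1 : Fin d →₀ ℕ) j + 1 := by
                have h16 : m = (m - Finsupp.single i 1) + Finsupp.single i 1 := by
                  ext j
                  by_cases hj : j = i
                  · subst hj; simp; omega
                  · simp [hj]
                conv_lhs => rw [h16]
                simp only [Finsupp.coe_add, Pi.add_apply, Finset.sum_add_distrib]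
                congr 1
                simp [Finsupp.single_apply]
              omega
        rw [hS, hv3] at hcoef
        have hcst : cst d (t + 1) = ((t + 1 : ℕ) : ℂ) ^ 2 * cst d t := by
          unfold cst
          rw [Nat.factorial_succ]
          push_cast
          ring
        have hfin : ((∑ i, (m i : ℂ) ^ 2) - κ - (d - 1) * ((t + 1 : ℕ) : ℂ)) *
            coeff m (VX d * GP d (t + 1)) =
            ((∑ i, (m i : ℂ) ^ 2) - κ - (d - 1) * ((t + 1 : ℕ) : ℂ)) * ec d (t + 1) m := by
          unfold ec vn
          rw [hcst]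
          linear_combination hcoef
        exact mul_left_cancel₀ hF hfin
      · rw [Function.not_injective_iff] at hinj
        obtain ⟨i, j, hmij, hij⟩ := hinj
        have hz : ec d (t + 1) m = 0 := by
          unfold ec vn
          rw [vd_zero _ i j hij (by simp [hmij])]
          simp
        rw [hz]
        have hanti : rename (Equiv.swap i j) (VX d * GP d (t + 1)) = - (VX d * GP d (t + 1)) := by
          rw [map_mul, VX_rename, h1.symm, Equiv.Perm.sign_swap hij]
          simp
        have h7 := congrArg (coeff m) hanti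
        have h8 : coeff m (rename (Equiv.swap i j) (VX d * GP d (t + 1))) =
            coeff m (VX d * GP d (t + 1)) := by
          have h9 : Finsupp.mapDomain (Equiv.swap i j) m = m := by
            ext k
            rw [← Equiv.swap_apply_self i j k, Finsupp.mapDomain_apply (Equiv.swap i j).injective]
            by_cases hk : k = i
            · subst hk; simp [hmij]
            · by_cases hk' : k = j
              · subst hk'; simp [hmij]
              · rw [Equiv.swap_apply_of_ne_of_ne hk hk', Equiv.swap_apply_of_ne_of_ne hk hk']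
          conv_lhs => rw [← h9]
          exact coeff_rename_mapDomain _ (Equiv.swap i j).injective _ _
        rw [h8, coeff_neg] at h7
        linear_combination h7 / 2
    · rw [if_neg hm]
      have hh : (VX d * GP d (t + 1)).IsHomogeneous (d * (d - 1) / 2 + (t + 1)) :=
        (VX_hom h5).mul (h1.hom _)
      refine hh.coeff_eq_zero ?_
      rw [Finsupp.degree_eq_sum]
      omega

theorem t_FORM (d : ℕ) (h1 : FamStm d) (h2 : V3 d) (h3 : CONJ d) (h4 : POSL d) (h5 : BASE d)
    (h6 : FE d) : FORM d := by
  intro t x
  have h := congrArg (MvPolynomial.eval fun i => ((x i : ℝ) : ℂ)) (main h1 h2 h3 h4 h5 t)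
  rw [map_mul, h6.1] at h
  have hv : MvPolynomial.eval (fun i => ((x i : ℝ) : ℂ)) (VX d) = ((vd x : ℝ) : ℂ) := by
    unfold VX vd
    simp
  rw [hv] at h
  rw [h]
  unfold RR ec cst PP vn vd
  push_cast
  simp only [map_sum, map_mul, eval_C, map_prod, map_pow, eval_X]
  rw [Finset.mul_sum]
  refine Finset.sum_congr rfl fun l _ => ?_
  ring

end Pool.Agent.T5h70.NH.FORM
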