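import Pool.Agent.T5h70.NH.Stm

/-! Tensor powers of matrices and the Haar moment operator. -/

set_option autoImplicit false

open Matrix MeasureTheory
open scoped BigOperators ComplexConjugate ComplexOrder

namespace Pool.Agent.T5h70.NH.K1

open Pool.Agent.V11219.MomentOp Pool.Agent.T5h70.NH

theorem tp_apply {d t : ℕ} (A : Mat d) (i j : Fin t → Fin d) :
    tp t A i j = ∏ s, A (i s) (j s) := rfl

theorem tp_mul {d t : ℕ} (A B : Mat d) : tp t (A * B) = tp t A * tp t B := by
  ext i j
  rw [tp_apply, Matrix.mul_apply]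
  simp only [Matrix.mul_apply, tp_apply]
  rw [Finset.prod_univ_sum, Fintype.piFinset_univ]
  exact Finset.sum_congr rfl fun x _ => Finset.prod_mul_distrib

theorem tp_one {d t : ℕ} : tp t (1 : Mat d) = 1 := by
  ext i j
  rw [tp_apply]
  by_cases h : i = j
  · subst h
    simp
  · rw [Matrix.one_apply_ne h]
    obtain ⟨s, hs⟩ : ∃ s, i s ≠ j s := by
      by_contra hcon
      push Not at hcon
      exact h (funext hcon)
    exact Finset.prod_eq_zero (Finset.mem_univ s) (Matrix.one_apply_ne hs)

theorem tp_conj {d t : ℕ} (A : Mat d) : tp t Aᴴ = (tp t A)ᴴ := by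
  ext i j
  rw [tp_apply, Matrix.conjTranspose_apply, tp_apply, star_prod]
  rfl

theorem tp_trace {d t : ℕ} (A : Mat d) : trace (tp t A) = trace A ^ t := by
  unfold Matrix.trace
  simp only [Matrix.diag_apply, tp_apply]
  have h := Finset.prod_univ_sum (fun _ : Fin t => (Finset.univ : Finset (Fin d)))
    (fun _ i => A i i)
  rw [Fintype.piFinset_univ, Finset.prod_const, Finset.card_univ, Fintype.card_fin] at h
  exact h.symm

theorem tensorPow_apply {d t : ℕ} (Φ : Mat d →ₗ[ℂ] Mat d) (X : MatT d t) (k l : Fin t → Fin d) :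
    tensorPow t Φ X k l =
      ∑ i, ∑ j, X i j * ∏ s, Φ (Matrix.single (i s) (j s) 1) (k s) (l s) := rfl

theorem tensorPow_single {d t : ℕ} (Φ : Mat d →ₗ[ℂ] Mat d) (i j k l : Fin t → Fin d) :
    tensorPow t Φ (Matrix.single i j 1) k l =
      ∏ s, Φ (Matrix.single (i s) (j s) 1) (k s) (l s) := by
  rw [tensorPow_apply, Finset.sum_eq_single i, Finset.sum_eq_single j]
  · rw [Matrix.single_apply_same, one_mul]
  · intro b _ hb
    rw [Matrix.single_apply_of_ne _ _ _ _ _ (by tauto), zero_mul]
  · simp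
  · intro b _ hb
    refine Finset.sum_eq_zero fun c _ => ?_
    rw [Matrix.single_apply_of_ne _ _ _ _ _ (by tauto), zero_mul]
  · simp

theorem momentOp_apply {Ω : Type} [MeasurableSpace Ω] (μ : Measure Ω) {d t : ℕ}
    (Φ : Ω → (Mat d →ₗ[ℂ] Mat d))
    (h : ∀ i j k l : Fin t → Fin d, Integrable (fun ω => tensorPow t (Φ ω)
      (Matrix.single i j 1) k l) μ) (Y : MatT d t) (k l : Fin t → Fin d) :
    momentOp μ t Φ Y k l = ∫ ω, tensorPow t (Φ ω) Y k l ∂μ := by
  have h1 : ∀ ω, tensorPow t (Φ ω) Y k l =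
      ∑ i, ∑ j, Y i j * tensorPow t (Φ ω) (Matrix.single i j 1) k l := by
    intro ω
    simp only [tensorPow_single]
    rfl
  have h2 : ∀ i j : Fin t → Fin d, Integrable (fun ω => Y i j * tensorPow t (Φ ω)
      (Matrix.single i j 1) k l) μ := fun i j => (h i j k l).const_mul _
  have h3 : ∀ i : Fin t → Fin d, Integrable (fun ω => ∑ j, Y i j * tensorPow t (Φ ω)
      (Matrix.single i j 1) k l) μ := fun i => integrable_finsetSum _ fun j _ => h2 i j
  calc momentOp μ t Φ Y k l
      = ∑ i, ∑ j, Y i j * ∫ ω, tensorPow t (Φ ω) (Matrix.single i j 1) k l ∂μ := rfl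
    _ = ∑ i, ∑ j, ∫ ω, Y i j * tensorPow t (Φ ω) (Matrix.single i j 1) k l ∂μ := by
        simp only [integral_const_mul]
    _ = ∑ i, ∫ ω, ∑ j, Y i j * tensorPow t (Φ ω) (Matrix.single i j 1) k l ∂μ :=
        Finset.sum_congr rfl fun i _ => (integral_finsetSum _ fun j _ => h2 i j).symm
    _ = ∫ ω, ∑ i, ∑ j, Y i j * tensorPow t (Φ ω) (Matrix.single i j 1) k l ∂μ :=
        (integral_finsetSum _ fun i _ => h3 i).symm
    _ = ∫ ω, tensorPow t (Φ ω) Y k l ∂μ := by
        refine integral_congr_ae (Filter.Eventually.of_forall fun ω => ?_)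
        exact (h1 ω).symm

theorem conj_single {d : ℕ} (A B : Mat d) (i j k l : Fin d) :
    (A * Matrix.single i j 1 * B : Mat d) k l = A k i * B j l := by
  rw [Matrix.mul_apply, Finset.sum_eq_single j]
  · rw [Matrix.mul_apply, Finset.sum_eq_single i]
    · rw [Matrix.single_apply_same, mul_one]
    · intro b _ hb
      rw [Matrix.single_apply_of_ne _ _ _ _ _ (by tauto), mul_zero]
    · simp
  · intro b _ hb
    rw [Matrix.mul_apply, Finset.sum_eq_zero, zero_mul]
    intro c _
    rw [Matrix.single_apply_of_ne _ _ _ _ _ (by tauto), mul_zero]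
  · simp

theorem mul_mul_entry {m : Type} [Fintype m] (A Y B : Matrix m m ℂ) (k l : m) :
    (A * Y * B) k l = ∑ i, ∑ j, Y i j * (A k i * B j l) := by
  simp only [Matrix.mul_apply, Finset.sum_mul]
  rw [Finset.sum_comm]
  exact Finset.sum_congr rfl fun i _ => Finset.sum_congr rfl fun j _ => by ring

theorem tensorPow_unitary {d t : ℕ} (A : Mat d) (Y : MatT d t) :
    tensorPow t (unitaryCh A) Y = tp t A * Y * (tp t A)ᴴ := by
  ext k l
  rw [tensorPow_apply, mul_mul_entry]
  refine Finset.sum_congr rfl fun i _ => Finset.sum_congr rfl fun j _ => ?_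
  congr 1
  rw [← tp_conj, tp_apply, tp_apply, ← Finset.prod_mul_distrib]
  refine Finset.prod_congr rfl fun s _ => ?_
  show (A * Matrix.single (i s) (j s) 1 * Aᴴ : Mat d) (k s) (l s) = _
  rw [conj_single]

theorem continuous_entry {n : Type} [Fintype n] [DecidableEq n] (a b : n) :
    Continuous fun V : UU n => (V : Matrix n n ℂ) a b :=
  (continuous_apply_apply a b).comp continuous_subtype_val

theorem t_K1 (d t : ℕ) : K1 d t := by
  refine ⟨tp_mul, tp_one, tp_conj, tp_trace, tensorPow_unitary, fun Y k l => ?_⟩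
  unfold haarT
  rw [momentOp_apply]
  · simp only [tensorPow_unitary]
  · intro i j k l
    refine integrable_of_cont ?_
    simp only [tensorPow_single]
    refine continuous_finsetProd _ fun s _ => ?_
    show Continuous fun V : UU (Fin d) =>
      ((V : Mat d) * Matrix.single (i s) (j s) 1 * (V : Mat d)ᴴ : Mat d) (k s) (l s)
    simp only [conj_single, Matrix.conjTranspose_apply]
    exact (continuous_entry _ _).mul (continuous_star.comp (continuous_entry _ _))

end Pool.Agent.T5h70.NH.K1
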