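import Pool.Agent.T5h70.NH.T_K1

/-! Kraus operators of the moment operators of `cHaar`. -/

set_option autoImplicit false

open Matrix MeasureTheory
open scoped BigOperators ComplexConjugate ComplexOrder

namespace Pool.Agent.T5h70.NH.K2

open Pool.Agent.V11219.MomentOp Pool.Agent.T5h70.NH Pool.Agent.T5h70.NH.K1

/-- the Kraus operators of `dilated ψ V` -/
noncomputable def kr {d dE : ℕ} (ψ : Fin dE → ℂ) (V : Matrix (Fin d × Fin dE) (Fin d × Fin dE) ℂ)
    (x : Fin dE) : Mat d :=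
  Matrix.of fun k i => ∑ y, V (k, x) (i, y) * ψ y

theorem kr_apply {d dE : ℕ} (ψ : Fin dE → ℂ) (V : Matrix (Fin d × Fin dE) (Fin d × Fin dE) ℂ)
    (x : Fin dE) (k i : Fin d) : kr ψ V x k i = ∑ y, V (k, x) (i, y) * ψ y := rfl

theorem tk_apply {d dE t : ℕ} (ψ : Fin dE → ℂ) (V : Matrix (Fin d × Fin dE) (Fin d × Fin dE) ℂ)
    (x : Fin t → Fin dE) (k i : Fin t → Fin d) :
    tk t ψ V x k i = ∏ s, kr ψ V (x s) (k s) (i s) := rfl

theorem dilated_eq {d dE : ℕ} (ψ : Fin dE → ℂ) (V : Matrix (Fin d × Fin dE) (Fin d × Fin dE) ℂ)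
    (X : Mat d) : dilated ψ V X = ∑ x, kr ψ V x * X * (kr ψ V x)ᴴ := by
  ext k l
  rw [Matrix.sum_apply]
  show ∑ x : Fin dE, (V * (Matrix.kronecker X (Matrix.vecMulVec ψ (star ψ))) * Vᴴ :
    Matrix (Fin d × Fin dE) (Fin d × Fin dE) ℂ) (k, x) (l, x) = _
  refine Finset.sum_congr rfl fun x _ => ?_
  rw [mul_mul_entry, mul_mul_entry]
  have hk : ∀ (i : Fin d) (y : Fin dE) (j : Fin d) (z : Fin dE),
      Matrix.kronecker X (Matrix.vecMulVec ψ (star ψ)) (i, y) (j, z) =
        X i j * (ψ y * star (ψ z)) := fun _ _ _ _ => rfl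
  simp only [Fintype.sum_prod_type, Matrix.conjTranspose_apply, kr_apply, hk, star_sum, star_mul']
  refine Finset.sum_congr rfl fun i _ => ?_
  rw [Finset.sum_comm]
  refine Finset.sum_congr rfl fun j _ => ?_
  rw [Finset.sum_mul_sum, Finset.mul_sum]
  refine Finset.sum_congr rfl fun y _ => ?_
  rw [Finset.mul_sum]
  exact Finset.sum_congr rfl fun z _ => by ring

theorem kr_kraus {d dE : ℕ} (ψ : Fin dE → ℂ) (hψ : ∑ x, ‖ψ x‖ ^ 2 = 1)
    (V : UU (Fin d × Fin dE)) :
    ∑ x, (kr ψ (V : Matrix _ _ ℂ) x)ᴴ * kr ψ (V : Matrix _ _ ℂ) x = (1 : Mat d) := by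
  have hV : (V : Matrix (Fin d × Fin dE) (Fin d × Fin dE) ℂ)ᴴ * (V : Matrix _ _ ℂ) = 1 := by
    have := (Matrix.mem_unitaryGroup_iff').1 V.2
    rwa [Matrix.star_eq_conjTranspose] at this
  ext i j
  rw [Matrix.sum_apply]
  have h1 : ∀ y z : Fin dE, ∑ x, ∑ k, star ((V : Matrix (Fin d × Fin dE) (Fin d × Fin dE) ℂ) (k, x) (i, y)) *
      (V : Matrix (Fin d × Fin dE) (Fin d × Fin dE) ℂ) (k, x) (j, z) = (1 : Matrix (Fin d × Fin dE) (Fin d × Fin dE) ℂ) (i, y) (j, z) := by
    intro y z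
    rw [← hV, Matrix.mul_apply, Fintype.sum_prod_type, Finset.sum_comm]
    rfl
  calc ∑ x, ((kr ψ (V : Matrix _ _ ℂ) x)ᴴ * kr ψ (V : Matrix _ _ ℂ) x : Mat d) i j
      = ∑ x, ∑ k, ∑ y, ∑ z, star (ψ y) * ψ z *
          (star ((V : Matrix (Fin d × Fin dE) (Fin d × Fin dE) ℂ) (k, x) (i, y)) *
            (V : Matrix (Fin d × Fin dE) (Fin d × Fin dE) ℂ) (k, x) (j, z)) := by
        refine Finset.sum_congr rfl fun x _ => ?_
        rw [Matrix.mul_apply]
        refine Finset.sum_congr rfl fun k _ => ?_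
        rw [Matrix.conjTranspose_apply, kr_apply, kr_apply, star_sum, Finset.sum_mul_sum]
        refine Finset.sum_congr rfl fun y _ => Finset.sum_congr rfl fun z _ => ?_
        rw [star_mul']
        ring
    _ = ∑ y, ∑ z, star (ψ y) * ψ z * ∑ x, ∑ k,
          (star ((V : Matrix (Fin d × Fin dE) (Fin d × Fin dE) ℂ) (k, x) (i, y)) *
            (V : Matrix (Fin d × Fin dE) (Fin d × Fin dE) ℂ) (k, x) (j, z)) := by
        simp only [Finset.mul_sum]
        have e1 : ∀ x : Fin dE, ∑ k : Fin d, ∑ y : Fin dE, ∑ z : Fin dE, star (ψ y) * ψ z *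
            (star ((V : Matrix (Fin d × Fin dE) (Fin d × Fin dE) ℂ) (k, x) (i, y)) *
              (V : Matrix (Fin d × Fin dE) (Fin d × Fin dE) ℂ) (k, x) (j, z)) =
            ∑ y : Fin dE, ∑ z : Fin dE, ∑ k : Fin d, star (ψ y) * ψ z *
            (star ((V : Matrix (Fin d × Fin dE) (Fin d × Fin dE) ℂ) (k, x) (i, y)) *
              (V : Matrix (Fin d × Fin dE) (Fin d × Fin dE) ℂ) (k, x) (j, z)) := by
          intro x
          rw [Finset.sum_comm]
          exact Finset.sum_congr rfl fun y _ => Finset.sum_comm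
        simp only [e1]
        rw [Finset.sum_comm]
        exact Finset.sum_congr rfl fun y _ => Finset.sum_comm
    _ = (1 : Mat d) i j := by
        simp only [h1]
        by_cases hij : i = j
        · subst hij
          rw [Matrix.one_apply_eq]
          have e2 : ∀ y : Fin dE, ∑ z, star (ψ y) * ψ z *
              (1 : Matrix (Fin d × Fin dE) (Fin d × Fin dE) ℂ) (i, y) (i, z) =
              ((‖ψ y‖ ^ 2 : ℝ) : ℂ) := by
            intro y
            rw [Finset.sum_eq_single y]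
            · rw [Matrix.one_apply_eq, mul_one]
              have := Complex.conj_mul' (ψ y)
              push_cast
              exact this
            · intro z _ hz
              rw [Matrix.one_apply_ne (by simpa using hz.symm), mul_zero]
            · simp
          simp only [e2]
          rw [← Complex.ofReal_sum, hψ, Complex.ofReal_one]
        · rw [Matrix.one_apply_ne hij]
          refine Finset.sum_eq_zero fun y _ => Finset.sum_eq_zero fun z _ => ?_
          rw [Matrix.one_apply_ne (by simp [hij]), mul_zero]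

/-- sums of products over tuples -/
theorem sum_tup {dE t : ℕ} (F : Fin t → Fin dE → ℂ) :
    ∑ x : Fin t → Fin dE, ∏ s, F s (x s) = ∏ s, ∑ x, F s x := by
  rw [Finset.prod_univ_sum, Fintype.piFinset_univ]

theorem tk_kraus {d dE t : ℕ} (ψ : Fin dE → ℂ) (hψ : ∑ x, ‖ψ x‖ ^ 2 = 1)
    (V : UU (Fin d × Fin dE)) :
    ∑ x, (tk t ψ (V : Matrix _ _ ℂ) x)ᴴ * tk t ψ (V : Matrix _ _ ℂ) x = (1 : MatT d t) := by
  ext i j
  have h1 : ∀ x : Fin t → Fin dE, ((tk t ψ (V : Matrix _ _ ℂ) x)ᴴ * tk t ψ (V : Matrix _ _ ℂ) x :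
      MatT d t) i j = ∏ s, ((kr ψ (V : Matrix _ _ ℂ) (x s))ᴴ * kr ψ (V : Matrix _ _ ℂ) (x s) :
      Mat d) (i s) (j s) := by
    intro x
    rw [Matrix.mul_apply]
    simp only [Matrix.conjTranspose_apply, tk_apply, Matrix.mul_apply]
    rw [Finset.prod_univ_sum, Fintype.piFinset_univ]
    refine Finset.sum_congr rfl fun k _ => ?_
    rw [star_prod, ← Finset.prod_mul_distrib]
  rw [Matrix.sum_apply]
  refine (Finset.sum_congr rfl fun x _ => h1 x).trans ?_
  have h2 := sum_tup (dE := dE) (t := t) (fun s x =>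
    ((kr ψ (V : Matrix (Fin d × Fin dE) (Fin d × Fin dE) ℂ) x)ᴴ *
      kr ψ (V : Matrix (Fin d × Fin dE) (Fin d × Fin dE) ℂ) x : Mat d) (i s) (j s))
  refine h2.trans ?_
  rw [← tp_one, tp_apply]
  refine Finset.prod_congr rfl fun s _ => ?_
  rw [← kr_kraus ψ hψ V, Matrix.sum_apply]

theorem tensorPow_dilated {d dE t : ℕ} (ψ : Fin dE → ℂ)
    (V : Matrix (Fin d × Fin dE) (Fin d × Fin dE) ℂ) (Y : MatT d t) :
    tensorPow t (dilated ψ V) Y = ∑ x, tk t ψ V x * Y * (tk t ψ V x)ᴴ := by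
  ext k l
  rw [tensorPow_apply, Matrix.sum_apply]
  simp only [mul_mul_entry]
  rw [Finset.sum_comm]
  have h0 : ∀ j : Fin t → Fin d, ∑ i : Fin t → Fin d, Y i j *
      ∏ s, dilated ψ V (Matrix.single (i s) (j s) 1) (k s) (l s) =
      ∑ x : Fin t → Fin dE, ∑ i : Fin t → Fin d, Y i j * (tk t ψ V x k i * (tk t ψ V x)ᴴ j l) := by
    intro j
    rw [Finset.sum_comm]
    refine Finset.sum_congr rfl fun i _ => ?_
    rw [← Finset.mul_sum]
    congr 1
    have h1 : ∀ x : Fin t → Fin dE, tk t ψ V x k i * (tk t ψ V x)ᴴ j l =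
        ∏ s, (kr ψ V (x s) (k s) (i s) * (kr ψ V (x s))ᴴ (j s) (l s)) := by
      intro x
      rw [Matrix.conjTranspose_apply, tk_apply, tk_apply, star_prod, ← Finset.prod_mul_distrib]
      rfl
    simp only [h1]
    rw [sum_tup (fun s x => kr ψ V x (k s) (i s) * (kr ψ V x)ᴴ (j s) (l s))]
    refine Finset.prod_congr rfl fun s _ => ?_
    rw [dilated_eq, Matrix.sum_apply]
    exact Finset.sum_congr rfl fun x _ => conj_single _ _ _ _ _ _
  simp only [h0]
  rw [Finset.sum_comm]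
  exact Finset.sum_congr rfl fun x _ => Finset.sum_comm

theorem continuous_kr {d dE : ℕ} (ψ : Fin dE → ℂ) (x : Fin dE) (k i : Fin d) :
    Continuous fun V : UU (Fin d × Fin dE) => kr ψ (V : Matrix _ _ ℂ) x k i := by
  simp only [kr_apply]
  exact continuous_finsetSum _ fun y _ => (continuous_entry _ _).mul continuous_const

theorem continuous_tk {d dE t : ℕ} (ψ : Fin dE → ℂ) (x : Fin t → Fin dE) (k i : Fin t → Fin d) :
    Continuous fun V : UU (Fin d × Fin dE) => tk t ψ (V : Matrix _ _ ℂ) x k i := by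
  simp only [tk_apply]
  exact continuous_finsetProd _ fun s _ => continuous_kr _ _ _ _

theorem cT_apply {d dE t : ℕ} (ψ : Fin dE → ℂ) (Y : MatT d t) (k l : Fin t → Fin d) :
    cT d dE t ψ Y k l = ∫ V : UU (Fin d × Fin dE),
      (∑ x, tk t ψ (V : Matrix (Fin d × Fin dE) (Fin d × Fin dE) ℂ) x * Y *
        (tk t ψ (V : Matrix (Fin d × Fin dE) (Fin d × Fin dE) ℂ) x)ᴴ : MatT d t) k l
        ∂(haarU (Fin d × Fin dE)) := by
  unfold cT
  rw [momentOp_apply]
  · simp only [tensorPow_dilated]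
  · intro i j k l
    refine integrable_of_cont ?_
    simp only [tensorPow_dilated, Matrix.sum_apply, mul_mul_entry, Matrix.conjTranspose_apply]
    refine continuous_finsetSum _ fun x _ => continuous_finsetSum _ fun a _ =>
      continuous_finsetSum _ fun b _ => continuous_const.mul
        ((continuous_tk _ _ _ _).mul (continuous_star.comp (continuous_tk _ _ _ _)))

theorem continuous_tp {d dE t : ℕ} (ψ : Fin dE → ℂ) (i j k l : Fin t → Fin d) :
    Continuous fun V : UU (Fin d × Fin dE) =>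
      tensorPow t (dilated ψ (V : Matrix _ _ ℂ)) (Matrix.single i j 1) k l := by
  simp only [tensorPow_dilated, Matrix.sum_apply, mul_mul_entry, Matrix.conjTranspose_apply]
  refine continuous_finsetSum _ fun x _ => continuous_finsetSum _ fun a _ =>
    continuous_finsetSum _ fun b _ => continuous_const.mul
      ((continuous_tk _ _ _ _).mul (continuous_star.comp (continuous_tk _ _ _ _)))

theorem tensorPow_tp {d t : ℕ} (Φ : Mat d →ₗ[ℂ] Mat d) (Y : Mat d) :
    tensorPow t Φ (tp t Y) = tp t (Φ Y) := tensorPow_pure t Φ (fun _ => Y)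

theorem cT_tp {d dE t : ℕ} (ψ : Fin dE → ℂ) (Y : Mat d) (k l : Fin t → Fin d) :
    cT d dE t ψ (tp t Y) k l = ∫ V : UU (Fin d × Fin dE),
      tp t (dilated (d := d) ψ (V : Matrix _ _ ℂ) Y) k l ∂(haarU (Fin d × Fin dE)) := by
  unfold cT
  rw [momentOp_apply _ _ fun i j k l => integrable_of_cont (continuous_tp ψ i j k l)]
  refine integral_congr_ae (Filter.Eventually.of_forall fun V => ?_)
  show tensorPow t (dilated ψ (V : Matrix (Fin d × Fin dE) (Fin d × Fin dE) ℂ)) (tp t Y) k l = _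
  rw [tensorPow_tp]

theorem trace_dilated' {d dE : ℕ} (ψ : Fin dE → ℂ)
    (V : Matrix (Fin d × Fin dE) (Fin d × Fin dE) ℂ)
    (h : ∑ x, (kr ψ V x)ᴴ * kr ψ V x = (1 : Mat d)) (Y : Mat d) :
    trace (dilated ψ V Y) = trace Y := by
  have h1 : ∀ A : Mat d, trace (A * Y * Aᴴ) = trace (Aᴴ * A * Y) := fun A => by
    rw [Matrix.trace_mul_comm, ← Matrix.mul_assoc]
  rw [dilated_eq, Matrix.trace_sum]
  simp only [h1]
  rw [← Matrix.trace_sum, ← Finset.sum_mul, h, Matrix.one_mul]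

theorem psd_dilated' {d dE : ℕ} (ψ : Fin dE → ℂ)
    (V : Matrix (Fin d × Fin dE) (Fin d × Fin dE) ℂ) (Y : Mat d)
    (hY : Y.PosSemidef) : (dilated ψ V Y).PosSemidef := by
  rw [dilated_eq]
  exact Matrix.posSemidef_sum _ fun x _ => hY.mul_mul_conjTranspose_same _

theorem t_K2 (d dE t : ℕ) (ψ : Fin dE → ℂ) (hψ : ∑ x, ‖ψ x‖ ^ 2 = 1) : K2 d dE t ψ :=
  ⟨tk_kraus ψ hψ, cT_apply ψ, cT_tp ψ, fun V Y => psd_dilated' ψ _ Y,
    fun V Y => trace_dilated' ψ _ (kr_kraus ψ hψ V) Y⟩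

end Pool.Agent.T5h70.NH.K2
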