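import Pool.Agent.T5h70.NH.T_K2

/-! Invariance of the range of the moment operators of `cHaar`. -/

set_option autoImplicit false

open Matrix MeasureTheory
open scoped BigOperators ComplexConjugate ComplexOrder

namespace Pool.Agent.T5h70.NH.K3

open Pool.Agent.V11219.MomentOp Pool.Agent.T5h70.NH Pool.Agent.T5h70.NH.K1 Pool.Agent.T5h70.NH.K2

/-- `W ⊗ 1` -/
noncomputable def wo {d : ℕ} (dE : ℕ) (W : UU (Fin d)) : UU (Fin d × Fin dE) :=
  ⟨Matrix.kronecker (W : Mat d) (1 : Matrix (Fin dE) (Fin dE) ℂ), by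
    rw [Matrix.mem_unitaryGroup_iff, Matrix.star_eq_conjTranspose]
    have hW : (W : Mat d) * (W : Mat d)ᴴ = 1 := by
      have := (Matrix.mem_unitaryGroup_iff).1 W.2
      rwa [Matrix.star_eq_conjTranspose] at this
    have h1 := Matrix.conjTranspose_kronecker (W : Mat d) (1 : Matrix (Fin dE) (Fin dE) ℂ)
    have h2 := Matrix.mul_kronecker_mul (W : Mat d) (W : Mat d)ᴴ (1 : Matrix (Fin dE) (Fin dE) ℂ)
      (1 : Matrix (Fin dE) (Fin dE) ℂ)ᴴ
    rw [Matrix.conjTranspose_one] at h1 h2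
    show Matrix.kroneckerMap (fun x1 x2 => x1 * x2) (W : Mat d) (1 : Matrix (Fin dE) (Fin dE) ℂ) *
      (Matrix.kroneckerMap (fun x1 x2 => x1 * x2) (W : Mat d) (1 : Matrix (Fin dE) (Fin dE) ℂ))ᴴ = 1
    rw [h1, ← h2, hW, Matrix.one_mul, Matrix.one_kronecker_one]⟩

theorem wo_apply {d : ℕ} (dE : ℕ) (W : UU (Fin d)) (i j : Fin d) (x y : Fin dE) :
    (wo dE W : Matrix (Fin d × Fin dE) (Fin d × Fin dE) ℂ) (i, x) (j, y) =
      (W : Mat d) i j * (1 : Matrix (Fin dE) (Fin dE) ℂ) x y := rfl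

theorem kr_wo {d dE : ℕ} (ψ : Fin dE → ℂ) (W : UU (Fin d)) (V : UU (Fin d × Fin dE))
    (x : Fin dE) :
    kr ψ ((wo dE W * V : UU (Fin d × Fin dE)) : Matrix (Fin d × Fin dE) (Fin d × Fin dE) ℂ) x =
      (W : Mat d) * kr ψ (V : Matrix (Fin d × Fin dE) (Fin d × Fin dE) ℂ) x := by
  ext k i
  rw [kr_apply, Matrix.mul_apply]
  simp only [kr_apply, Submonoid.coe_mul]
  have h1 : ∀ y : Fin dE, ((wo dE W : Matrix (Fin d × Fin dE) (Fin d × Fin dE) ℂ) *
      (V : Matrix (Fin d × Fin dE) (Fin d × Fin dE) ℂ)) (k, x) (i, y) =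
      ∑ j, (W : Mat d) k j * (V : Matrix (Fin d × Fin dE) (Fin d × Fin dE) ℂ) (j, x) (i, y) := by
    intro y
    rw [Matrix.mul_apply, Fintype.sum_prod_type]
    refine Finset.sum_congr rfl fun j _ => ?_
    rw [Finset.sum_eq_single x]
    · rw [wo_apply, Matrix.one_apply_eq, mul_one]
    · intro z _ hz
      rw [wo_apply, Matrix.one_apply_ne hz.symm, mul_zero, zero_mul]
    · simp
  simp only [h1, Finset.sum_mul, Finset.mul_sum]
  rw [Finset.sum_comm]
  exact Finset.sum_congr rfl fun j _ => Finset.sum_congr rfl fun y _ => by ring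

theorem tk_wo {d dE t : ℕ} (ψ : Fin dE → ℂ) (W : UU (Fin d)) (V : UU (Fin d × Fin dE))
    (x : Fin t → Fin dE) :
    tk t ψ ((wo dE W * V : UU (Fin d × Fin dE)) : Matrix (Fin d × Fin dE) (Fin d × Fin dE) ℂ) x =
      tp t (W : Mat d) * tk t ψ (V : Matrix (Fin d × Fin dE) (Fin d × Fin dE) ℂ) x := by
  ext k i
  rw [tk_apply, Matrix.mul_apply]
  simp only [kr_wo, tk_apply, tp_apply, Matrix.mul_apply]
  rw [Finset.prod_univ_sum, Fintype.piFinset_univ]
  exact Finset.sum_congr rfl fun j _ => Finset.prod_mul_distrib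

theorem t_K3 (d dE t : ℕ) (ψ : Fin dE → ℂ) : K3 d dE t ψ := by
  intro W Y
  ext k l
  have h1 := shift (wo dE W) (fun V : UU (Fin d × Fin dE) =>
    (∑ x, tk t ψ (V : Matrix (Fin d × Fin dE) (Fin d × Fin dE) ℂ) x * Y *
        (tk t ψ (V : Matrix (Fin d × Fin dE) (Fin d × Fin dE) ℂ) x)ᴴ : MatT d t) k l)
  have h2 : ∀ V : UU (Fin d × Fin dE),
      (∑ x, tk t ψ ((wo dE W * V : UU (Fin d × Fin dE)) : Matrix (Fin d × Fin dE) (Fin d × Fin dE) ℂ) x * Y *
        (tk t ψ ((wo dE W * V : UU (Fin d × Fin dE)) : Matrix (Fin d × Fin dE) (Fin d × Fin dE) ℂ) x)ᴴ : MatT d t) k l =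
      ∑ a, ∑ b, (∑ x, tk t ψ (V : Matrix (Fin d × Fin dE) (Fin d × Fin dE) ℂ) x * Y *
        (tk t ψ (V : Matrix (Fin d × Fin dE) (Fin d × Fin dE) ℂ) x)ᴴ : MatT d t) a b *
          (tp t (W : Mat d) k a * (tp t (W : Mat d))ᴴ b l) := by
    intro V
    rw [← mul_mul_entry, Finset.mul_sum, Finset.sum_mul]
    have h3 : ∀ x : Fin t → Fin dE,
        tk t ψ ((wo dE W * V : UU (Fin d × Fin dE)) : Matrix (Fin d × Fin dE) (Fin d × Fin dE) ℂ) x * Y *
        (tk t ψ ((wo dE W * V : UU (Fin d × Fin dE)) : Matrix (Fin d × Fin dE) (Fin d × Fin dE) ℂ) x)ᴴ =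
        tp t (W : Mat d) * (tk t ψ (V : Matrix (Fin d × Fin dE) (Fin d × Fin dE) ℂ) x * Y *
        (tk t ψ (V : Matrix (Fin d × Fin dE) (Fin d × Fin dE) ℂ) x)ᴴ) * (tp t (W : Mat d))ᴴ := by
      intro x
      rw [tk_wo, Matrix.conjTranspose_mul]
      simp only [Matrix.mul_assoc]
    simp only [h3]
  have hi : ∀ a b : Fin t → Fin d, Integrable (fun V : UU (Fin d × Fin dE) =>
      (∑ x, tk t ψ (V : Matrix (Fin d × Fin dE) (Fin d × Fin dE) ℂ) x * Y *
        (tk t ψ (V : Matrix (Fin d × Fin dE) (Fin d × Fin dE) ℂ) x)ᴴ : MatT d t) a b)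
        (haarU (Fin d × Fin dE)) := by
    intro a b
    refine integrable_of_cont ?_
    simp only [Matrix.sum_apply, mul_mul_entry, Matrix.conjTranspose_apply]
    refine continuous_finsetSum _ fun x _ => continuous_finsetSum _ fun a _ =>
      continuous_finsetSum _ fun b _ => continuous_const.mul
        ((continuous_tk _ _ _ _).mul (continuous_star.comp (continuous_tk _ _ _ _)))
  simp only [h2] at h1
  rw [mul_mul_entry, cT_apply, ← h1]
  rw [integral_finsetSum _ fun a _ => integrable_finsetSum _ fun b _ => (hi a b).mul_const _]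
  refine Finset.sum_congr rfl fun a _ => ?_
  rw [integral_finsetSum _ fun b _ => (hi a b).mul_const _]
  refine Finset.sum_congr rfl fun b _ => ?_
  rw [integral_mul_const, cT_apply]

end Pool.Agent.T5h70.NH.K3
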