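import Pool.Agent.T5h70.NH.Stm

open Matrix MeasureTheory
open scoped BigOperators ComplexConjugate ComplexOrder

namespace Pool.Agent.T5h70.NH.K5

open Pool.Agent.V11219.MomentOp

variable {n : Type} [Fintype n] [DecidableEq n]
variable {D : Type} [Fintype D] [DecidableEq D]

/-- a linear functional is a combination of the entries -/
lemma lin_eq (L : Matrix D D ℂ →ₗ[ℂ] ℂ) (Y : Matrix D D ℂ) :
    L Y = ∑ i, ∑ j, Y i j * L (Matrix.single i j 1) := by
  conv_lhs => rw [Matrix.matrix_eq_sum_single Y]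
  simp only [map_sum]
  refine Finset.sum_congr rfl fun i _ => Finset.sum_congr rfl fun j _ => ?_
  have : Matrix.single i j (Y i j) = (Y i j) • Matrix.single i j (1 : ℂ) := by
    simp [Matrix.smul_single]
  rw [this, map_smul]; rfl

/-- linear functionals commute with the integral -/
lemma lin_int (F : UU n → Matrix D D ℂ) (hF : ∀ i j, Continuous fun V => F V i j)
    (X : Matrix D D ℂ) (hX : ∀ i j, X i j = ∫ V, F V i j ∂(haarU n))
    (L : Matrix D D ℂ →ₗ[ℂ] ℂ) : L X = ∫ V, L (F V) ∂(haarU n) := by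
  rw [lin_eq L X]
  simp_rw [lin_eq L (F _)]
  rw [integral_finsetSum _ (fun i _ => ?_)]
  · refine Finset.sum_congr rfl fun i _ => ?_
    rw [integral_finsetSum _ (fun j _ => ?_)]
    · refine Finset.sum_congr rfl fun j _ => ?_
      rw [integral_mul_const, hX]
    · exact (integrable_of_cont (hF i j)).mul_const _
  · exact integrable_finsetSum _ fun j _ => (integrable_of_cont (hF i j)).mul_const _

lemma cont_coe : Continuous fun V : UU n => (V : Matrix n n ℂ) := continuous_subtype_val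

lemma cont_tp {d : ℕ} (t : ℕ) {Ω : Type*} [TopologicalSpace Ω] {A : Ω → Mat d}
    (hA : Continuous A) : Continuous fun V => tp t (A V) := by
  unfold tp
  refine continuous_matrix fun i j => ?_
  simp only [Matrix.of_apply]
  exact continuous_finsetProd _ fun s _ => hA.matrix_elem _ _

lemma cont_conj {d : ℕ} (t : ℕ) (Y : MatT d t) :
    Continuous fun V : UU (Fin d) => tp t (V : Mat d) * Y * (tp t (V : Mat d))ᴴ := by
  have h := cont_tp t (cont_coe (n := Fin d))
  exact (h.matrix_mul continuous_const).matrix_mul h.matrix_conjTranspose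

lemma haarT_lin {d t : ℕ} (h : K1 d t) (Y : MatT d t) (L : MatT d t →ₗ[ℂ] ℂ) :
    L (haarT d t Y) = ∫ V : UU (Fin d), L (tp t (V : Mat d) * Y * (tp t (V : Mat d))ᴴ)
      ∂(haarU (Fin d)) := by
  refine lin_int (fun V : UU (Fin d) => tp t (V : Mat d) * Y * (tp t (V : Mat d))ᴴ) ?_ _ ?_ L
  · intro i j
    exact (cont_conj t Y).matrix_elem i j
  · intro i j
    exact h.2.2.2.2.2 Y i j

/-- the functional `X ↦ (A X B) k l` -/
noncomputable def ent (A B : Matrix D D ℂ) (k l : D) : Matrix D D ℂ →ₗ[ℂ] ℂ where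
  toFun X := (A * X * B) k l
  map_add' X Y := by simp [Matrix.mul_add, Matrix.add_mul]
  map_smul' c X := by simp

/-- the functional `X ↦ Tr (A X B)` -/
noncomputable def trf (A B : Matrix D D ℂ) : Matrix D D ℂ →ₗ[ℂ] ℂ where
  toFun X := trace (A * X * B)
  map_add' X Y := by simp [Matrix.mul_add, Matrix.add_mul]
  map_smul' c X := by simp

lemma haarT_inv {d t : ℕ} (h : K1 d t) (Y : MatT d t) (W : UU (Fin d)) :
    tp t (W : Mat d) * haarT d t Y * (tp t (W : Mat d))ᴴ = haarT d t Y := by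
  ext k l
  have h1 := haarT_lin h Y (ent (tp t (W : Mat d)) (tp t (W : Mat d))ᴴ k l)
  have h2 : ent (tp t (W : Mat d)) (tp t (W : Mat d))ᴴ k l (haarT d t Y) =
    (tp t (W : Mat d) * haarT d t Y * (tp t (W : Mat d))ᴴ) k l := rfl
  rw [← h2, h1, h.2.2.2.2.2 Y k l,
    ← shift W (fun V : UU (Fin d) => (tp t (V : Mat d) * Y * (tp t (V : Mat d))ᴴ) k l)]
  refine integral_congr_ae (Filter.Eventually.of_forall fun V => ?_)
  show (tp t (W : Mat d) * (tp t (V : Mat d) * Y * (tp t (V : Mat d))ᴴ) * (tp t (W : Mat d))ᴴ) k l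
    = (tp t ((W * V : UU (Fin d)) : Mat d) * Y * (tp t ((W * V : UU (Fin d)) : Mat d))ᴴ) k l
  rw [Submonoid.coe_mul, h.1, Matrix.conjTranspose_mul]
  simp only [Matrix.mul_assoc]

lemma haarT_star {d t : ℕ} (h : K1 d t) (Y : MatT d t) :
    (haarT d t Y)ᴴ = haarT d t Yᴴ := by
  ext k l
  rw [Matrix.conjTranspose_apply, h.2.2.2.2.2, h.2.2.2.2.2]
  have h1 : star (∫ V : UU (Fin d), (tp t (V : Mat d) * Y * (tp t (V : Mat d))ᴴ) l k
      ∂(haarU (Fin d))) = ∫ V : UU (Fin d), conj ((tp t (V : Mat d) * Y *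
        (tp t (V : Mat d))ᴴ) l k) ∂(haarU (Fin d)) := (integral_conj).symm
  rw [h1]
  refine integral_congr_ae (Filter.Eventually.of_forall fun V => ?_)
  have h2 : tp t (V : Mat d) * Yᴴ * (tp t (V : Mat d))ᴴ =
      (tp t (V : Mat d) * Y * (tp t (V : Mat d))ᴴ)ᴴ := by
    simp only [Matrix.conjTranspose_mul, Matrix.conjTranspose_conjTranspose, Matrix.mul_assoc]
  show conj ((tp t (V : Mat d) * Y * (tp t (V : Mat d))ᴴ) l k) =
    (tp t (V : Mat d) * Yᴴ * (tp t (V : Mat d))ᴴ) k l
  rw [h2, Matrix.conjTranspose_apply]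
  rfl

lemma unit_left {d : ℕ} (V : UU (Fin d)) : (V : Mat d)ᴴ * (V : Mat d) = 1 := by
  have := (Matrix.mem_unitaryGroup_iff').1 V.2
  simpa [Matrix.star_eq_conjTranspose] using this

lemma tp_left {d t : ℕ} (h : K1 d t) (V : UU (Fin d)) :
    (tp t (V : Mat d))ᴴ * tp t (V : Mat d) = 1 := by
  rw [← h.2.2.1, ← h.1, unit_left, h.2.1]

lemma tr_single (A B : Matrix D D ℂ) (p q : D) :
    trace (A * Matrix.single p q (1 : ℂ) * (B * Matrix.single q p (1 : ℂ))) = A p p * B q q := by
  rw [Matrix.trace]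
  simp only [Matrix.diag_apply, Matrix.mul_apply, Matrix.single_apply]
  simp [Finset.sum_ite_eq, ite_and]

theorem t_K5 (d t : ℕ) (h : K1 d t) : K5 d t := by
  intro M hM
  have hstep : ∀ p q : Fin t → Fin d,
      trace (M * ((haarT d t (Matrix.single p q 1))ᴴ * haarT d t (Matrix.single p q 1))) =
      ∫ V : UU (Fin d), (tp t (V : Mat d)) p p * ((tp t (V : Mat d))ᴴ * M) q q
        ∂(haarU (Fin d)) := by
    intro p q
    set E : MatT d t := Matrix.single p q 1 with hE
    set X := haarT d t E with hX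
    have hEs : Eᴴ = Matrix.single q p (1 : ℂ) := by
      rw [hE, Matrix.conjTranspose_single, star_one]
    -- commutation
    have hcomm : ∀ (Z : MatT d t), (∀ W : UU (Fin d), tp t (W : Mat d) * Z *
        (tp t (W : Mat d))ᴴ = Z) → ∀ V : UU (Fin d), tp t (V : Mat d) * Z = Z * tp t (V : Mat d) := by
      intro Z hZ V
      conv_rhs => rw [← hZ V]
      rw [Matrix.mul_assoc, Matrix.mul_assoc, tp_left h V, Matrix.mul_one]
    have hXc := hcomm X (fun W => haarT_inv h E W)
    have hMc := hcomm M hM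
    have h1 : trace (M * (Xᴴ * X)) = trace (X * M * Eᴴ) := by
      have e1 : trace (M * (Xᴴ * X)) = trf M X Xᴴ := by
        show _ = trace (M * Xᴴ * X)
        rw [Matrix.mul_assoc]
      rw [e1, haarT_star h E, haarT_lin h]
      have e2 : ∀ V : UU (Fin d), trf M X (tp t (V : Mat d) * Eᴴ * (tp t (V : Mat d))ᴴ) =
          trace (X * M * Eᴴ) := by
        intro V
        show trace (M * (tp t (V : Mat d) * Eᴴ * (tp t (V : Mat d))ᴴ) * X) = _
        have e3 : M * (tp t (V : Mat d) * Eᴴ * (tp t (V : Mat d))ᴴ) * X =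
            (M * tp t (V : Mat d) * Eᴴ) * ((tp t (V : Mat d))ᴴ * X) := by
          simp only [Matrix.mul_assoc]
        rw [e3, Matrix.trace_mul_comm]
        have e4 : (tp t (V : Mat d))ᴴ * X * (M * tp t (V : Mat d) * Eᴴ) =
            X * M * Eᴴ := by
          have e5 : X * (M * tp t (V : Mat d)) = tp t (V : Mat d) * (X * M) := by
            rw [← Matrix.mul_assoc, Matrix.mul_assoc, ← hMc V, ← Matrix.mul_assoc, ← hXc V,
              Matrix.mul_assoc]
          calc (tp t (V : Mat d))ᴴ * X * (M * tp t (V : Mat d) * Eᴴ)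
              = (tp t (V : Mat d))ᴴ * (X * (M * tp t (V : Mat d))) * Eᴴ := by
                simp only [Matrix.mul_assoc]
            _ = ((tp t (V : Mat d))ᴴ * tp t (V : Mat d)) * (X * M) * Eᴴ := by
                rw [e5]; simp only [Matrix.mul_assoc]
            _ = X * M * Eᴴ := by rw [tp_left h V, Matrix.one_mul]
        rw [e4]
      simp_rw [e2]
      simp
    rw [h1]
    have e6 : trace (X * M * Eᴴ) = trf 1 (M * Eᴴ) X := by
      show _ = trace (1 * X * (M * Eᴴ))
      rw [Matrix.one_mul, Matrix.mul_assoc]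
    rw [e6, hX, haarT_lin h]
    refine integral_congr_ae (Filter.Eventually.of_forall fun V => ?_)
    show trace (1 * (tp t (V : Mat d) * E * (tp t (V : Mat d))ᴴ) * (M * Eᴴ)) =
      (tp t (V : Mat d) : Matrix (Fin t → Fin d) (Fin t → Fin d) ℂ) p p *
        ((tp t (V : Mat d))ᴴ * M : Matrix (Fin t → Fin d) (Fin t → Fin d) ℂ) q q
    have e7 := tr_single (tp t (V : Mat d)) ((tp t (V : Mat d))ᴴ * M) p q
    rw [← e7, Matrix.one_mul, hEs, hE]
    simp only [Matrix.mul_assoc]
  simp_rw [hstep]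
  have hc : ∀ p q : Fin t → Fin d, Continuous fun V : UU (Fin d) =>
      (tp t (V : Mat d)) p p * ((tp t (V : Mat d))ᴴ * M) q q := by
    intro p q
    have h := cont_tp t (cont_coe (n := Fin d))
    exact (h.matrix_elem p p).mul
      ((h.matrix_conjTranspose.matrix_mul continuous_const).matrix_elem q q)
  have hsum : ∀ V : UU (Fin d), trace (tp t (V : Mat d)) * trace (M * (tp t (V : Mat d))ᴴ) =
      ∑ p, ∑ q, (tp t (V : Mat d)) p p * ((tp t (V : Mat d))ᴴ * M) q q := by
    intro V
    rw [Matrix.trace_mul_comm M, Matrix.trace, Matrix.trace, Finset.sum_mul_sum]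
    rfl
  simp_rw [hsum]
  rw [integral_finsetSum _ (fun p _ => ?_)]
  · refine Finset.sum_congr rfl fun p _ => ?_
    rw [integral_finsetSum _ (fun q _ => ?_)]
    exact integrable_of_cont (hc p q)
  · exact integrable_finsetSum _ fun q _ => integrable_of_cont (hc p q)

end Pool.Agent.T5h70.NH.K5
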