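import Pool.Agent.T5h70.NH.HaarD

open Matrix MeasureTheory
open scoped BigOperators ComplexConjugate ComplexOrder Topology

namespace Pool.Agent.T5h70.NH.SD1

open Pool.Agent.V11219.MomentOp Pool.Agent.T5h70.NH.HaarD

variable {d : ℕ}

lemma tr_single (i j : Fin d) (M : Mat d) : trace (Matrix.single i j 1 * M) = M j i := by
  rw [Matrix.trace_single_mul, one_smul]

lemma tr_mul_single (i j : Fin d) (M : Mat d) : trace (M * Matrix.single i j 1) = M j i := by
  rw [Matrix.trace_mul_comm, tr_single]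

lemma tr_diag (x : Fin d → ℂ) (V : Mat d) : trace (Matrix.diagonal x * V) = ∑ k, x k * V k k := by
  simp [Matrix.trace, Matrix.diagonal_mul]

lemma tr_diag_single (x : Fin d → ℂ) (i j : Fin d) (V : Mat d) :
    trace (Matrix.diagonal x * Matrix.single i j 1 * V) = x i * V j i := by
  rw [Matrix.mul_assoc, Matrix.trace_mul_comm, Matrix.mul_assoc, tr_single, Matrix.mul_diagonal,
    mul_comm]

lemma tr_three (x : Fin d → ℂ) (i j : Fin d) (V : Mat d) :
    trace (Matrix.diagonal x * Matrix.single j i 1 * Matrix.single i j 1 * V) = x j * V j j := by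
  rw [Matrix.mul_assoc (Matrix.diagonal x), Matrix.single_mul_single_same, mul_one,
    tr_diag_single]

lemma col (V : UU (Fin d)) (j : Fin d) : ∑ i, (V : Mat d) i j * conj ((V : Mat d) i j) = 1 := by
  have h := V.2
  rw [Matrix.mem_unitaryGroup_iff'] at h
  have h1 := congrFun (congrFun h j) j
  rw [Matrix.mul_apply, Matrix.one_apply_eq] at h1
  rw [← h1]
  refine Finset.sum_congr rfl fun i _ => ?_
  rw [Matrix.star_apply, mul_comm]
  rfl

/-- `S = ∑ x_k V_kk` -/
noncomputable def S (x : Fin d → ℂ) (V : Mat d) : ℂ := ∑ k, x k * V k k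

lemma cont_S (x : Fin d → ℂ) : Continuous fun V : UU (Fin d) => S x (V : Mat d) := by
  unfold S
  exact continuous_finsetSum _ fun k _ => continuous_const.mul (cont_coe.matrix_elem k k)

lemma cont_ct : Continuous fun V : UU (Fin d) => conj (trace (V : Mat d)) :=
  Complex.continuous_conj.comp (cont_trace cont_coe)

lemma int_lin {n : Type} [Fintype n] [DecidableEq n] {f₁ f₂ f₃ : UU n → ℂ}
    (h₁ : Integrable f₁ (haarU n)) (h₂ : Integrable f₂ (haarU n)) (h₃ : Integrable f₃ (haarU n))
    (c₁ c₂ c₃ : ℂ) : ∫ V, (c₁ * f₁ V + c₂ * f₂ V - c₃ * f₃ V) ∂(haarU n) =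
      c₁ * ∫ V, f₁ V ∂(haarU n) + c₂ * ∫ V, f₂ V ∂(haarU n) - c₃ * ∫ V, f₃ V ∂(haarU n) := by
  have g₁ := h₁.const_mul c₁
  have g₂ := h₂.const_mul c₂
  have g₃ := h₃.const_mul c₃
  rw [integral_sub ?_ g₃, integral_add g₁ g₂]
  · simp only [integral_const_mul]
  · exact g₁.add g₂

theorem t_SD1 (d : ℕ) (h : SDL d) : SD1 d := by
  intro t x ht
  obtain ⟨a, rfl⟩ : ∃ a, t = a + 1 := ⟨t - 1, by omega⟩
  have h1 : ∀ i j : Fin d, ∫ V : UU (Fin d),
      (x j * (V : Mat d) j j * S x (V : Mat d) ^ a * (conj (trace (V : Mat d))) ^ (a + 1)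
        + (a : ℂ) * (x i * x j * ((V : Mat d) i j * (V : Mat d) j i * S x (V : Mat d) ^ (a - 1) *
          (conj (trace (V : Mat d))) ^ (a + 1)))
        - ((a : ℂ) + 1) * (x j * ((V : Mat d) i j * conj ((V : Mat d) i j)) * (S x (V : Mat d) ^ a *
          (conj (trace (V : Mat d))) ^ a))) ∂(haarU (Fin d)) = 0 := by
    intro i j
    rw [← h (Matrix.diagonal x * Matrix.single j i 1) (Matrix.single i j 1) (Matrix.diagonal x) a
      (a + 1)]
    refine integral_congr_ae (Filter.Eventually.of_forall fun V => ?_)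
    simp only [tr_three, tr_diag_single, tr_diag, tr_mul_single, Matrix.conjTranspose_apply, S,
      Nat.cast_add, Nat.cast_one, Nat.add_sub_cancel, RCLike.star_def]
    ring
  set F : Fin d → Fin d → UU (Fin d) → ℂ := fun i j V =>
      (x j * (V : Mat d) j j * S x (V : Mat d) ^ a * (conj (trace (V : Mat d))) ^ (a + 1)
        + (a : ℂ) * (x i * x j * ((V : Mat d) i j * (V : Mat d) j i * S x (V : Mat d) ^ (a - 1) *
          (conj (trace (V : Mat d))) ^ (a + 1)))
        - ((a : ℂ) + 1) * (x j * ((V : Mat d) i j * conj ((V : Mat d) i j)) * (S x (V : Mat d) ^ a *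
          (conj (trace (V : Mat d))) ^ a))) with hF
  have hce : ∀ i j : Fin d, Continuous fun V : UU (Fin d) => (V : Mat d) i j := fun i j =>
    cont_coe.matrix_elem i j
  have hq : ∀ i j : Fin d, Continuous fun V : UU (Fin d) =>
      (V : Mat d) i j * (V : Mat d) j i * S x (V : Mat d) ^ (a - 1) *
          (conj (trace (V : Mat d))) ^ (a + 1) := fun i j =>
    (((hce i j).mul (hce j i)).mul ((cont_S x).pow _)).mul (cont_ct.pow _)
  have hFc : ∀ i j, Continuous (F i j) := by
    intro i j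
    exact ((((continuous_const.mul (hce j j)).mul ((cont_S x).pow _)).mul (cont_ct.pow _)).add
      (continuous_const.mul (continuous_const.mul (hq i j)))).sub
      (continuous_const.mul ((continuous_const.mul ((hce i j).mul
        (Complex.continuous_conj.comp (hce i j)))).mul (((cont_S x).pow _).mul (cont_ct.pow _))))
  have h2 : ∫ V : UU (Fin d), ∑ i, ∑ j, F i j V ∂(haarU (Fin d)) = 0 := by
    rw [integral_finsetSum _ fun i _ => integrable_finsetSum _ fun j _ =>
      integrable_of_cont (hFc i j)]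
    refine Finset.sum_eq_zero fun i _ => ?_
    rw [integral_finsetSum _ fun j _ => integrable_of_cont (hFc i j)]
    exact Finset.sum_eq_zero fun j _ => h1 i j
  have h3 : ∀ V : UU (Fin d), ∑ i, ∑ j, F i j V =
      ((d : ℂ) * (S x (V : Mat d) ^ (a + 1) * (conj (trace (V : Mat d))) ^ (a + 1)) +
        (a : ℂ) * ∑ i, ∑ j, x i * x j * ((V : Mat d) i j * (V : Mat d) j i *
          S x (V : Mat d) ^ (a - 1) * (conj (trace (V : Mat d))) ^ (a + 1))) -
        ((a : ℂ) + 1) * (∑ i, x i) * (S x (V : Mat d) ^ a * (conj (trace (V : Mat d))) ^ a) := by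
    intro V
    have e1 : ∑ i : Fin d, ∑ j : Fin d, x j * (V : Mat d) j j * S x (V : Mat d) ^ a *
        (conj (trace (V : Mat d))) ^ (a + 1) =
        (d : ℂ) * (S x (V : Mat d) ^ (a + 1) * (conj (trace (V : Mat d))) ^ (a + 1)) := by
      rw [Finset.sum_const, Finset.card_univ, Fintype.card_fin, nsmul_eq_mul, ← Finset.sum_mul,
        ← Finset.sum_mul]
      congr 1
      rw [pow_succ' (S x (V : Mat d))]
      rfl
    have e2 : ∑ i : Fin d, ∑ j : Fin d, (x j * ((V : Mat d) i j * conj ((V : Mat d) i j)) *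
        (S x (V : Mat d) ^ a * (conj (trace (V : Mat d))) ^ a)) =
        (∑ i, x i) * (S x (V : Mat d) ^ a * (conj (trace (V : Mat d))) ^ a) := by
      rw [Finset.sum_comm, Finset.sum_mul]
      refine Finset.sum_congr rfl fun j _ => ?_
      rw [← Finset.sum_mul, ← Finset.mul_sum, col, mul_one]
    have e3 : ∑ i : Fin d, ∑ j : Fin d, (a : ℂ) * (x i * x j * ((V : Mat d) i j * (V : Mat d) j i *
          S x (V : Mat d) ^ (a - 1) * (conj (trace (V : Mat d))) ^ (a + 1))) =
        (a : ℂ) * ∑ i, ∑ j, x i * x j * ((V : Mat d) i j * (V : Mat d) j i *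
          S x (V : Mat d) ^ (a - 1) * (conj (trace (V : Mat d))) ^ (a + 1)) := by
      simp only [Finset.mul_sum]
    have e4 : ∑ i : Fin d, ∑ j : Fin d, ((a : ℂ) + 1) * (x j * ((V : Mat d) i j *
        conj ((V : Mat d) i j)) * (S x (V : Mat d) ^ a * (conj (trace (V : Mat d))) ^ a)) =
        ((a : ℂ) + 1) * ∑ i : Fin d, ∑ j : Fin d, (x j * ((V : Mat d) i j *
        conj ((V : Mat d) i j)) * (S x (V : Mat d) ^ a * (conj (trace (V : Mat d))) ^ a)) := by
      simp only [Finset.mul_sum]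
    simp only [hF, Finset.sum_sub_distrib, Finset.sum_add_distrib]
    rw [e1, e3, e4, e2, mul_assoc ((a : ℂ) + 1)]
  simp only [h3] at h2
  have i1 : Integrable (fun V : UU (Fin d) => S x (V : Mat d) ^ (a + 1) *
      (conj (trace (V : Mat d))) ^ (a + 1)) (haarU (Fin d)) :=
    integrable_of_cont (((cont_S x).pow _).mul (cont_ct.pow _))
  have i2 : Integrable (fun V : UU (Fin d) => ∑ i, ∑ j, x i * x j * ((V : Mat d) i j *
      (V : Mat d) j i * S x (V : Mat d) ^ (a - 1) * (conj (trace (V : Mat d))) ^ (a + 1)))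
      (haarU (Fin d)) :=
    integrable_finsetSum _ fun i _ => integrable_finsetSum _ fun j _ =>
      (integrable_of_cont (hq i j)).const_mul _
  have i3 : Integrable (fun V : UU (Fin d) => S x (V : Mat d) ^ a *
      (conj (trace (V : Mat d))) ^ a) (haarU (Fin d)) :=
    integrable_of_cont (((cont_S x).pow _).mul (cont_ct.pow _))
  replace h2 := (int_lin i1 i2 i3 (d : ℂ) (a : ℂ) (((a : ℂ) + 1) * ∑ i, x i)).symm.trans h2
  rw [integral_finsetSum _ fun i _ => integrable_finsetSum _ fun j _ =>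
      (integrable_of_cont (hq i j)).const_mul _] at h2
  have h5 : ∀ i : Fin d, ∫ V : UU (Fin d), ∑ j, x i * x j * ((V : Mat d) i j *
      (V : Mat d) j i * S x (V : Mat d) ^ (a - 1) * (conj (trace (V : Mat d))) ^ (a + 1))
      ∂(haarU (Fin d)) = ∑ j, x i * x j * qI d (a + 1) i j x := by
    intro i
    rw [integral_finsetSum _ fun j _ => (integrable_of_cont (hq i j)).const_mul _]
    refine Finset.sum_congr rfl fun j _ => ?_
    rw [integral_const_mul]
    rfl
  simp only [h5] at h2
  have h6 : (d : ℂ) * gI d (a + 1) x + (a : ℂ) * (∑ i, ∑ j, x i * x j * qI d (a + 1) i j x) -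
      ((a : ℂ) + 1) * (∑ i, x i) * gI d a x = 0 := h2
  rw [Nat.cast_add, Nat.cast_one, Nat.add_sub_cancel, add_sub_cancel_right]
  exact sub_eq_zero.mp h6

end Pool.Agent.T5h70.NH.SD1
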