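import Pool.Agent.T5h70.NH.HaarD

open Matrix MeasureTheory
open scoped BigOperators ComplexConjugate ComplexOrder Topology

namespace Pool.Agent.T5h70.NH.SDL

open Pool.Agent.V11219.MomentOp Pool.Agent.T5h70.NH.HaarD

variable {d : ℕ}

/-- the integrand -/
noncomputable def gg (B X : Mat d) (a b : ℕ) (K V : Mat d) : ℂ :=
  trace (B * K * V) * trace (X * V) ^ a * (conj (trace V)) ^ b
      + a * trace (B * V) * trace (X * K * V) * trace (X * V) ^ (a - 1) * (conj (trace V)) ^ b
      - b * trace (B * V) * trace (X * V) ^ a * (conj (trace V)) ^ (b - 1) * trace (Vᴴ * K)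

lemma gg_add (B X : Mat d) (a b : ℕ) (K K' V : Mat d) :
    gg B X a b (K + K') V = gg B X a b K V + gg B X a b K' V := by
  unfold gg
  simp only [Matrix.mul_add, Matrix.add_mul, Matrix.trace_add]
  ring

lemma gg_smul (B X : Mat d) (a b : ℕ) (c : ℂ) (K V : Mat d) :
    gg B X a b (c • K) V = c * gg B X a b K V := by
  unfold gg
  simp only [Matrix.mul_smul, Matrix.smul_mul, Matrix.trace_smul, smul_eq_mul]
  ring

lemma cont_gg (B X : Mat d) (a b : ℕ) (K : Mat d) :
    Continuous fun V : UU (Fin d) => gg B X a b K (V : Mat d) := by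
  have hc : Continuous fun V : UU (Fin d) => (V : Mat d) := cont_coe
  have h1 : ∀ B : Mat d, Continuous fun V : UU (Fin d) => trace (B * (V : Mat d)) := fun B =>
    cont_trace (continuous_const.matrix_mul hc)
  have h2 : Continuous fun V : UU (Fin d) => conj (trace (V : Mat d)) :=
    Complex.continuous_conj.comp (cont_trace hc)
  have h3 : Continuous fun V : UU (Fin d) => trace ((V : Mat d)ᴴ * K) :=
    cont_trace (hc.matrix_conjTranspose.matrix_mul continuous_const)
  unfold gg
  exact ((((h1 _).mul ((h1 _).pow _)).mul (h2.pow _)).add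
    ((((continuous_const.mul (h1 _)).mul (h1 _)).mul ((h1 _).pow _)).mul (h2.pow _))).sub
    ((((continuous_const.mul (h1 _)).mul ((h1 _).pow _)).mul (h2.pow _)).mul h3)

/-- linear functional -/
noncomputable def L1 (B V : Mat d) : Mat d →ₗ[ℝ] ℂ where
  toFun M := trace (B * (M * V))
  map_add' M M' := by simp [Matrix.mul_add, Matrix.add_mul]
  map_smul' c M := by simp

/-- linear functional -/
noncomputable def L2 (V : Mat d) : Mat d →ₗ[ℝ] ℂ where
  toFun M := conj (trace (M * V))
  map_add' M M' := by simp [Matrix.add_mul]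
  map_smul' c M := by simp

lemma skew (B X : Mat d) (a b : ℕ) {K : Mat d} (hK : Kᴴ = -K) :
    ∫ V : UU (Fin d), gg B X a b K (V : Mat d) ∂(haarU (Fin d)) = 0 := by
  have hc : Continuous fun V : UU (Fin d) => (V : Mat d) := cont_coe
  have h1 : ∀ B : Mat d, Continuous fun V : UU (Fin d) => trace (B * (V : Mat d)) := fun B =>
    cont_trace (continuous_const.matrix_mul hc)
  have h2 : Continuous fun V : UU (Fin d) => conj (trace (V : Mat d)) :=
    Complex.continuous_conj.comp (cont_trace hc)
  refine int_deriv_zero (fun s V => ux hK s * V) (fun s => continuous_const_mul _) ?_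
    (fun s f => shift _ f)
    (fun V => trace (B * (V : Mat d)) * trace (X * (V : Mat d)) ^ a * (conj (trace (V : Mat d))) ^ b)
    (fun V => gg B X a b K (V : Mat d)) (((h1 _).mul ((h1 _).pow _)).mul (h2.pow _))
    (cont_gg B X a b K) ?_
  · intro V
    apply Subtype.ext
    show ex K 0 * (V : Mat d) = V
    rw [ex_zero, Matrix.one_mul]
  · intro V s
    have e1 := deriv_exp K (L1 B (V : Mat d)) s
    have e2 := deriv_exp K (L1 X (V : Mat d)) s
    have e3 := deriv_exp K (L2 (V : Mat d)) s
    have h := (e1.mul (e2.pow a)).mul (e3.pow b)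
    have e4 : trace ((ex K s * (V : Mat d))ᴴ * K) = - conj (trace (K * ex K s * (V : Mat d))) := by
      have : conj (trace (K * ex K s * (V : Mat d))) = trace ((K * ex K s * (V : Mat d))ᴴ) :=
        (Matrix.trace_conjTranspose _).symm
      rw [this, Matrix.mul_assoc K, Matrix.conjTranspose_mul K, hK, Matrix.mul_neg,
        Matrix.trace_neg, neg_neg]
    refine (h.congr_deriv ?_)
    show (trace (B * (K * ex K s * (V : Mat d))) * trace (X * (ex K s * (V : Mat d))) ^ a +
      trace (B * (ex K s * (V : Mat d))) * (a * trace (X * (ex K s * (V : Mat d))) ^ (a - 1) *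
        trace (X * (K * ex K s * (V : Mat d))))) * conj (trace (ex K s * (V : Mat d))) ^ b +
      trace (B * (ex K s * (V : Mat d))) * trace (X * (ex K s * (V : Mat d))) ^ a *
        (b * conj (trace (ex K s * (V : Mat d))) ^ (b - 1) * conj (trace (K * ex K s * (V : Mat d))))
      = gg B X a b K (ex K s * (V : Mat d))
    unfold gg
    rw [e4]
    simp only [Matrix.mul_assoc]
    ring

end Pool.Agent.T5h70.NH.SDL

namespace Pool.Agent.T5h70.NH.HaarD

open Pool.Agent.V11219.MomentOp

variable {d : ℕ}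

/-- every matrix is `K + i K'` with skew-Hermitian `K`, `K'` -/
lemma skew_dec (K : Mat d) : ∃ K₁ K₂ : Mat d, K₁ᴴ = -K₁ ∧ K₂ᴴ = -K₂ ∧ K = K₁ + Complex.I • K₂ := by
  refine ⟨(1 / 2 : ℂ) • (K - Kᴴ), (-(Complex.I / 2)) • (K + Kᴴ), ?_, ?_, ?_⟩
  · ext i j
    simp
    ring
  · ext i j
    simp
    ring
  · ext i j
    simp
    linear_combination ((1 / 2) * (K i j + conj (K j i))) * Complex.I_mul_I

end Pool.Agent.T5h70.NH.HaarD

namespace Pool.Agent.T5h70.NH.SDL

open Pool.Agent.V11219.MomentOp Pool.Agent.T5h70.NH.HaarD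

theorem t_SDL (d : ℕ) : SDL d := by
  intro B K X a b
  obtain ⟨K₁, K₂, h1, h2, rfl⟩ := skew_dec K
  show ∫ V : UU (Fin d), gg B X a b (K₁ + Complex.I • K₂) (V : Mat d) ∂(haarU (Fin d)) = 0
  simp only [gg_add, gg_smul]
  rw [integral_add (integrable_of_cont (cont_gg B X a b K₁))
    ((integrable_of_cont (cont_gg B X a b K₂)).const_mul _), integral_const_mul,
    skew B X a b h1, skew B X a b h2, mul_zero, add_zero]

end Pool.Agent.T5h70.NH.SDL
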