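import Pool.Agent.T5h70.NH.Stm

/-!
# Identities for the Vandermonde product (tasks V1, V2, V3 of the project NH; helper22)
-/

set_option autoImplicit false

open Matrix

namespace Pool.Agent.T5h70.NH

namespace V22

/-- expansion of the determinant in the row `k` -/
theorem det_upd {R : Type*} [CommRing R] {n : Type*} [Fintype n] [DecidableEq n]
    (A : Matrix n n R) (k : n) (b : n → R) :
    (A.updateRow k b).det = ∑ j, b j * A.adjugate j k := by
  rw [← Matrix.cramer_transpose_apply, Matrix.cramer_eq_adjugate_mulVec, Matrix.mulVec,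
    dotProduct, ← Matrix.adjugate_transpose]
  exact Finset.sum_congr rfl fun j _ => by rw [Matrix.transpose_apply, mul_comm]

theorem col_adj {R : Type*} [CommRing R] {n : Type*} [Fintype n] [DecidableEq n]
    (A : Matrix n n R) (i j : n) :
    ∑ k, A k i * A.adjugate j k = if j = i then A.det else 0 := by
  have h := congrFun (congrFun (Matrix.adjugate_mul A) j) i
  rw [Matrix.mul_apply, Matrix.smul_apply, Matrix.one_apply, smul_eq_mul] at h
  rw [Finset.sum_congr rfl fun k _ => mul_comm (A k i) (A.adjugate j k), h]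
  split_ifs <;> simp

/-- `∑_k det (A with row k replaced by row k of A * B) = tr B · det A` -/
theorem sum_det_upd {R : Type*} [CommRing R] {n : Type*} [Fintype n] [DecidableEq n]
    (A B : Matrix n n R) :
    ∑ k, (A.updateRow k ((A * B) k)).det = trace B * A.det := by
  simp only [det_upd, Matrix.mul_apply, Finset.sum_mul]
  rw [Finset.sum_comm]
  have h : ∀ j, ∑ k, ∑ i, A k i * B i j * A.adjugate j k = B j j * A.det := by
    intro j
    rw [Finset.sum_comm]
    have h2 : ∀ i, ∑ k, A k i * B i j * A.adjugate j k = B i j * (if j = i then A.det else 0) := by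
      intro i
      rw [← col_adj, Finset.mul_sum]
      exact Finset.sum_congr rfl fun k _ => by ring
    rw [Finset.sum_congr rfl fun i _ => h2 i]
    simp
  rw [Finset.sum_congr rfl fun j _ => h j, ← Finset.sum_mul]
  rfl

/-- the values of the falling factorials -/
noncomputable def pc (y : ℂ) (j : ℕ) : ℂ := Polynomial.eval y (descPochhammer ℂ j)

theorem pc_right (y : ℂ) (j : ℕ) : pc y (j + 1) = (y - j) * pc y j := by
  unfold pc
  rw [descPochhammer_succ_right, Polynomial.eval_mul]
  simp [mul_comm]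

theorem pc_left (y : ℂ) (j : ℕ) : y * pc (y - 1) j = pc y (j + 1) := by
  unfold pc
  rw [descPochhammer_succ_left, Polynomial.eval_mul, Polynomial.eval_comp]
  simp

theorem pc_add (y : ℂ) (j : ℕ) : pc (y + 1) (j + 1) = pc y (j + 1) + (j + 1) * pc y j := by
  rw [← pc_left, pc_right, add_sub_cancel_right]
  ring

theorem pc_zero (y : ℂ) : pc y 0 = 1 := by
  simp [pc]

/-- the matrix of the falling factorials -/
noncomputable def am {d : ℕ} (y : Fin d → ℂ) : Matrix (Fin d) (Fin d) ℂ :=
  Matrix.of fun i j => pc (y i) j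

/-- the sign -/
def sg (d : ℕ) : ℂ := ∏ i : Fin d, ∏ _j ∈ Finset.univ.filter (fun j => i < j), (-1)

theorem vd_eq {d : ℕ} (y : Fin d → ℂ) : vd y = sg d * (am y).det := by
  have h1 : (am y).det = (Matrix.vandermonde y).det := by
    rw [Matrix.det_eval_matrixOfPolynomials_eq_det_vandermonde y
      (fun j : Fin d => descPochhammer ℂ j) (fun i => descPochhammer_natDegree ℂ i)
      (fun i => monic_descPochhammer ℂ i)]
    rfl
  rw [h1, Matrix.det_vandermonde, vd, sg, ← Finset.prod_mul_distrib]
  refine Finset.prod_congr rfl fun i _ => ?_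
  have h2 : Finset.Ioi i = Finset.univ.filter (fun j => i < j) := by
    ext j
    simp
  rw [h2, ← Finset.prod_mul_distrib]
  exact Finset.prod_congr rfl fun j _ => by ring

theorem am_update {d : ℕ} (y : Fin d → ℂ) (k : Fin d) (z : ℂ) :
    am (Function.update y k z) = (am y).updateRow k (fun j => pc z j) := by
  ext i j
  by_cases h : i = k
  · subst h
    simp [am]
  · simp [am, h]

theorem vd_update {d : ℕ} (y : Fin d → ℂ) (k : Fin d) (z : ℂ) :
    vd (Function.update y k z) = sg d * ∑ j : Fin d, pc z j * (am y).adjugate j k := by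
  rw [vd_eq, am_update, det_upd]

theorem col {d : ℕ} (y : Fin d → ℂ) (i j : Fin d) :
    ∑ k, pc (y k) i * (am y).adjugate j k = if j = i then (am y).det else 0 :=
  col_adj (am y) i j

theorem t_V1 (d : ℕ) : V1 d := by
  intro y
  simp only [vd_update]
  rw [← Finset.mul_sum, vd_eq, Finset.sum_comm]
  have h : ∀ j : Fin d, ∑ k, pc (y k + 1) j * (am y).adjugate j k = (am y).det := by
    intro j
    obtain ⟨j, hj⟩ := j
    rcases j with _ | j
    · have h := col y ⟨0, hj⟩ ⟨0, hj⟩
      simp only [if_true] at h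
      rw [← h]
      exact Finset.sum_congr rfl fun k _ => by simp only [pc_zero]
    · have h := col y ⟨j + 1, hj⟩ ⟨j + 1, hj⟩
      have h' := col y ⟨j, by omega⟩ ⟨j + 1, hj⟩
      simp only [if_true] at h
      rw [if_neg (by simp)] at h'
      have e : ∀ k, pc (y k + 1) (j + 1) * (am y).adjugate ⟨j + 1, hj⟩ k =
          pc (y k) (j + 1) * (am y).adjugate ⟨j + 1, hj⟩ k +
            ((j : ℂ) + 1) * (pc (y k) j * (am y).adjugate ⟨j + 1, hj⟩ k) := by
        intro k
        rw [pc_add]
        ring
      simp only at h h' ⊢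
      rw [Finset.sum_congr rfl fun k _ => e k, Finset.sum_add_distrib, h, ← Finset.mul_sum, h']
      simp
  rw [Finset.sum_congr rfl fun j _ => h j]
  simp
  ring

/-- the coefficients of the falling factorials `(y)_{j+1}` -/
noncomputable def cj {d : ℕ} (y : Fin d → ℂ) (j : Fin d) : ℂ :=
  ∑ k, pc (y k) (j + 1) * (am y).adjugate j k

theorem cj_zero {d : ℕ} (y : Fin d → ℂ) (j : Fin d) (h : (j : ℕ) + 1 < d) : cj y j = 0 := by
  have h1 := col y ⟨j + 1, h⟩ j
  rw [if_neg (by intro e; have := congrArg Fin.val e; simp at this)] at h1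
  exact h1

theorem sum_range_fin (d : ℕ) : ∑ j : Fin d, (j : ℂ) = (d : ℂ) * (d - 1) / 2 := by
  rw [Fin.sum_univ_eq_sum_range (fun j => (j : ℂ)) d]
  induction d with
  | zero => simp
  | succ d ih => rw [Finset.sum_range_succ, ih]; push_cast; ring

theorem sum_cj {d : ℕ} (y : Fin d → ℂ) :
    ∑ j, cj y j = (∑ k, y k - (d : ℂ) * (d - 1) / 2) * (am y).det := by
  unfold cj
  have h1 : ∀ j : Fin d, ∑ k, pc (y k) (j + 1) * (am y).adjugate j k =
      ∑ k, y k * (pc (y k) j * (am y).adjugate j k) - (j : ℂ) * (am y).det := by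
    intro j
    have h := col y j j
    rw [if_pos rfl] at h
    rw [← h, Finset.mul_sum, ← Finset.sum_sub_distrib]
    refine Finset.sum_congr rfl fun k _ => ?_
    rw [pc_right]
    ring
  rw [Finset.sum_congr rfl fun j _ => h1 j, Finset.sum_sub_distrib, Finset.sum_comm,
    ← Finset.sum_mul, sum_range_fin, sub_mul, Finset.sum_mul]
  congr 1
  refine Finset.sum_congr rfl fun k _ => ?_
  rw [← Finset.mul_sum]
  congr 1
  have h2 := Matrix.det_eq_sum_mul_adjugate_row (am y) k
  rw [h2]
  rfl

theorem t_V2 (d : ℕ) : V2 d := by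
  intro y
  simp only [vd_update]
  rw [vd_eq]
  have h1 : ∑ k, y k * (sg d * ∑ j : Fin d, pc (y k - 1) j * (am y).adjugate j k) =
      sg d * ∑ j, cj y j := by
    unfold cj
    rw [Finset.sum_comm (s := Finset.univ) (t := Finset.univ), Finset.mul_sum]
    refine Finset.sum_congr rfl fun k _ => ?_
    rw [mul_left_comm, Finset.mul_sum]
    congr 1
    refine Finset.sum_congr rfl fun j _ => ?_
    rw [← pc_left]
    ring
  rw [h1, sum_cj]
  ring

theorem t_V3 (d : ℕ) : V3 d := by
  intro y
  simp only [vd_update]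
  rw [vd_eq]
  have h1 : ∀ k, y k ^ 2 * (sg d * ∑ j : Fin d, pc (y k - 1) j * (am y).adjugate j k) =
      sg d * (y k ^ 2 * (am y).det - ∑ j : Fin d, ((j : ℂ) * (pc (y k) (j + 1) * (am y).adjugate j k) +
        (j : ℂ) ^ 2 * (pc (y k) j * (am y).adjugate j k))) := by
    intro k
    rw [Matrix.det_eq_sum_mul_adjugate_row (am y) k, mul_left_comm]
    congr 1
    rw [Finset.mul_sum, Finset.mul_sum, ← Finset.sum_sub_distrib]
    refine Finset.sum_congr rfl fun j _ => ?_
    have e1 := pc_left (y k) j
    have e2 := pc_right (y k) j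
    have e3 : (am y) k j = pc (y k) j := rfl
    rw [e3]
    linear_combination (y k * (am y).adjugate j k) * e1 + ((y k + j) * (am y).adjugate j k) * e2
  rw [Finset.sum_congr rfl fun k _ => h1 k, ← Finset.mul_sum, Finset.sum_sub_distrib,
    ← Finset.sum_mul, Finset.sum_comm]
  have h2 : ∀ j : Fin d, ∑ k, ((j : ℂ) * (pc (y k) (j + 1) * (am y).adjugate j k) +
        (j : ℂ) ^ 2 * (pc (y k) j * (am y).adjugate j k)) =
      ((d : ℂ) - 1) * cj y j + (j : ℂ) ^ 2 * (am y).det := by
    intro j
    have h := col y j j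
    rw [if_pos rfl] at h
    rw [Finset.sum_add_distrib, ← Finset.mul_sum, ← Finset.mul_sum, h]
    congr 1
    rcases Nat.lt_or_ge ((j : ℕ) + 1) d with hj | hj
    · have h3 := cj_zero y j hj
      have h4 : ∑ k, pc (y k) (j + 1) * (am y).adjugate j k = cj y j := rfl
      rw [h4, h3]
      simp
    · have h5 : (j : ℕ) + 1 = d := by
        have := j.2
        omega
      have h6 : (d : ℂ) - 1 = j := by
        have h7 : ((j : ℕ) : ℂ) + 1 = d := by exact_mod_cast congrArg (Nat.cast : ℕ → ℂ) h5
        rw [← h7]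
        ring
      rw [h6]
      rfl
  rw [Finset.sum_congr rfl fun j _ => h2 j, Finset.sum_add_distrib, ← Finset.mul_sum, sum_cj,
    ← Finset.sum_mul]
  ring

end V22

end Pool.Agent.T5h70.NH
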